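import Mathlib

/-!
# A finite translation plane has a prime power number of points

An affine plane is given by its parallel classes: a family `E δ` of equivalence relations on the set `A` of points.
If its translations are transitive on `A` then `|A|` is a power of a prime (Artin).
-/

namespace Pool.Agent.DCP5.H67

/-- affine planes, by their parallel classes -/
structure Aff (A Δ : Type) (E : Δ → A → A → Prop) : Prop where
  equiv : ∀ δ, Equivalence (E δ)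
  ex : ∀ x y, ∃ δ, E δ x y
  uniq : ∀ x y δ δ', δ ≠ δ' → E δ x y → E δ' x y → x = y
  meet : ∀ x y δ δ', δ ≠ δ' → ∃ z, E δ x z ∧ E δ' z y
  pt : ∀ x δ, ∃ y, y ≠ x ∧ E δ x y
  two : ∀ δ : Δ, ∃ δ', δ' ≠ δ

namespace Aff

variable {A Δ : Type} {E : Δ → A → A → Prop}

/-- dilations -/
def Dil (E : Δ → A → A → Prop) (s : Equiv.Perm A) : Prop := ∀ δ x y, E δ x y → E δ (s x) (s y)

/-- translations of direction `δ` -/
def Tr (E : Δ → A → A → Prop) (δ : Δ) (s : Equiv.Perm A) : Prop := Dil E s ∧ ∀ x, E δ x (s x)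

theorem rfl' (h : Aff A Δ E) (δ : Δ) (x : A) : E δ x x := (h.equiv δ).refl x

theorem sym (h : Aff A Δ E) {δ : Δ} {x y : A} (h1 : E δ x y) : E δ y x := (h.equiv δ).symm h1

theorem trans (h : Aff A Δ E) {δ : Δ} {x y z : A} (h1 : E δ x y) (h2 : E δ y z) : E δ x z :=
  (h.equiv δ).trans h1 h2

theorem dil_one : Dil E (1 : Equiv.Perm A) := fun _ _ _ h => h

theorem dil_mul {s t : Equiv.Perm A} (hs : Dil E s) (ht : Dil E t) : Dil E (s * t) :=
  fun δ x y h => hs δ _ _ (ht δ x y h)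

theorem dil_inv (h : Aff A Δ E) {s : Equiv.Perm A} (hs : Dil E s) : Dil E s⁻¹ := by
  intro δ x y hxy
  by_cases he : x = y
  · rw [he]; exact h.rfl' δ _
  obtain ⟨δ', hδ'⟩ := h.ex (s⁻¹ x) (s⁻¹ y)
  have h1 : E δ' x y := by
    have := hs δ' _ _ hδ'
    simpa using this
  by_cases hd : δ = δ'
  · rw [hd]; exact hδ'
  · exact absurd (h.uniq x y δ δ' hd hxy h1) he

/-- a dilation with two fixed points is the identity -/
theorem dil_two (h : Aff A Δ E) {s : Equiv.Perm A} (hs : Dil E s) {x y : A} (hxy : x ≠ y) (hx : s x = x)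
    (hy : s y = y) : s = 1 := by
  -- the case of a point off the line
  have key : ∀ (x y : A), x ≠ y → s x = x → s y = y → ∀ δ, E δ x y → ∀ z, ¬ E δ x z → s z = z := by
    intro x y hxy hx hy δ hδ z hz
    obtain ⟨α, hα⟩ := h.ex x z
    obtain ⟨β, hβ⟩ := h.ex y z
    have hαβ : α ≠ β := by
      intro he
      subst he
      have h1 : E α x y := h.trans hα (h.sym hβ)
      by_cases hd : α = δ
      · subst hd; exact hz hα
      · exact hxy (h.uniq x y α δ hd h1 hδ)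
    have h1 : E α x (s z) := by have := hs α _ _ hα; rwa [hx] at this
    have h2 : E β y (s z) := by have := hs β _ _ hβ; rwa [hy] at this
    exact (h.uniq z (s z) α β hαβ (h.trans (h.sym hα) h1) (h.trans (h.sym hβ) h2)).symm
  obtain ⟨δ, hδ⟩ := h.ex x y
  ext z
  show s z = z
  by_cases hz : E δ x z
  · by_cases hzx : z = x
    · rw [hzx, hx]
    obtain ⟨δ', hd⟩ := h.two δ
    obtain ⟨w, hwx, hw⟩ := h.pt x δ'
    have hw1 : ¬ E δ x w := fun h1 => hwx (h.uniq x w δ' δ hd hw h1).symm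
    have hw2 : s w = w := key x y hxy hx hy δ hδ w hw1
    refine key x w (Ne.symm hwx) hx hw2 δ' hw z ?_
    intro h1
    exact hzx (h.uniq x z δ' δ hd h1 hz).symm
  · exact key x y hxy hx hy δ hδ z hz

/-- a translation with a fixed point is the identity -/
theorem tr_fix (h : Aff A Δ E) {δ : Δ} {s : Equiv.Perm A} (hs : Tr E δ s) {x : A} (hx : s x = x) : s = 1 := by
  obtain ⟨δ', hd⟩ := h.two δ
  obtain ⟨y, hyx, hy⟩ := h.pt x δ'
  refine h.dil_two hs.1 (Ne.symm hyx) hx ?_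
  have h1 : E δ' x (s y) := by have := hs.1 δ' _ _ hy; rwa [hx] at this
  exact (h.uniq y (s y) δ' δ hd (h.trans (h.sym hy) h1) (hs.2 y)).symm

/-- a dilation without fixed points is a translation -/
theorem trace (h : Aff A Δ E) {s : Equiv.Perm A} (hs : Dil E s) (hf : ∀ x, s x ≠ x) (x₀ : A) :
    ∃ δ, Tr E δ s := by
  obtain ⟨δ, hδ⟩ := h.ex x₀ (s x₀)
  refine ⟨δ, hs, fun y => ?_⟩
  obtain ⟨δ', hδ'⟩ := h.ex y (s y)
  by_cases hd : δ = δ'
  · rw [hd]; exact hδ'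
  obtain ⟨z, hz1, hz2⟩ := h.meet x₀ y δ δ' hd
  have h1 : E δ z (s z) := h.trans (h.sym hz1) (h.trans hδ (hs δ _ _ hz1))
  have h2 : E δ' z (s z) := h.trans hz2 (h.trans hδ' (h.sym (hs δ' _ _ hz2)))
  exact absurd (h.uniq z (s z) δ δ' hd h1 h2).symm (hf z)

theorem tr_one (h : Aff A Δ E) (δ : Δ) : Tr E δ (1 : Equiv.Perm A) := ⟨dil_one, fun x => h.rfl' δ x⟩

theorem tr_mul (h : Aff A Δ E) {δ : Δ} {s t : Equiv.Perm A} (hs : Tr E δ s) (ht : Tr E δ t) : Tr E δ (s * t) :=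
  ⟨dil_mul hs.1 ht.1, fun x => h.trans (ht.2 x) (hs.2 (t x))⟩

theorem tr_inv (h : Aff A Δ E) {δ : Δ} {s : Equiv.Perm A} (hs : Tr E δ s) : Tr E δ s⁻¹ := by
  refine ⟨h.dil_inv hs.1, fun x => ?_⟩
  have h1 := hs.2 (s⁻¹ x)
  have h2 : s (s⁻¹ x) = x := by simp
  rw [h2] at h1
  exact h.sym h1

theorem tr_pow (h : Aff A Δ E) {δ : Δ} {s : Equiv.Perm A} (hs : Tr E δ s) (n : ℕ) : Tr E δ (s ^ n) := by
  induction n with
  | zero => rw [pow_zero]; exact h.tr_one δ
  | succ n ih => rw [pow_succ]; exact h.tr_mul ih hs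

/-- a translation of two directions is the identity -/
theorem tr_two (h : Aff A Δ E) {δ δ' : Δ} (hd : δ ≠ δ') {s : Equiv.Perm A} (hs : Tr E δ s) (ht : Tr E δ' s) :
    s = 1 := by
  ext x
  exact (h.uniq x (s x) δ δ' hd (hs.2 x) (ht.2 x)).symm

/-- two translations which agree at one point are equal -/
theorem tr_eq (h : Aff A Δ E) {δ δ' : Δ} {s t : Equiv.Perm A} (hs : Tr E δ s) (ht : Tr E δ' t) {x : A}
    (hx : s x = t x) : s = t := by
  by_cases hd : δ = δ'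
  · subst hd
    have h1 : Tr E δ (s⁻¹ * t) := h.tr_mul (h.tr_inv hs) ht
    have h2 : (s⁻¹ * t) x = x := by
      show s⁻¹ (t x) = x
      rw [← hx]
      simp
    have h3 := h.tr_fix h1 h2
    exact (inv_mul_eq_one.mp h3)
  · have h1 : x = s x := h.uniq x (s x) δ δ' hd (hs.2 x) (by rw [hx]; exact ht.2 x)
    have h2 : s = 1 := h.tr_fix hs h1.symm
    have h3 : t = 1 := h.tr_fix ht (by rw [← hx]; exact h1.symm)
    rw [h2, h3]

/-- translations of different directions commute -/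
theorem tr_comm (h : Aff A Δ E) {δ δ' : Δ} (hd : δ ≠ δ') {s t : Equiv.Perm A} (hs : Tr E δ s)
    (ht : Tr E δ' t) : s * t = t * s := by
  ext x
  show s (t x) = t (s x)
  refine h.uniq _ _ δ δ' hd ?_ ?_
  · exact h.trans (h.sym (hs.2 (t x))) (ht.1 δ _ _ (hs.2 x))
  · exact h.trans (h.sym (hs.1 δ' _ _ (ht.2 x))) (ht.2 (s x))

/-- the group of translations -/
def T (h : Aff A Δ E) (x₀ : A) : Subgroup (Equiv.Perm A) where
  carrier := {s | ∃ δ, Tr E δ s}
  mul_mem' := by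
    rintro s t ⟨δ, hs⟩ ⟨δ', ht⟩
    by_cases h1 : ∃ x, (s * t) x = x
    · obtain ⟨x, hx⟩ := h1
      refine ⟨δ, ?_⟩
      have h2 : t = s⁻¹ := by
        refine h.tr_eq ht (h.tr_inv hs) (x := x) ?_
        rw [Equiv.Perm.eq_inv_iff_eq]
        exact hx
      rw [h2, mul_inv_cancel]
      exact h.tr_one δ
    · push Not at h1
      exact h.trace (dil_mul hs.1 ht.1) h1 x₀
  one_mem' := by
    obtain ⟨δ, -⟩ := h.ex x₀ x₀
    exact ⟨δ, h.tr_one δ⟩
  inv_mem' := by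
    rintro s ⟨δ, hs⟩
    exact ⟨δ, h.tr_inv hs⟩

/-- elements of different directions: the order of one kills the other -/
theorem tr_ord (h : Aff A Δ E) (x₀ : A) {δ δ' : Δ} (hd : δ ≠ δ') {s t : Equiv.Perm A} (hs : Tr E δ s)
    (ht : Tr E δ' t) (hs1 : s ≠ 1) {p : ℕ} (hp : s ^ p = 1) : t ^ p = 1 := by
  have hc : Commute s t := h.tr_comm hd hs ht
  have h1 : (s * t) ^ p = t ^ p := by rw [hc.mul_pow, hp, one_mul]
  obtain ⟨δ'', h2⟩ : ∃ δ'', Tr E δ'' (s * t) := (h.T x₀).mul_mem ⟨δ, hs⟩ ⟨δ', ht⟩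
  by_cases he : δ'' = δ'
  · subst he
    exfalso
    have h3 : Tr E δ'' s := by
      have := h.tr_mul h2 (h.tr_inv ht)
      rwa [mul_inv_cancel_right] at this
    exact hs1 (h.tr_two hd hs h3)
  · refine h.tr_two he ?_ (h.tr_pow ht p)
    rw [← h1]
    exact h.tr_pow h2 p

end Aff

/-- **Artin.** -/
theorem artin {A Δ : Type} [Fintype A] {E : Δ → A → A → Prop} (h : Aff A Δ E) (x₀ : A)
    (htr : ∀ a b : A, a ≠ b → ∃ s : Equiv.Perm A, Aff.Dil E s ∧ (∀ x, s x ≠ x) ∧ s a = b) :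
    ∃ p n : ℕ, p.Prime ∧ Fintype.card A = p ^ n := by
  classical
  set T := h.T x₀ with hT
  -- the number of translations
  have hcard : Nat.card T = Fintype.card A := by
    rw [← Nat.card_eq_fintype_card]
    refine Nat.card_congr (Equiv.ofBijective (fun s : T => (s : Equiv.Perm A) x₀) ⟨?_, ?_⟩)
    · rintro ⟨s, δ, hs⟩ ⟨t, δ', ht⟩ hst
      exact Subtype.ext (h.tr_eq hs ht (x := x₀) hst)
    · intro b
      by_cases hb : x₀ = b
      · exact ⟨1, by simpa using hb⟩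
      · obtain ⟨s, hs1, hs2, hs3⟩ := htr x₀ b hb
        exact ⟨⟨s, h.trace hs1 hs2 x₀⟩, hs3⟩
  -- every direction has a translation
  have hdir : ∀ δ, ∃ s, Aff.Tr E δ s ∧ s ≠ 1 := by
    intro δ
    obtain ⟨y, hy, hy'⟩ := h.pt x₀ δ
    obtain ⟨s, hs1, hs2, hs3⟩ := htr x₀ y (Ne.symm hy)
    obtain ⟨δ', hs⟩ := h.trace hs1 hs2 x₀
    have h1 : δ' = δ := by
      by_contra hd
      have h2 := hs.2 x₀
      rw [hs3] at h2
      exact hy (h.uniq x₀ y δ' δ hd h2 hy').symm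
    subst h1
    refine ⟨s, hs, ?_⟩
    rintro rfl
    exact hs2 x₀ rfl
  obtain ⟨δ₀, -⟩ := h.ex x₀ x₀
  obtain ⟨y, hy, -⟩ := h.pt x₀ δ₀
  have h1 : 1 < Fintype.card A := Fintype.one_lt_card_iff.mpr ⟨y, x₀, hy⟩
  set p := (Fintype.card A).minFac with hpdef
  have hp : p.Prime := Nat.minFac_prime (by omega)
  have : Fact p.Prime := ⟨hp⟩
  have hpd : p ∣ Nat.card T := by rw [hcard]; exact Nat.minFac_dvd _
  obtain ⟨⟨s, δ, hs⟩, hso⟩ := exists_prime_orderOf_dvd_card' p hpd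
  have hsp : s ^ p = 1 := by
    have h2 := pow_orderOf_eq_one (⟨s, δ, hs⟩ : T)
    rw [hso] at h2
    exact congrArg Subtype.val h2
  have hs1 : s ≠ 1 := by
    rintro rfl
    have h2 : orderOf (⟨1, δ, hs⟩ : T) = 1 := orderOf_eq_one_iff.mpr rfl
    rw [h2] at hso
    exact hp.one_lt.ne hso
  have hall : ∀ δ' t, Aff.Tr E δ' t → t ^ p = 1 := by
    intro δ' t ht
    by_cases hd : δ = δ'
    · subst hd
      obtain ⟨δ'', hd''⟩ := h.two δ
      obtain ⟨u, hu, hu1⟩ := hdir δ''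
      have h3 : u ^ p = 1 := h.tr_ord x₀ (Ne.symm hd'') hs hu hs1 hsp
      exact h.tr_ord x₀ hd'' hu ht hu1 h3
    · exact h.tr_ord x₀ hd hs ht hs1 hsp
  have hpg : IsPGroup p T := by
    rintro ⟨t, δ', ht⟩
    refine ⟨1, ?_⟩
    rw [pow_one]
    exact Subtype.ext (hall δ' t ht)
  obtain ⟨n, hn⟩ := (IsPGroup.iff_card.mp hpg)
  exact ⟨p, n, hp, by rw [← hcard, hn]⟩

end Pool.Agent.DCP5.H67
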