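import Pool.Agent.DCS.Lev4
import Pool.Agent.DCS.Cherry
import Pool.Agent.DCS.Pbd
import Pool.Agent.DCS.Xbd

/-!
# DCP5-Lev5: the levels `m - 5`, .., `m - 2` of an almost extremal hypergraph, `m / (m - k)` near an integer `q`
-/

namespace Pool.Agent.DCP5

open Finset Pool.Agent.Helper2.DC Pool.Agent.DCS

/-- quotients of nearby numbers -/
private theorem lev5_quot {a b A B κ e : ℝ} (he : 0 < e) (hκ : 0 < κ) (hA : 2 * κ ≤ A)
    (hBA : B ≤ A) (hB : 0 ≤ B) (heκ : 2 * e ≤ κ) (ha : |a - A| ≤ 2 * e) (hb : |b - B| ≤ 2 * e) :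
    |b / a - B / A| ≤ 4 * e / κ := by
  have ha' := abs_le.1 ha
  have ha1 : κ ≤ a := by linarith
  have ha0 : 0 < a := by linarith
  have hA0 : 0 < A := by linarith
  have e1 : b / a - B / A = (A * (b - B) - B * (a - A)) / (a * A) := by
    rw [div_sub_div _ _ ha0.ne' hA0.ne']
    congr 1
    ring
  rw [e1, abs_div, abs_of_pos (mul_pos ha0 hA0), div_le_div_iff₀ (mul_pos ha0 hA0) hκ]
  have h1 : |A * (b - B) - B * (a - A)| ≤ 4 * e * A := by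
    calc |A * (b - B) - B * (a - A)| ≤ |A * (b - B)| + |B * (a - A)| := abs_sub _ _
      _ = A * |b - B| + B * |a - A| := by
          rw [abs_mul, abs_mul, abs_of_nonneg hA0.le, abs_of_nonneg hB]
      _ ≤ A * (2 * e) + A * (2 * e) := by gcongr
      _ = 4 * e * A := by ring
  calc |A * (b - B) - B * (a - A)| * κ ≤ 4 * e * A * κ := mul_le_mul_of_nonneg_right h1 hκ.le
    _ ≤ 4 * e * A * a := mul_le_mul_of_nonneg_left ha1 (by positivity)
    _ = 4 * e * (a * A) := by ring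

/-- the densities of the relation at two levels -/
private theorem lev5_dens {r R Q κ e : ℝ} (hQ : 0 < Q) (hκ : 0 < κ) (h : |r - R| ≤ 4 * e / κ)
    (he : 4 * e * Q ≤ κ ^ 2) :
    (2 * κ ≤ 1 - Q * (1 - R) → κ ≤ 1 - Q * (1 - r)) ∧
    (2 * κ ≤ Q * (1 - R) - 1 → κ ≤ Q * (1 - r) - 1) := by
  have h1 : Q * (4 * e / κ) ≤ κ := by
    rw [mul_div_assoc', div_le_iff₀ hκ]
    calc Q * (4 * e) = 4 * e * Q := by ring
      _ ≤ κ ^ 2 := he
      _ = κ * κ := by ring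
  have h2 : |Q * (r - R)| ≤ κ := by
    rw [abs_mul, abs_of_pos hQ]
    exact (mul_le_mul_of_nonneg_left h hQ.le).trans h1
  have h3 := abs_le.1 h2
  have e1 : Q * (1 - r) = Q * (1 - R) - Q * (r - R) := by ring
  rw [e1]
  constructor <;> intro h4 <;> linarith [h3.1, h3.2]

/-- the levels, from the numerical facts `hnum` (Num5) -/
theorem lev5_of (ε : ℝ) (hε : 0 < ε) (q : ℕ) (hq : 2 ≤ q)
    (hnum : ∃ δ κ : ℝ, 0 < δ ∧ 0 < κ ∧ ∃ k0 : ℕ, ∀ k m : ℕ, k0 ≤ k → (1 + ε) * (k : ℝ) ≤ m →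
      |(m : ℝ) / ((m : ℝ) - (k : ℝ)) - (q : ℝ)| ≤ δ → ∀ s : ℕ, s + 5 = m →
      (∀ j : ℕ, j < 4 → 2 * κ ≤ 1 - be k m (s + j)) ∧
      2 * κ ≤ be k m (s + 1) - be k m s ∧ 2 * κ ≤ be k m (s + 3) - be k m (s + 2) ∧
      2 * κ ≤ 1 - ((q : ℝ) ^ 3 + (q : ℝ) ^ 2 + (q : ℝ)) *
        (1 - (1 - be k m (s + 1)) / (1 - be k m s)) ∧
      2 * κ ≤ ((q : ℝ) + 2) * (1 - (1 - be k m (s + 3)) / (1 - be k m (s + 2))) - 1) :
    ∃ δ κ C e0 : ℝ, 0 < δ ∧ 0 < κ ∧ 0 < C ∧ 0 < e0 ∧ ∃ k0 : ℕ, ∀ k m : ℕ, k0 ≤ k →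
      (1 + ε) * (k : ℝ) ≤ m → |(m : ℝ) / ((m : ℝ) - (k : ℝ)) - (q : ℝ)| ≤ δ →
      ∀ e : ℝ, 0 < e → e ≤ e0 →
      ∀ {V : Type} [Fintype V] [DecidableEq V] (H : Finset (Finset V)), (∀ f ∈ H, f.card = k) →
      (m : ℝ) ≤ e * (Fintype.card V : ℝ) → NI H m = 0 → 0 < NI H (m - 1) →
      (H.card : ℝ) / ((Fintype.card V).choose k : ℝ) ≤ (1 + e) / ((m - 1).choose (k - 1) : ℝ) →
      ∀ s : ℕ, s + 5 = m →
        0 < (Fintype.card V : ℝ) ∧ (∀ j : ℕ, j ≤ 4 → 0 < NI H (s + j)) ∧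
        (∀ j : ℕ, j < 4 → κ * (Fintype.card V : ℝ) ≤ Av H (s + j)) ∧
        Av H (s + 1) ≤ Av H s ∧ Av H (s + 3) ≤ Av H (s + 2) ∧
        κ ≤ 1 - ((q : ℝ) ^ 3 + (q : ℝ) ^ 2 + (q : ℝ)) * (1 - Av H (s + 1) / Av H s) ∧
        κ ≤ ((q : ℝ) + 2) * (1 - Av H (s + 3) / Av H (s + 2)) - 1 ∧
        (∀ j : ℕ, j < 4 → Sq H (s + j) ≤ C * e * (Fintype.card V : ℝ) ^ 2 * NI H (s + j)) ∧
        (∑ J ∈ ind H (s + 1), Cr H J ≤ C * e * (Fintype.card V : ℝ) ^ 3 * NI H (s + 1)) ∧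
        (∑ J ∈ ind H (s + 2), Cr H J ≤ C * e * (Fintype.card V : ℝ) ^ 3 * NI H (s + 2)) := by
  obtain ⟨δ, κ, hδ, hκ, kN, hN⟩ := hnum
  obtain ⟨p0, eP, hp0, heP, kP, hP⟩ := p_low ε 3 hε
  obtain ⟨Q, hQ⟩ : ∃ Q : ℝ, Q = (q : ℝ) ^ 3 + (q : ℝ) ^ 2 + (q : ℝ) := ⟨_, rfl⟩
  have hq2 : (2 : ℝ) ≤ (q : ℝ) := by exact_mod_cast hq
  have hQ0 : 0 < Q := by rw [hQ]; positivity
  have hQtwo : (q : ℝ) + 2 ≤ Q := by
    rw [hQ]
    have h1 : (2 : ℝ) ≤ (q : ℝ) ^ 2 := by nlinarith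
    have h2 : 0 ≤ (q : ℝ) ^ 3 := by positivity
    linarith
  rw [← hQ] at hN ⊢
  obtain ⟨C, hC⟩ : ∃ C : ℝ, C = max 2 (2 / p0) := ⟨_, rfl⟩
  have hC2 : 2 ≤ C := by rw [hC]; exact le_max_left _ _
  have hCp : 2 / p0 ≤ C := by rw [hC]; exact le_max_right _ _
  obtain ⟨e0, he00, he01, he0P, he0κ, he0Q⟩ : ∃ e0 : ℝ, 0 < e0 ∧ e0 ≤ 1 ∧ e0 ≤ eP ∧
      e0 ≤ κ / 2 ∧ e0 ≤ κ ^ 2 / (4 * Q) := by
    refine ⟨min 1 (min eP (min (κ / 2) (κ ^ 2 / (4 * Q)))),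
      lt_min one_pos (lt_min heP (lt_min (by positivity) (by positivity))), min_le_left _ _,
      (min_le_right _ _).trans (min_le_left _ _),
      (min_le_right _ _).trans ((min_le_right _ _).trans (min_le_left _ _)),
      (min_le_right _ _).trans ((min_le_right _ _).trans (min_le_right _ _))⟩
  refine ⟨min δ (1 / 2), κ, C, e0, lt_min hδ (by norm_num), hκ, by linarith, he00,
    max 1 (max ⌈4 / ε⌉₊ (max kN kP)), ?_⟩
  intro k m hk h1 h2 e he hee V _ _ H hH hn h0 hNp hd s hs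
  have hk1 : 1 ≤ k := (le_max_left _ _).trans hk
  have hk' : max ⌈4 / ε⌉₊ (max kN kP) ≤ k := (le_max_right _ _).trans hk
  have hkε : 4 / ε ≤ (k : ℝ) := (Nat.le_ceil _).trans (by
    exact_mod_cast (le_max_left _ _).trans hk')
  have hk'' : max kN kP ≤ k := (le_max_right _ _).trans hk'
  have hkN : kN ≤ k := (le_max_left _ _).trans hk''
  have hkP : kP ≤ k := (le_max_right _ _).trans hk''
  have h4ε : 4 ≤ ε * k := by
    rw [div_le_iff₀ hε] at hkε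
    linarith
  have hkm : (k : ℝ) + 4 ≤ m := by linarith
  have hkm4 : k + 4 ≤ m := by exact_mod_cast hkm
  have hk1R : (1 : ℝ) ≤ k := by exact_mod_cast hk1
  have h2a := h2.trans (min_le_left _ _)
  have h2b := abs_le.1 (h2.trans (min_le_right _ _))
  have hmk : 0 < (m:ℝ) - (k:ℝ) := by linarith
  have hm3 : (m:ℝ) ≤ 3 * k := by
    have h3 : 3 / 2 ≤ (m : ℝ) / ((m : ℝ) - (k : ℝ)) := by linarith [h2b.1]
    rw [le_div_iff₀ hmk] at h3
    linarith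
  obtain ⟨c1, c2, c3, c4, c5⟩ := hN k m hkN h1 h2a s hs
  have hcardn : (0 : ℝ) ≤ (Fintype.card V : ℝ) := Nat.cast_nonneg _
  have hee1 : e ≤ 1 := hee.trans he01
  have heeκ : 2 * e ≤ κ := by linarith
  have heeQ : 4 * e * Q ≤ κ ^ 2 := by
    have h3 : e ≤ κ ^ 2 / (4 * Q) := hee.trans he0Q
    rw [le_div_iff₀ (by positivity)] at h3
    linarith
  have hmn : m ≤ Fintype.card V := by
    have h3 : (m : ℝ) ≤ (Fintype.card V : ℝ) := hn.trans (mul_le_of_le_one_left hcardn hee1)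
    exact_mod_cast h3
  -- the cherries
  have hCr : ∀ t : ℕ, k ≤ t + 1 → t + 3 ≤ m → 0 < NI H t →
      ∑ J ∈ ind H t, Cr H J ≤ C * e * (Fintype.card V : ℝ) ^ 3 * NI H t := by
    intro t ht1 ht2 htN
    have hpl := hP k m hkP h1 hm3 H hH
      (hn.trans (mul_le_mul_of_nonneg_right (hee.trans he0P) hcardn)) h0 hNp
      (hd.trans (div_le_div_of_nonneg_right (by linarith) (Nat.cast_nonneg _))) t (by omega)
    have h3 := (cherry_le H t).trans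
      (Xs_le_NI hH hk1 he.le hp0 hn hmn h0 hNp hd ht1 ht2 hpl)
    refine h3.trans ?_
    have h4 : 0 ≤ e * (Fintype.card V : ℝ) ^ 3 * NI H t := by positivity
    calc 2 / p0 * e * (Fintype.card V : ℝ) ^ 3 * NI H t
        = 2 / p0 * (e * (Fintype.card V : ℝ) ^ 3 * NI H t) := by ring
      _ ≤ C * (e * (Fintype.card V : ℝ) ^ 3 * NI H t) := mul_le_mul_of_nonneg_right hCp h4
      _ = C * e * (Fintype.card V : ℝ) ^ 3 * NI H t := by ring
  -- the averages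
  obtain ⟨k', rfl⟩ : ∃ k', k = k' + 1 := ⟨k - 1, by omega⟩
  obtain ⟨M, rfl⟩ : ∃ M, m = M + 1 := ⟨m - 1, by omega⟩
  have ek : k' + 1 - 1 = k' := by omega
  have eM : M + 1 - 1 = M := by omega
  rw [eM] at hNp
  have hd' : (H.card : ℝ) / ((Fintype.card V).choose (k' + 1) : ℝ) ≤
      (1 + e) / (M.choose k' : ℝ) := by
    rw [ek, eM] at hd
    exact hd
  have hn' : (M : ℝ) + 1 ≤ e * (Fintype.card V : ℝ) := by push_cast at hn; exact hn
  have hbe : ∀ j, be (k' + 1) (M + 1) j = (j.choose k' : ℝ) / (M.choose k' : ℝ) := fun j => rfl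
  have hlev := fun (j : ℕ) (hj : k' ≤ j) (hjM : j ≤ M) =>
    lev4_av hH he hn' hee1 hNp h0 hd' hj hjM
  have hM0 : (0 : ℝ) ≤ (M : ℝ) := Nat.cast_nonneg _
  have hn0 : 0 < (Fintype.card V : ℝ) := by
    by_contra hcon
    push Not at hcon
    have := mul_nonpos_of_nonneg_of_nonpos he.le hcon
    linarith
  have hNI : ∀ j : ℕ, j ≤ 4 → 0 < NI H (s + j) := fun j hj =>
    (hlev (s + j) (by omega) (by omega)).1
  have hav : ∀ j : ℕ, j < 4 →
      |Av H (s + j) - (1 - be (k' + 1) (M + 1) (s + j)) * (Fintype.card V : ℝ)| ≤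
        2 * e * (Fintype.card V : ℝ) := fun j hj => by
    rw [hbe]
    exact (hlev (s + j) (by omega) (by omega)).2.2.1
  have hSq : ∀ j : ℕ, j < 4 → Sq H (s + j) ≤
      2 * e * (Fintype.card V : ℝ) ^ 2 * NI H (s + j) := fun j hj =>
    (hlev (s + j) (by omega) (by omega)).2.2.2.2 (by omega)
  obtain ⟨n, hnn⟩ : ∃ n : ℝ, n = (Fintype.card V : ℝ) := ⟨_, rfl⟩
  rw [← hnn] at hn0 hav hSq hCr ⊢
  have hav' : ∀ j : ℕ, j < 4 → |Av H (s + j) / n - (1 - be (k' + 1) (M + 1) (s + j))| ≤ 2 * e := by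
    intro j hj
    have e1 : Av H (s + j) / n - (1 - be (k' + 1) (M + 1) (s + j)) =
        (Av H (s + j) - (1 - be (k' + 1) (M + 1) (s + j)) * n) / n := by
      field_simp
    rw [e1, abs_div, abs_of_pos hn0, div_le_iff₀ hn0]
    exact hav j hj
  have hen : 2 * (e * n) ≤ κ * n := by
    have := mul_le_mul_of_nonneg_right heeκ hn0.le
    linarith
  have hlow : ∀ j : ℕ, j < 4 → κ * n ≤ Av H (s + j) := by
    intro j hj
    have h3 := (abs_le.1 (hav j hj)).1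
    have h4 := mul_le_mul_of_nonneg_right (c1 j hj) hn0.le
    linarith
  have hbe0 : ∀ j, 0 ≤ be (k' + 1) (M + 1) j := fun j => by rw [hbe]; positivity
  have hmono : ∀ j : ℕ, j + 1 < 4 →
      2 * κ ≤ be (k' + 1) (M + 1) (s + (j + 1)) - be (k' + 1) (M + 1) (s + j) →
      Av H (s + (j + 1)) ≤ Av H (s + j) := by
    intro j hj h3
    have h4 := (abs_le.1 (hav (j + 1) hj)).2
    have h5 := (abs_le.1 (hav j (by omega))).1
    have h6 := mul_le_mul_of_nonneg_right h3 hn0.le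
    have h7 : (be (k' + 1) (M + 1) (s + (j + 1)) - be (k' + 1) (M + 1) (s + j)) * n =
      (1 - be (k' + 1) (M + 1) (s + j)) * n - (1 - be (k' + 1) (M + 1) (s + (j + 1))) * n := by
      ring
    linarith
  have hquot : ∀ j : ℕ, j + 1 < 4 →
      2 * κ ≤ be (k' + 1) (M + 1) (s + (j + 1)) - be (k' + 1) (M + 1) (s + j) →
      |Av H (s + (j + 1)) / Av H (s + j) - (1 - be (k' + 1) (M + 1) (s + (j + 1))) /
        (1 - be (k' + 1) (M + 1) (s + j))| ≤ 4 * e / κ := by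
    intro j hj h3
    have h4 := lev5_quot (a := Av H (s + j) / n) (b := Av H (s + (j + 1)) / n)
      (A := 1 - be (k' + 1) (M + 1) (s + j)) (B := 1 - be (k' + 1) (M + 1) (s + (j + 1))) he hκ
      (c1 j (by omega)) (by linarith) (by linarith [c1 (j + 1) hj]) heeκ (hav' j (by omega))
      (hav' (j + 1) hj)
    rwa [div_div_div_cancel_right₀ hn0.ne'] at h4
  have c2' : 2 * κ ≤ be (k' + 1) (M + 1) (s + (0 + 1)) - be (k' + 1) (M + 1) (s + 0) := c2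
  have c3' : 2 * κ ≤ be (k' + 1) (M + 1) (s + (2 + 1)) - be (k' + 1) (M + 1) (s + 2) := c3
  have hq0 := hquot 0 (by norm_num) c2'
  have hq1 := hquot 2 (by norm_num) c3'
  have d0 := (lev5_dens hQ0 hκ hq0 heeQ).1 c4
  have d1 := (lev5_dens (Q := (q : ℝ) + 2) (by positivity) hκ hq1
    (le_trans (mul_le_mul_of_nonneg_left hQtwo (by positivity)) heeQ)).2 c5
  refine ⟨hn0, hNI, hlow, hmono 0 (by norm_num) c2', hmono 2 (by norm_num) c3', d0, d1, ?_,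
    hCr (s + 1) (by omega) (by omega) (hNI 1 (by norm_num)),
    hCr (s + 2) (by omega) (by omega) (hNI 2 (by norm_num))⟩
  intro j hj
  refine (hSq j hj).trans ?_
  have h4 : 0 ≤ e * n ^ 2 * NI H (s + j) := by
    have := (hNI j (by omega)).le
    positivity
  calc 2 * e * n ^ 2 * NI H (s + j) = 2 * (e * n ^ 2 * NI H (s + j)) := by ring
    _ ≤ C * (e * n ^ 2 * NI H (s + j)) := mul_le_mul_of_nonneg_right hC2 h4
    _ = C * e * n ^ 2 * NI H (s + j) := by ring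

end Pool.Agent.DCP5
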