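import Pool.Agent.DCS.Re

/-!
# DCP5: pairwise unrelated tuples

`Tup X R t` is the set of the `t`-tuples of pairwise unrelated members of `X`. If almost all degrees are about
`p |X|`, the greedy choice gives at least about `∏ (1 - t p) |X|^N` of them. If `r p > 1` and there are few cherries,
there are few `r`-tuples.
-/

set_option linter.unusedSectionVars false
set_option linter.unusedVariables false

namespace Pool.Agent.DCP5

open Finset Pool.Agent.DCS

variable {V : Type} [Fintype V] [DecidableEq V]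

/-- the tuples of pairwise unrelated members of `X` -/
noncomputable def Tup (X : Finset V) (R : V → V → Prop) (t : ℕ) : Finset (Fin t → V) :=
  open Classical in
    (Fintype.piFinset fun _ => X).filter (fun x => ∀ i j, i < j → ¬ R (x i) (x j))

theorem mem_Tup {X : Finset V} {R : V → V → Prop} {t : ℕ} {x : Fin t → V} :
    x ∈ Tup X R t ↔ (∀ i, x i ∈ X) ∧ ∀ i j, i < j → ¬ R (x i) (x j) := by
  classical
  unfold Tup
  rw [mem_filter, Fintype.mem_piFinset]

private theorem gr_fiber1 (X : Finset V) {t : ℕ} (i : Fin t) {y : V} (hy : y ∈ X) :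
    ((Fintype.piFinset fun _ : Fin t => X).filter (fun x => x i = y)).card = X.card ^ (t - 1) := by
  classical
  have h1 : (Fintype.piFinset fun _ : Fin t => X).filter (fun x => x i = y) =
      Fintype.piFinset (fun l : Fin t => if l = i then {y} else X) := by
    ext x
    rw [mem_filter, Fintype.mem_piFinset, Fintype.mem_piFinset]
    constructor
    · rintro ⟨h2, h3⟩ l
      by_cases hl : l = i
      · rw [if_pos hl, mem_singleton, hl, h3]
      · rw [if_neg hl]
        exact h2 l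
    · intro h2
      have h3 : x i = y := by
        have h4 := h2 i
        rw [if_pos rfl, mem_singleton] at h4
        exact h4
      refine ⟨fun l => ?_, h3⟩
      by_cases hl : l = i
      · rw [hl, h3]
        exact hy
      · have h4 := h2 l
        rw [if_neg hl] at h4
        exact h4
  rw [h1, Fintype.card_piFinset]
  have h2 : ∏ l ∈ (univ.erase i), (if l = i then {y} else X : Finset V).card =
      ∏ l : Fin t, (if l = i then {y} else X : Finset V).card := by
    refine prod_subset (erase_subset _ _) fun l _ hl => ?_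
    have h3 : l = i := by
      by_contra h4
      exact hl (mem_erase.2 ⟨h4, mem_univ _⟩)
    rw [if_pos h3, card_singleton]
  rw [← h2]
  have h3 : ∀ l ∈ univ.erase i, (if l = i then {y} else X : Finset V).card = X.card := by
    intro l hl
    rw [if_neg (mem_erase.1 hl).1]
  rw [prod_congr rfl h3, prod_const, card_erase_of_mem (mem_univ _), card_univ, Fintype.card_fin]

private theorem gr_fiber2 (X : Finset V) {t : ℕ} {i j : Fin t} (hij : i ≠ j) {y z : V}
    (hy : y ∈ X) (hz : z ∈ X) :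
    ((Fintype.piFinset fun _ : Fin t => X).filter (fun x => x i = y ∧ x j = z)).card =
      X.card ^ (t - 2) := by
  classical
  have h1 : (Fintype.piFinset fun _ : Fin t => X).filter (fun x => x i = y ∧ x j = z) =
      Fintype.piFinset (fun l : Fin t => if l = i then {y} else if l = j then {z} else X) := by
    ext x
    rw [mem_filter, Fintype.mem_piFinset, Fintype.mem_piFinset]
    constructor
    · rintro ⟨h2, h3, h3'⟩ l
      by_cases hl : l = i
      · rw [if_pos hl, mem_singleton, hl, h3]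
      · rw [if_neg hl]
        by_cases hl' : l = j
        · rw [if_pos hl', mem_singleton, hl', h3']
        · rw [if_neg hl']
          exact h2 l
    · intro h2
      have h3 : x i = y := by
        have h4 := h2 i
        rw [if_pos rfl, mem_singleton] at h4
        exact h4
      have h3' : x j = z := by
        have h4 := h2 j
        rw [if_neg hij.symm, if_pos rfl, mem_singleton] at h4
        exact h4
      refine ⟨fun l => ?_, h3, h3'⟩
      by_cases hl : l = i
      · rw [hl, h3]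
        exact hy
      · by_cases hl' : l = j
        · rw [hl', h3']
          exact hz
        · have h4 := h2 l
          rw [if_neg hl, if_neg hl'] at h4
          exact h4
  rw [h1, Fintype.card_piFinset]
  have h2 : ∏ l ∈ ((univ.erase i).erase j),
      (if l = i then {y} else if l = j then {z} else X : Finset V).card =
      ∏ l : Fin t, (if l = i then {y} else if l = j then {z} else X : Finset V).card := by
    refine prod_subset (subset_univ _) fun l _ hl => ?_
    by_cases h3 : l = i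
    · rw [if_pos h3, card_singleton]
    · have h4 : l = j := by
        by_contra h5
        exact hl (mem_erase.2 ⟨h5, mem_erase.2 ⟨h3, mem_univ _⟩⟩)
      rw [if_neg h3, if_pos h4, card_singleton]
  rw [← h2]
  have h3 : ∀ l ∈ (univ.erase i).erase j,
      (if l = i then {y} else if l = j then {z} else X : Finset V).card = X.card := by
    intro l hl
    rw [if_neg (mem_erase.1 (mem_erase.1 hl).2).1, if_neg (mem_erase.1 hl).1]
  rw [prod_congr rfl h3, prod_const,
    card_erase_of_mem (mem_erase.2 ⟨hij.symm, mem_univ _⟩), card_erase_of_mem (mem_univ _), card_univ,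
    Fintype.card_fin]
  congr 1

/-- sums over one coordinate -/
theorem sum_pi_one (X : Finset V) {t : ℕ} (i : Fin t) (f : V → ℝ) :
    ∑ x ∈ Fintype.piFinset (fun _ : Fin t => X), f (x i) =
      (X.card : ℝ) ^ (t - 1) * ∑ y ∈ X, f y := by
  classical
  have h1 : ∀ x ∈ Fintype.piFinset (fun _ : Fin t => X), x i ∈ X := fun x hx =>
    Fintype.mem_piFinset.1 hx i
  rw [← sum_fiberwise_of_maps_to h1 (fun x => f (x i)), mul_sum]
  refine sum_congr rfl fun y hy => ?_
  have h2 : ∀ x ∈ (Fintype.piFinset (fun _ : Fin t => X)).filter (fun x => x i = y),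
      f (x i) = f y := fun x hx => by rw [(mem_filter.1 hx).2]
  rw [sum_congr rfl h2, sum_const, gr_fiber1 X i hy, nsmul_eq_mul]
  push_cast
  ring

/-- sums over two coordinates -/
theorem sum_pi_two (X : Finset V) {t : ℕ} {i j : Fin t} (hij : i ≠ j) (f : V → V → ℝ) :
    ∑ x ∈ Fintype.piFinset (fun _ : Fin t => X), f (x i) (x j) =
      (X.card : ℝ) ^ (t - 2) * ∑ y ∈ X, ∑ z ∈ X, f y z := by
  classical
  have h1 : ∀ x ∈ Fintype.piFinset (fun _ : Fin t => X), x i ∈ X := fun x hx =>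
    Fintype.mem_piFinset.1 hx i
  rw [← sum_fiberwise_of_maps_to h1 (fun x => f (x i) (x j)), mul_sum]
  refine sum_congr rfl fun y hy => ?_
  have h2 : ∀ x ∈ (Fintype.piFinset (fun _ : Fin t => X)).filter (fun x => x i = y),
      x j ∈ X := fun x hx => Fintype.mem_piFinset.1 (mem_filter.1 hx).1 j
  rw [← sum_fiberwise_of_maps_to h2 (fun x => f (x i) (x j)), mul_sum]
  refine sum_congr rfl fun z hz => ?_
  rw [filter_filter]
  have h3 : ∀ x ∈ (Fintype.piFinset (fun _ : Fin t => X)).filter (fun x => x i = y ∧ x j = z),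
      f (x i) (x j) = f y z := fun x hx => by
    rw [(mem_filter.1 hx).2.1, (mem_filter.1 hx).2.2]
  rw [sum_congr rfl h3, sum_const, gr_fiber2 X hij hy hz, nsmul_eq_mul]
  push_cast
  ring

/-- the extensions by one coordinate of the members of `A` -/
noncomputable def Nx (X : Finset V) (R : V → V → Prop) {t : ℕ} (A : Finset (Fin t → V)) :
    Finset (Fin (t + 1) → V) :=
  open Classical in
    (Fintype.piFinset fun _ => X).filter
      (fun z => (Fin.init z : Fin t → V) ∈ A ∧ ∀ i : Fin t, ¬ R (z i.castSucc) (z (Fin.last t)))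

theorem mem_Nx {X : Finset V} {R : V → V → Prop} {t : ℕ} {A : Finset (Fin t → V)}
    {z : Fin (t + 1) → V} : z ∈ Nx X R A ↔ (∀ i, z i ∈ X) ∧ (Fin.init z : Fin t → V) ∈ A ∧
      ∀ i : Fin t, ¬ R (z i.castSucc) (z (Fin.last t)) := by
  classical
  unfold Nx
  rw [mem_filter, Fintype.mem_piFinset]

theorem Nx_sub {X : Finset V} {R : V → V → Prop} {t : ℕ} {A : Finset (Fin t → V)}
    (hA : A ⊆ Tup X R t) : Nx X R A ⊆ Tup X R (t + 1) := by
  intro z hz
  rw [mem_Nx] at hz
  obtain ⟨h1, h2, h3⟩ := hz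
  have h4 := mem_Tup.1 (hA h2)
  rw [mem_Tup]
  refine ⟨h1, fun i j hij => ?_⟩
  revert hij
  refine Fin.lastCases ?_ (fun l => ?_) j
  · refine Fin.lastCases ?_ (fun l => ?_) i
    · intro h; exact absurd h (lt_irrefl _)
    · intro _
      exact h3 l
  · refine Fin.lastCases ?_ (fun l' => ?_) i
    · intro h
      exact absurd (lt_trans h (Fin.castSucc_lt_last l)) (lt_irrefl _)
    · intro h
      exact h4.2 _ _ (Fin.castSucc_lt_castSucc_iff.1 h)

private theorem gr_succ (X : Finset V) (R : V → V → Prop) {t : ℕ} {A : Finset (Fin t → V)}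
    (hA : A ⊆ Tup X R t) : (Nx X R A).card =
      ∑ x ∈ A, (open Classical in X.filter fun y => ∀ i, ¬ R (x i) y).card := by
  classical
  have h1 : ∀ x ∈ Nx X R A, (Fin.init x : Fin t → V) ∈ A := fun x hx => (mem_Nx.1 hx).2.1
  rw [card_eq_sum_card_fiberwise h1]
  refine sum_congr rfl fun x hx => ?_
  have hx' := mem_Tup.1 (hA hx)
  refine card_bij (fun z _ => z (Fin.last t)) ?_ ?_ ?_
  · intro z hz
    rw [mem_filter, mem_Nx] at hz
    rw [mem_filter]
    refine ⟨hz.1.1 _, fun i => ?_⟩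
    have h2 : x i = z i.castSucc := by rw [← hz.2]; rfl
    rw [h2]
    exact hz.1.2.2 i
  · intro z hz z' hz' h
    rw [mem_filter] at hz hz'
    have h2 : (Fin.init z : Fin t → V) = Fin.init z' := by rw [hz.2, hz'.2]
    rw [← Fin.snoc_init_self z, ← Fin.snoc_init_self z', h2, h]
  · intro y hy
    rw [mem_filter] at hy
    refine ⟨(Fin.snoc x y : Fin (t + 1) → V), ?_, ?_⟩
    · rw [mem_filter, mem_Nx]
      refine ⟨⟨fun i => ?_, ?_, fun i => ?_⟩, ?_⟩
      · refine Fin.lastCases ?_ (fun l => ?_) i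
        · rw [Fin.snoc_last]; exact hy.1
        · rw [Fin.snoc_castSucc]; exact hx'.1 l
      · rw [Fin.init_snoc]; exact hx
      · rw [Fin.snoc_last, Fin.snoc_castSucc]
        exact hy.2 i
      · exact Fin.init_snoc _ _
    · exact Fin.snoc_last _ _

private theorem gr_ge (X : Finset V) (R : V → V → Prop) {t : ℕ} (x : Fin t → V) :
    (X.card : ℝ) - ∑ i, ((nbl X R (x i)).card : ℝ) ≤
      ((open Classical in X.filter fun y => ∀ i, ¬ R (x i) y).card : ℝ) := by
  classical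
  have h1 : X ⊆ (X.filter fun y => ∀ i, ¬ R (x i) y) ∪ univ.biUnion (fun i => nbl X R (x i)) := by
    intro y hy
    by_cases h : ∀ i, ¬ R (x i) y
    · exact mem_union_left _ (mem_filter.2 ⟨hy, h⟩)
    · push Not at h
      obtain ⟨i, hi⟩ := h
      exact mem_union_right _ (mem_biUnion.2 ⟨i, mem_univ _, mem_nbl.2 ⟨hy, hi⟩⟩)
  have h2 : X.card ≤ (X.filter fun y => ∀ i, ¬ R (x i) y).card + ∑ i, (nbl X R (x i)).card :=
    le_trans (card_le_card h1) (le_trans (card_union_le _ _)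
      (Nat.add_le_add_left card_biUnion_le _))
  have h3 : (X.card : ℝ) ≤ ((X.filter fun y => ∀ i, ¬ R (x i) y).card : ℝ) +
      ∑ i, ((nbl X R (x i)).card : ℝ) := by exact_mod_cast h2
  linarith

private theorem gr_Tup_sub (X : Finset V) (R : V → V → Prop) (t : ℕ) :
    Tup X R t ⊆ Fintype.piFinset (fun _ : Fin t => X) := fun x hx =>
  Fintype.mem_piFinset.2 (mem_Tup.1 hx).1

/-- the sum of the deviations over the tuples -/
private theorem gr_dev (X : Finset V) (R : V → V → Prop) {t : ℕ} {A : Finset (Fin t → V)}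
    (hA : A ⊆ Tup X R t) (i : Fin t) (f : V → ℝ) (hf : ∀ y, 0 ≤ f y) :
    ∑ x ∈ A, f (x i) ≤ (X.card : ℝ) ^ (t - 1) * ∑ y ∈ X, f y := by
  rw [← sum_pi_one X i f]
  exact sum_le_sum_of_subset_of_nonneg (hA.trans (gr_Tup_sub X R t)) fun x _ _ => hf _

/-- one step of the greedy choice -/
theorem greedy_below (X : Finset V) (R : V → V → Prop) (p : ℝ) {t : ℕ} {A : Finset (Fin t → V)}
    (hA : A ⊆ Tup X R t) :
    (1 - t * p) * (X.card : ℝ) * (A.card : ℝ) -
      t * (X.card : ℝ) ^ (t - 1) * ∑ y ∈ X, |((nbl X R y).card : ℝ) - p * (X.card : ℝ)| ≤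
      ((Nx X R A).card : ℝ) := by
  classical
  rw [gr_succ X R hA]
  push_cast
  have h1 := sum_le_sum fun x (_ : x ∈ A) => gr_ge X R x
  refine le_trans ?_ h1
  rw [sum_sub_distrib, sum_const, nsmul_eq_mul, sum_comm]
  have h2 : ∀ i : Fin t, ∑ x ∈ A, ((nbl X R (x i)).card : ℝ) ≤
      p * (X.card : ℝ) * (A.card : ℝ) +
        (X.card : ℝ) ^ (t - 1) * ∑ y ∈ X, |((nbl X R y).card : ℝ) - p * (X.card : ℝ)| := by
    intro i
    have h3 := gr_dev X R hA i (fun y => |((nbl X R y).card : ℝ) - p * (X.card : ℝ)|)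
      (fun y => abs_nonneg _)
    have h4 : ∑ x ∈ A, ((nbl X R (x i)).card : ℝ) ≤
        ∑ x ∈ A, (p * (X.card : ℝ) +
          |((nbl X R (x i)).card : ℝ) - p * (X.card : ℝ)|) := by
      refine sum_le_sum fun x _ => ?_
      have := le_abs_self (((nbl X R (x i)).card : ℝ) - p * (X.card : ℝ))
      linarith
    rw [sum_add_distrib, sum_const, nsmul_eq_mul] at h4
    linarith
  have h3 := sum_le_sum fun i (_ : i ∈ (univ : Finset (Fin t))) => h2 i
  rw [sum_const, card_univ, Fintype.card_fin, nsmul_eq_mul] at h3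
  have h4 : (1 - t * p) * (X.card : ℝ) * (A.card : ℝ) =
      (A.card : ℝ) * (X.card : ℝ) -
        t * (p * (X.card : ℝ) * (A.card : ℝ)) := by ring
  rw [h4]
  have h5 : (t : ℝ) * (p * (X.card : ℝ) * (A.card : ℝ) +
      (X.card : ℝ) ^ (t - 1) * ∑ y ∈ X, |((nbl X R y).card : ℝ) - p * (X.card : ℝ)|) =
      t * (p * (X.card : ℝ) * (A.card : ℝ)) +
      t * (X.card : ℝ) ^ (t - 1) * ∑ y ∈ X, |((nbl X R y).card : ℝ) - p * (X.card : ℝ)| := by
    ring
  rw [h5] at h3
  linarith

/-- the greedy choice, beginning with the members of `A` -/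
theorem grow (X : Finset V) (R : V → V → Prop) {p : ℝ} (hp : 0 ≤ p) {t0 : ℕ} (ht0 : 2 ≤ t0)
    {A : Finset (Fin t0 → V)} (hA : A ⊆ Tup X R t0) (N : ℕ) (hN : t0 ≤ N)
    (hpN : ∀ t : ℕ, t < N → (t : ℝ) * p ≤ 1) :
    ∃ F : Finset (Fin N → V), F ⊆ Tup X R N ∧
      (∀ T ∈ F, (fun i : Fin t0 => T (Fin.castLE hN i)) ∈ A) ∧
      (∏ t ∈ Ico t0 N, (1 - (t : ℝ) * p)) * (X.card : ℝ) ^ (N - t0) * (A.card : ℝ) -
        (N : ℝ) ^ 2 * (X.card : ℝ) ^ (N - 2) *
          ∑ y ∈ X, |((nbl X R y).card : ℝ) - p * (X.card : ℝ)| ≤ (F.card : ℝ) := by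
  classical
  obtain ⟨S, hS⟩ : ∃ S : ℝ, S = ∑ y ∈ X, |((nbl X R y).card : ℝ) - p * (X.card : ℝ)| := ⟨_, rfl⟩
  have hS0 : 0 ≤ S := by rw [hS]; exact sum_nonneg fun _ _ => abs_nonneg _
  rw [← hS]
  induction N, hN using Nat.le_induction with
  | base =>
    refine ⟨A, hA, fun T hT => hT, ?_⟩
    rw [Ico_self, prod_empty, Nat.sub_self, pow_zero, one_mul, one_mul]
    have : 0 ≤ (t0 : ℝ) ^ 2 * (X.card : ℝ) ^ (t0 - 2) * S := by positivity
    linarith
  | succ N hN ih =>
    obtain ⟨F, hF1, hF2, hF3⟩ := ih (fun t ht => hpN t (by omega))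
    refine ⟨Nx X R F, Nx_sub hF1, ?_, ?_⟩
    · intro T hT
      exact hF2 _ (mem_Nx.1 hT).2.1
    · have hb := greedy_below X R p hF1
      rw [← hS] at hb
      refine le_trans ?_ hb
      have h1 : (0 : ℝ) ≤ 1 - N * p := by linarith [hpN N (by omega)]
      have h2 : 1 - (N : ℝ) * p ≤ 1 := by
        have : 0 ≤ (N : ℝ) * p := mul_nonneg (Nat.cast_nonneg _) hp
        linarith
      have hX : (0 : ℝ) ≤ (X.card : ℝ) := Nat.cast_nonneg _
      have h3 := mul_le_mul_of_nonneg_left hF3 (mul_nonneg h1 hX)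
      have h5 : (X.card : ℝ) * (X.card : ℝ) ^ (N - 2) = (X.card : ℝ) ^ (N - 1) := by
        rw [← pow_succ']
        congr 1
        omega
      have h6 : (X.card : ℝ) * (X.card : ℝ) ^ (N - t0) = (X.card : ℝ) ^ (N + 1 - t0) := by
        rw [← pow_succ']
        congr 1
        omega
      have h7 : N + 1 - 2 = N - 1 := by omega
      rw [h7, Finset.prod_Ico_succ_top hN, ← h5, ← h6]
      have h8 : (1 - (N : ℝ) * p) * (X.card : ℝ) *
          ((∏ t ∈ Ico t0 N, (1 - (t : ℝ) * p)) * (X.card : ℝ) ^ (N - t0) * (A.card : ℝ) -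
            (N : ℝ) ^ 2 * (X.card : ℝ) ^ (N - 2) * S) =
          (∏ t ∈ Ico t0 N, (1 - (t : ℝ) * p)) * (1 - (N : ℝ) * p) *
            ((X.card : ℝ) * (X.card : ℝ) ^ (N - t0)) * (A.card : ℝ) -
          (1 - (N : ℝ) * p) * ((N : ℝ) ^ 2 * ((X.card : ℝ) * (X.card : ℝ) ^ (N - 2)) * S) := by
        ring
      rw [h8] at h3
      have h9 : 0 ≤ (N : ℝ) ^ 2 * ((X.card : ℝ) * (X.card : ℝ) ^ (N - 2)) * S := by positivity
      have h10 : (1 - (N : ℝ) * p) * ((N : ℝ) ^ 2 * ((X.card : ℝ) * (X.card : ℝ) ^ (N - 2)) * S) ≤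
          1 * ((N : ℝ) ^ 2 * ((X.card : ℝ) * (X.card : ℝ) ^ (N - 2)) * S) :=
        mul_le_mul_of_nonneg_right h2 h9
      have h11 : 0 ≤ ((N : ℝ) + 1) * ((X.card : ℝ) * (X.card : ℝ) ^ (N - 2)) * S := by positivity
      push_cast
      have h12 : ((N : ℝ) + 1) ^ 2 * ((X.card : ℝ) * (X.card : ℝ) ^ (N - 2)) * S =
          (N : ℝ) ^ 2 * ((X.card : ℝ) * (X.card : ℝ) ^ (N - 2)) * S +
          (N : ℝ) * ((X.card : ℝ) * (X.card : ℝ) ^ (N - 2)) * S +
          ((N : ℝ) + 1) * ((X.card : ℝ) * (X.card : ℝ) ^ (N - 2)) * S := by ring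
      rw [h12]
      linarith

private theorem gr_bonf (X : Finset V) {r : ℕ} (A : Fin r → Finset V) (hA : ∀ i, A i ⊆ X) :
    ∑ i, ((A i).card : ℝ) ≤ (X.card : ℝ) +
      ∑ i, ∑ j ∈ univ.erase i, ((A i ∩ A j).card : ℝ) := by
  classical
  have h1 : ∀ i, ((A i).card : ℝ) = ∑ v ∈ X, (if v ∈ A i then (1 : ℝ) else 0) := by
    intro i
    rw [← sum_filter, sum_const, nsmul_eq_mul, mul_one]
    congr 2
    ext v
    rw [mem_filter]
    exact ⟨fun h => ⟨hA i h, h⟩, fun h => h.2⟩
  have h2 : ∀ i j, ((A i ∩ A j).card : ℝ) =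
      ∑ v ∈ X, (if v ∈ A i then (1 : ℝ) else 0) * (if v ∈ A j then (1 : ℝ) else 0) := by
    intro i j
    have h3 : ∀ v ∈ X, (if v ∈ A i then (1 : ℝ) else 0) * (if v ∈ A j then (1 : ℝ) else 0) =
        if v ∈ A i ∩ A j then (1 : ℝ) else 0 := by
      intro v _
      by_cases ha : v ∈ A i
      · by_cases hb : v ∈ A j
        · rw [if_pos ha, if_pos hb, if_pos (mem_inter.2 ⟨ha, hb⟩), one_mul]
        · rw [if_pos ha, if_neg hb, if_neg (fun h => hb (mem_inter.1 h).2), mul_zero]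
      · rw [if_neg ha, if_neg (fun h => ha (mem_inter.1 h).1), zero_mul]
    rw [sum_congr rfl h3, ← sum_filter, sum_const, nsmul_eq_mul, mul_one]
    congr 2
    ext v
    rw [mem_filter]
    exact ⟨fun h => ⟨hA i (mem_inter.1 h).1, h⟩, fun h => h.2⟩
  have h3 : ∑ i, ((A i).card : ℝ) = ∑ v ∈ X, ∑ i, (if v ∈ A i then (1 : ℝ) else 0) := by
    rw [sum_comm]
    exact sum_congr rfl fun i _ => h1 i
  have h4 : ∑ i, ∑ j ∈ univ.erase i, ((A i ∩ A j).card : ℝ) =
      ∑ v ∈ X, ∑ i, ∑ j ∈ univ.erase i,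
        (if v ∈ A i then (1 : ℝ) else 0) * (if v ∈ A j then (1 : ℝ) else 0) := by
    rw [sum_comm]
    refine sum_congr rfl fun i _ => ?_
    rw [sum_comm]
    exact sum_congr rfl fun j _ => h2 i j
  have h5 : (X.card : ℝ) = ∑ v ∈ X, (1 : ℝ) := by rw [sum_const, nsmul_eq_mul, mul_one]
  rw [h3, h4, h5, ← sum_add_distrib]
  refine sum_le_sum fun v _ => ?_
  set b : Fin r → ℝ := fun i => if v ∈ A i then (1 : ℝ) else 0 with hb
  have hbb : ∀ i, b i * b i = b i := by
    intro i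
    simp only [hb]
    split_ifs <;> norm_num
  have h6 : ∑ i, ∑ j ∈ univ.erase i, b i * b j = (∑ i, b i) ^ 2 - ∑ i, b i := by
    have h7 : ∀ i, ∑ j ∈ univ.erase i, b i * b j = b i * (∑ j, b j) - b i := by
      intro i
      have h8 := add_sum_erase univ (fun j => b i * b j) (mem_univ i)
      have h9 : b i * b i + ∑ j ∈ univ.erase i, b i * b j = ∑ j, b i * b j := h8
      rw [hbb, ← mul_sum] at h9
      rw [← mul_sum] at h9
      rw [← mul_sum]
      linarith
    rw [sum_congr rfl (fun i _ => h7 i), sum_sub_distrib, ← sum_mul]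
    ring
  have h7 : ∑ i, ∑ j ∈ univ.erase i,
      (if v ∈ A i then (1 : ℝ) else 0) * (if v ∈ A j then (1 : ℝ) else 0) =
      (∑ i, b i) ^ 2 - ∑ i, b i := h6
  have h8 : ∑ i, (if v ∈ A i then (1 : ℝ) else 0) = ∑ i, b i := rfl
  rw [h7, h8]
  nlinarith [sq_nonneg (∑ i, b i - 1)]

theorem greedy_above (X : Finset V) (R : V → V → Prop) (hR : ∀ x y, R x y → R y x) (p : ℝ) (r : ℕ) :
    ((r : ℝ) * p - 1) * (X.card : ℝ) * ((Tup X R r).card : ℝ) ≤
      (r : ℝ) * (X.card : ℝ) ^ (r - 1) *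
        ∑ y ∈ X, |((nbl X R y).card : ℝ) - p * (X.card : ℝ)| +
      (r : ℝ) ^ 2 * (X.card : ℝ) ^ (r - 2) *
        ∑ y ∈ X, ∑ z ∈ nnl X R y, (((nbl X R y) ∩ (nbl X R z)).card : ℝ) := by
  classical
  obtain ⟨K, hK⟩ : ∃ K : ℝ, K =
    ∑ y ∈ X, ∑ z ∈ nnl X R y, (((nbl X R y) ∩ (nbl X R z)).card : ℝ) := ⟨_, rfl⟩
  obtain ⟨S, hS⟩ : ∃ S : ℝ, S = ∑ y ∈ X, |((nbl X R y).card : ℝ) - p * (X.card : ℝ)| := ⟨_, rfl⟩
  rw [← hK, ← hS]
  have hX : (0 : ℝ) ≤ (X.card : ℝ) := Nat.cast_nonneg _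
  have hK0 : 0 ≤ K := by
    rw [hK]
    exact sum_nonneg fun _ _ => sum_nonneg fun _ _ => Nat.cast_nonneg _
  -- the sum over the tuples of the degrees
  have h1 : (r : ℝ) * (p * (X.card : ℝ) * ((Tup X R r).card : ℝ)) -
      r * ((X.card : ℝ) ^ (r - 1) * S) ≤
      ∑ x ∈ Tup X R r, ∑ i, ((nbl X R (x i)).card : ℝ) := by
    rw [sum_comm]
    have h2 : ∀ i ∈ (univ : Finset (Fin r)), p * (X.card : ℝ) * ((Tup X R r).card : ℝ) -
        (X.card : ℝ) ^ (r - 1) * S ≤ ∑ x ∈ Tup X R r, ((nbl X R (x i)).card : ℝ) := by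
      intro i _
      have h3 := gr_dev X R (subset_refl (Tup X R r)) i (fun y => |((nbl X R y).card : ℝ) - p * (X.card : ℝ)|)
        (fun y => abs_nonneg _)
      rw [← hS] at h3
      have h4 : ∑ x ∈ Tup X R r, (p * (X.card : ℝ) -
          |((nbl X R (x i)).card : ℝ) - p * (X.card : ℝ)|) ≤
          ∑ x ∈ Tup X R r, ((nbl X R (x i)).card : ℝ) := by
        refine sum_le_sum fun x _ => ?_
        have := neg_abs_le (((nbl X R (x i)).card : ℝ) - p * (X.card : ℝ))
        linarith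
      rw [sum_sub_distrib, sum_const, nsmul_eq_mul] at h4
      linarith
    have h3 := sum_le_sum h2
    rw [sum_const, card_univ, Fintype.card_fin, nsmul_eq_mul, mul_sub] at h3
    exact h3
  have h2 : ∑ x ∈ Tup X R r, ∑ i, ((nbl X R (x i)).card : ℝ) ≤
      ∑ x ∈ Tup X R r, ((X.card : ℝ) +
        ∑ i, ∑ j ∈ univ.erase i, (((nbl X R (x i)) ∩ (nbl X R (x j))).card : ℝ)) :=
    sum_le_sum fun x _ => gr_bonf X (fun i => nbl X R (x i)) fun i y hy => (mem_nbl.1 hy).1
  rw [sum_add_distrib, sum_const, nsmul_eq_mul] at h2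
  have hcomm : ∑ x ∈ Tup X R r, ∑ i,
      ∑ j ∈ univ.erase i, (((nbl X R (x i)) ∩ (nbl X R (x j))).card : ℝ) =
      ∑ i : Fin r, ∑ x ∈ Tup X R r,
        ∑ j ∈ univ.erase i, (((nbl X R (x i)) ∩ (nbl X R (x j))).card : ℝ) := sum_comm
  rw [hcomm] at h2
  have h3 : ∀ i : Fin r, ∀ j ∈ univ.erase i,
      ∑ x ∈ Tup X R r, (((nbl X R (x i)) ∩ (nbl X R (x j))).card : ℝ) ≤
        (X.card : ℝ) ^ (r - 2) * K := by
    intro i j hj
    have hij : i ≠ j := (mem_erase.1 hj).1.symm
    have h4 : ∑ x ∈ Tup X R r, (((nbl X R (x i)) ∩ (nbl X R (x j))).card : ℝ) ≤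
        ∑ x ∈ Fintype.piFinset (fun _ : Fin r => X),
          (if R (x i) (x j) then (0 : ℝ) else (((nbl X R (x i)) ∩ (nbl X R (x j))).card : ℝ)) := by
      refine le_trans (le_of_eq (sum_congr rfl fun x hx => ?_))
        (sum_le_sum_of_subset_of_nonneg (gr_Tup_sub X R r) fun x _ _ => ?_)
      · have h5 : ¬ R (x i) (x j) := by
          rcases lt_or_gt_of_ne hij with h6 | h6
          · exact (mem_Tup.1 hx).2 _ _ h6
          · exact fun h7 => (mem_Tup.1 hx).2 _ _ h6 (hR _ _ h7)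
        rw [if_neg h5]
      · split_ifs
        · exact le_rfl
        · exact Nat.cast_nonneg _
    refine le_trans h4 ?_
    rw [sum_pi_two X hij (fun y z => if R y z then (0 : ℝ) else
      (((nbl X R y) ∩ (nbl X R z)).card : ℝ))]
    refine mul_le_mul_of_nonneg_left (le_of_eq ?_) (by positivity)
    rw [hK]
    refine sum_congr rfl fun y _ => ?_
    have h5 : nnl X R y = X.filter (fun z => ¬ R y z) := by
      ext z
      rw [mem_nnl, mem_filter]
    rw [h5, sum_filter]
    refine sum_congr rfl fun z _ => ?_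
    by_cases h6 : R y z
    · rw [if_pos h6, if_neg (fun h => h h6)]
    · rw [if_neg h6, if_pos h6]
  have h4 : ∑ i : Fin r, ∑ x ∈ Tup X R r,
      ∑ j ∈ univ.erase i, (((nbl X R (x i)) ∩ (nbl X R (x j))).card : ℝ) ≤
      (r : ℝ) ^ 2 * ((X.card : ℝ) ^ (r - 2) * K) := by
    have h5 : ∀ i ∈ (univ : Finset (Fin r)), ∑ x ∈ Tup X R r,
        ∑ j ∈ univ.erase i, (((nbl X R (x i)) ∩ (nbl X R (x j))).card : ℝ) ≤
        (r : ℝ) * ((X.card : ℝ) ^ (r - 2) * K) := by
      intro i _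
      rw [sum_comm]
      have h6 := sum_le_sum (h3 i)
      refine le_trans h6 ?_
      rw [sum_const, nsmul_eq_mul, card_erase_of_mem (mem_univ _), card_univ, Fintype.card_fin]
      refine mul_le_mul_of_nonneg_right ?_ (by positivity)
      exact_mod_cast Nat.sub_le r 1
    have h6 := sum_le_sum h5
    rw [sum_const, card_univ, Fintype.card_fin, nsmul_eq_mul] at h6
    calc _ ≤ (r : ℝ) * ((r : ℝ) * ((X.card : ℝ) ^ (r - 2) * K)) := h6
      _ = _ := by ring
  have h5 : ((r : ℝ) * p - 1) * (X.card : ℝ) * ((Tup X R r).card : ℝ) =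
      (r : ℝ) * (p * (X.card : ℝ) * ((Tup X R r).card : ℝ)) -
        ((Tup X R r).card : ℝ) * (X.card : ℝ) := by ring
  rw [h5]
  have h6 : (r : ℝ) * (X.card : ℝ) ^ (r - 1) * S = r * ((X.card : ℝ) ^ (r - 1) * S) := by ring
  have h7 : (r : ℝ) ^ 2 * (X.card : ℝ) ^ (r - 2) * K =
      (r : ℝ) ^ 2 * ((X.card : ℝ) ^ (r - 2) * K) := by ring
  rw [h6, h7]
  linarith

end Pool.Agent.DCP5
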