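import Pool.Agent.DCS.Re
import Pool.Agent.DCP5.Gr

/-!
# DCP5: many tuples of pairwise unrelated points of a level, the first four jointly independent

`F4 H J t` is the set of the `(t + 4)`-tuples of pairwise unrelated points of `ext H J` whose first four points
form together with `J` an independent set. If the levels `s`, .., `s + 3` have many extensions, almost all members
`J` of the level `s` have almost the average number of extensions and the degrees of the relation of `J` are about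
`p |ext J|`, where `(t + 3) p ≤ 1 - κ`, there are many such tuples.
-/

set_option linter.unusedSectionVars false
set_option linter.unusedVariables false

namespace Pool.Agent.DCP5

open Finset Pool.Agent.DCS Pool.Agent.Helper2.DC

variable {V : Type} [Fintype V] [DecidableEq V]

/-- the tuples of pairwise unrelated points of `ext H J` whose first four points are jointly independent over
`J` -/
noncomputable def F4 (H : Finset (Finset V)) (J : Finset V) (t : ℕ) : Finset (Fin (t + 4) → V) :=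
  open Classical in (Tup (ext H J) (Re H J) (t + 4)).filter fun x =>
    Ind H (insert (x 0) (insert (x 1) (insert (x 2) (insert (x 3) J))))

/-- the same with an arbitrary length -/
private noncomputable def g4 (H : Finset (Finset V)) (J : Finset V) (m : ℕ) : Finset (Fin m → V) :=
  open Classical in (Tup (ext H J) (Re H J) m).filter fun x =>
    ∀ h : 4 ≤ m, Ind H (insert (x ⟨0, by omega⟩) (insert (x ⟨1, by omega⟩)
      (insert (x ⟨2, by omega⟩) (insert (x ⟨3, by omega⟩) J))))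

private theorem mem_g4 {H : Finset (Finset V)} {J : Finset V} {m : ℕ} {x : Fin m → V} :
    x ∈ g4 H J m ↔ ((∀ i, x i ∈ ext H J) ∧ ∀ i j, i < j → ¬ Re H J (x i) (x j)) ∧
      ∀ h : 4 ≤ m, Ind H (insert (x ⟨0, by omega⟩) (insert (x ⟨1, by omega⟩)
        (insert (x ⟨2, by omega⟩) (insert (x ⟨3, by omega⟩) J)))) := by
  classical
  unfold g4 Tup
  rw [mem_filter, mem_filter, Fintype.mem_piFinset]

private theorem F4_eq (H : Finset (Finset V)) (J : Finset V) (t : ℕ) : F4 H J t = g4 H J (t + 4) := by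
  classical
  unfold F4 g4
  ext x
  rw [mem_filter, mem_filter]
  refine and_congr_right fun _ => ⟨fun h _ => h, fun h => h (by omega)⟩

/-- the number of the points of `X` which are not related to the members of a tuple -/
private theorem low5_free (X : Finset V) (R : V → V → Prop) (hR : ∀ x y, R x y → R y x) {m : ℕ}
    (x : Fin m → V) (p : ℝ) :
    (1 - (m : ℝ) * p) * (X.card : ℝ) - ∑ i, |((nbl X R (x i)).card : ℝ) - p * (X.card : ℝ)| ≤
      ((open Classical in X.filter fun y => ∀ i, ¬ R (x i) y).card : ℝ) := by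
  classical
  have h1 : X ⊆ (X.filter fun y => ∀ i, ¬ R (x i) y) ∪ (univ : Finset (Fin m)).biUnion fun i => nbl X R (x i) := by
    intro y hy
    rw [mem_union, mem_filter, mem_biUnion]
    by_cases h : ∀ i, ¬ R (x i) y
    · exact Or.inl ⟨hy, h⟩
    · push Not at h
      obtain ⟨i, hi⟩ := h
      exact Or.inr ⟨i, mem_univ _, mem_nbl.2 ⟨hy, hi⟩⟩
  have h2 : (X.card : ℝ) ≤ ((X.filter fun y => ∀ i, ¬ R (x i) y).card : ℝ) +
      ∑ i, ((nbl X R (x i)).card : ℝ) := by
    have h3 := (card_le_card h1).trans (card_union_le _ _)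
    have h4 := h3.trans (Nat.add_le_add_left card_biUnion_le _)
    exact_mod_cast h4
  have h5 : ∑ i, ((nbl X R (x i)).card : ℝ) ≤
      ∑ i, (|((nbl X R (x i)).card : ℝ) - p * (X.card : ℝ)| + p * (X.card : ℝ)) := by
    refine sum_le_sum fun i _ => ?_
    have := le_abs_self (((nbl X R (x i)).card : ℝ) - p * (X.card : ℝ))
    linarith
  rw [sum_add_distrib, sum_const, card_univ, Fintype.card_fin, nsmul_eq_mul] at h5
  have h6 : (1 - (m : ℝ) * p) * (X.card : ℝ) = (X.card : ℝ) - (m : ℝ) * (p * (X.card : ℝ)) := by ring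
  rw [h6]
  linarith

/-- appending a point -/
private theorem low5_snoc (H : Finset (Finset V)) (J : Finset V) {m : ℕ} (hm : 4 ≤ m) :
    ∑ x ∈ g4 H J m, (open Classical in (ext H J).filter fun y => ∀ i, ¬ Re H J (x i) y).card ≤
      (g4 H J (m + 1)).card := by
  classical
  rw [← card_sigma]
  refine card_le_card_of_injOn (fun z => Fin.snoc (α := fun _ : Fin (m + 1) => V) z.1 z.2) ?_ ?_
  · rintro ⟨x, y⟩ h
    rw [mem_coe, mem_sigma, mem_filter] at h
    obtain ⟨hx, hy, hxy⟩ := h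
    rw [mem_coe, mem_g4] 
    obtain ⟨⟨hx1, hx2⟩, hx3⟩ := mem_g4.1 hx
    refine ⟨⟨?_, ?_⟩, ?_⟩
    · intro i
      refine Fin.lastCases ?_ (fun j => ?_) i
      · simpa using hy
      · simpa using hx1 j
    · intro i j
      refine Fin.lastCases (fun hij => ?_) (fun i' => ?_) i
      · exact absurd hij (not_lt.2 (Fin.le_last j))
      · refine Fin.lastCases (fun _ => ?_) (fun j' hij => ?_) j
        · simpa using hxy i'
        · have := hx2 i' j' (by simpa using hij)
          simpa using this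
    · intro _
      have h4 := hx3 hm
      have hsn : ∀ (k : ℕ) (hk : k < m), (Fin.snoc (α := fun _ : Fin (m + 1) => V) x y) ⟨k, by omega⟩ =
          x ⟨k, hk⟩ := by
        intro k hk
        exact Fin.snoc_castSucc (α := fun _ : Fin (m + 1) => V) y x ⟨k, hk⟩
      simp only
      rw [hsn 0 (by omega), hsn 1 (by omega), hsn 2 (by omega), hsn 3 (by omega)]
      exact h4
  · rintro ⟨x, y⟩ _ ⟨x', y'⟩ _ h
    simp only at h
    have h1 : x = x' := by
      funext i
      have := congrFun h i.castSucc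
      simpa using this
    have h2 : y = y' := by
      have := congrFun h (Fin.last m)
      simpa using this
    rw [h1, h2]

/-- the sum of the deviations over the tuples -/
private theorem low5_dev (X : Finset V) (f : V → ℝ) (hf : ∀ x ∈ X, 0 ≤ f x) {m : ℕ}
    (A : Finset (Fin (m + 1) → V)) (hA : ∀ x ∈ A, ∀ i, x i ∈ X) :
    ∑ x ∈ A, ∑ i, f (x i) ≤ ((m : ℝ) + 1) * (X.card : ℝ) ^ m * ∑ x ∈ X, f x := by
  classical
  have h1 : ∑ x ∈ A, ∑ i, f (x i) ≤ ∑ x ∈ Fintype.piFinset (fun _ : Fin (m + 1) => X), ∑ i, f (x i) := by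
    refine sum_le_sum_of_subset_of_nonneg ?_ ?_
    · intro x hx
      exact Fintype.mem_piFinset.2 (hA x hx)
    · intro x hx _
      exact sum_nonneg fun i _ => hf _ (Fintype.mem_piFinset.1 hx i)
  refine h1.trans (le_of_eq ?_)
  rw [sum_comm]
  have h2 : ∀ i : Fin (m + 1), ∑ x ∈ Fintype.piFinset (fun _ : Fin (m + 1) => X), f (x i) =
      (X.card : ℝ) ^ m * ∑ x ∈ X, f x := by
    intro i
    have h3 := Finset.prod_univ_sum (fun _ : Fin (m + 1) => X)
      (fun (j : Fin (m + 1)) (v : V) => if j = i then f v else (1 : ℝ))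
    have h4 : ∀ x : Fin (m + 1) → V, ∏ j, (if j = i then f (x j) else (1 : ℝ)) = f (x i) := by
      intro x
      rw [prod_eq_single i]
      · simp
      · intro j _ hj
        simp [hj]
      · intro h
        exact absurd (mem_univ i) h
    simp only [h4] at h3
    rw [← h3, ← mul_prod_erase univ _ (mem_univ i)]
    have h5 : ∀ j ∈ (univ : Finset (Fin (m + 1))).erase i,
        ∑ v ∈ X, (if j = i then f v else (1 : ℝ)) = (X.card : ℝ) := by
      intro j hj
      rw [sum_congr rfl fun v _ => if_neg (ne_of_mem_erase hj)]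
      simp
    rw [prod_congr rfl h5, prod_const, card_erase_of_mem (mem_univ i), card_univ, Fintype.card_fin]
    simp [mul_comm]
  rw [sum_congr rfl fun i _ => h2 i, sum_const, card_univ, Fintype.card_fin, nsmul_eq_mul]
  push_cast
  ring

/-- one greedy step for one set `J` -/
private theorem low5_local (H : Finset (Finset V)) (J : Finset V) {m : ℕ} (hm : 4 ≤ m) (p : ℝ) :
    (1 - (m : ℝ) * p) * ((ext H J).card : ℝ) * ((g4 H J m).card : ℝ) -
      (m : ℝ) * ((ext H J).card : ℝ) ^ (m - 1) *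
        ∑ x ∈ ext H J, |((nbl (ext H J) (Re H J) x).card : ℝ) - p * ((ext H J).card : ℝ)| ≤
      ((g4 H J (m + 1)).card : ℝ) := by
  classical
  obtain ⟨r, rfl⟩ : ∃ r, m = r + 1 := ⟨m - 1, by omega⟩
  have h1 := low5_snoc H J hm
  have h2 : (∑ x ∈ g4 H J (r + 1), ((open Classical in (ext H J).filter fun y =>
      ∀ i, ¬ Re H J (x i) y).card : ℝ)) ≤ ((g4 H J (r + 1 + 1)).card : ℝ) := by
    exact_mod_cast h1
  refine le_trans ?_ h2
  have h3 := sum_le_sum fun x (_ : x ∈ g4 H J (r + 1)) =>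
    low5_free (ext H J) (Re H J) (fun _ _ h => Re_symm h) x p
  refine le_trans ?_ h3
  rw [sum_sub_distrib, sum_const, nsmul_eq_mul]
  have h4 := low5_dev (ext H J)
    (fun x => |((nbl (ext H J) (Re H J) x).card : ℝ) - p * ((ext H J).card : ℝ)|)
    (fun _ _ => abs_nonneg _) (g4 H J (r + 1)) (fun x hx => (mem_g4.1 hx).1.1)
  have h5 : r + 1 - 1 = r := by omega
  rw [h5]
  push_cast at h4 ⊢
  linarith [h4]

/-- four points in succession -/
private theorem low5_four (H : Finset (Finset V)) (J : Finset V) :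
    ∑ a ∈ ext H J, ∑ b ∈ ext H (insert a J), ∑ c ∈ ext H (insert b (insert a J)),
      ((ext H (insert c (insert b (insert a J)))).card : ℝ) ≤ ((g4 H J 4).card : ℝ) := by
  classical
  have key : ∑ a ∈ ext H J, ∑ b ∈ ext H (insert a J), ∑ c ∈ ext H (insert b (insert a J)),
      (ext H (insert c (insert b (insert a J)))).card ≤ (g4 H J 4).card := by
    have h1 : ∑ a ∈ ext H J, ∑ b ∈ ext H (insert a J), ∑ c ∈ ext H (insert b (insert a J)),
        (ext H (insert c (insert b (insert a J)))).card =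
        ((ext H J).sigma fun a => (ext H (insert a J)).sigma fun b =>
          (ext H (insert b (insert a J))).sigma fun c => ext H (insert c (insert b (insert a J)))).card := by
      rw [card_sigma]
      refine sum_congr rfl fun a _ => ?_
      rw [card_sigma]
      refine sum_congr rfl fun b _ => ?_
      rw [card_sigma]
    rw [h1]
    refine card_le_card_of_injOn (fun z => ![z.2.2.2, z.2.2.1, z.2.1, z.1]) ?_ ?_
    · rintro ⟨a, b, c, d⟩ h
      rw [mem_coe, mem_sigma, mem_sigma, mem_sigma] at h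
      obtain ⟨ha, hb, hc, hd⟩ := h
      simp only at ha hb hc hd
      rw [mem_ext] at ha hb hc hd
      rw [mem_insert, not_or] at hb
      rw [mem_insert, mem_insert, not_or, not_or] at hc
      rw [mem_insert, mem_insert, mem_insert, not_or, not_or, not_or] at hd
      obtain ⟨ha1, ha2⟩ := ha
      obtain ⟨⟨hb1, hb2⟩, hb3⟩ := hb
      obtain ⟨⟨hc1, hc2, hc3⟩, hc4⟩ := hc
      obtain ⟨⟨hd1, hd2, hd3, hd4⟩, hd5⟩ := hd
      have hsub : ∀ S : Finset V, (∀ v ∈ S, v = d ∨ v = c ∨ v = b ∨ v = a ∨ v ∈ J) → Ind H S := by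
        intro S hS
        refine hd5.mono fun v hv => ?_
        rw [mem_insert, mem_insert, mem_insert, mem_insert]
        exact hS v hv
      rw [mem_coe, mem_g4]
      refine ⟨⟨?_, ?_⟩, ?_⟩
      · intro i
        fin_cases i
        · exact mem_ext.2 ⟨hd4, hsub _ fun v hv => by rw [mem_insert] at hv; tauto⟩
        · exact mem_ext.2 ⟨hc3, hsub _ fun v hv => by rw [mem_insert] at hv; tauto⟩
        · exact mem_ext.2 ⟨hb2, hsub _ fun v hv => by rw [mem_insert] at hv; tauto⟩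
        · exact mem_ext.2 ⟨ha1, hsub _ fun v hv => by rw [mem_insert] at hv; tauto⟩
      · have hre : ∀ u w : V, u ≠ w → (u = d ∨ u = c ∨ u = b ∨ u = a) → (w = d ∨ w = c ∨ w = b ∨ w = a) →
            ¬ Re H J u w := by
          intro u w huw hu hw h
          rcases h with h | h
          · exact huw h
          · refine h (hsub _ fun v hv => ?_)
            rw [mem_insert, mem_insert] at hv
            rcases hv with rfl | rfl | hv
            · tauto
            · tauto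
            · tauto
        intro i j hij
        fin_cases i <;> fin_cases j <;>
          first
          | exact absurd hij (by decide)
          | exact hre _ _ (by assumption) (by simp) (by simp)
      · intro _
        exact hd5
    · rintro ⟨a, b, c, d⟩ _ ⟨a', b', c', d'⟩ _ h
      have h0 := congrFun h 0
      have h1 := congrFun h 1
      have h2 := congrFun h 2
      have h3 := congrFun h 3
      simp at h0 h1 h2 h3
      subst h0 h1 h2 h3
      rfl
  exact_mod_cast key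

/-- the average number of the tuples of length four -/
private theorem low5_base (H : Finset (Finset V)) (s : ℕ) {κ : ℝ} (hκ : 0 < κ)
    (hn : 0 < (Fintype.card V : ℝ)) (hav : ∀ j : ℕ, j < 4 → κ * (Fintype.card V : ℝ) ≤ Av H (s + j))
    (hN : 0 < NI H (s + 3)) :
    κ ^ 4 * (Fintype.card V : ℝ) ^ 4 * NI H s ≤ ∑ J ∈ ind H s, ((g4 H J 4).card : ℝ) := by
  obtain ⟨n, hnd⟩ : ∃ n : ℝ, n = (Fintype.card V : ℝ) := ⟨_, rfl⟩
  rw [← hnd] at hn hav ⊢
  have hpos : ∀ j : ℕ, j < 4 → 0 < Av H (s + j) := fun j hj => lt_of_lt_of_le (by positivity) (hav j hj)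
  have hNI : ∀ r : ℕ, 0 < Av H r → 0 < NI H r := by
    intro r hr
    rcases (NI_nonneg H r).lt_or_eq with h | h
    · exact h
    · exfalso
      unfold Av at hr
      rw [← h, div_zero] at hr
      exact lt_irrefl _ hr
  have h0 := hNI s (by simpa using hpos 0 (by norm_num))
  have h1 := hNI (s + 1) (hpos 1 (by norm_num))
  have h2 := hNI (s + 2) (hpos 2 (by norm_num))
  have e0 := Av_mul h0
  have e1 := Av_mul h1
  have e2 := Av_mul h2
  have e3 : Av H (s + 3) * NI H (s + 3) = ∑ S ∈ ind H (s + 3), ((ext H S).card : ℝ) := by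
    unfold Av
    rw [div_mul_cancel₀ _ hN.ne']
  have hsum : ∑ J ∈ ind H s, (∑ a ∈ ext H J, ∑ b ∈ ext H (insert a J), ∑ c ∈ ext H (insert b (insert a J)),
      ((ext H (insert c (insert b (insert a J)))).card : ℝ)) =
      Av H s * Av H (s + 1) * Av H (s + 2) * Av H (s + 3) * NI H s := by
    have r1 := re_sum H s (fun S => ∑ b ∈ ext H S, ∑ c ∈ ext H (insert b S),
      ((ext H (insert c (insert b S))).card : ℝ))
    have r2 := re_sum H (s + 1) (fun S => ∑ c ∈ ext H S, ((ext H (insert c S)).card : ℝ))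
    have r3 := re_sum H (s + 1 + 1) (fun S => ((ext H S).card : ℝ))
    rw [r1, r2, r3]
    have e3' : ∑ S ∈ ind H (s + 1 + 1 + 1), ((ext H S).card : ℝ) = Av H (s + 3) * NI H (s + 3) := e3.symm
    rw [e3']
    have e0' : ((s : ℝ) + 1) * NI H (s + 1) = Av H s * NI H s := e0.symm
    have e1' : (((s + 1 : ℕ) : ℝ) + 1) * NI H (s + 2) = Av H (s + 1) * NI H (s + 1) := e1.symm
    have e2' : (((s + 1 + 1 : ℕ) : ℝ) + 1) * NI H (s + 3) = Av H (s + 2) * NI H (s + 2) := e2.symm
    calc ((s : ℝ) + 1) * ((((s + 1 : ℕ) : ℝ) + 1) * ((((s + 1 + 1 : ℕ) : ℝ) + 1) *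
          (Av H (s + 3) * NI H (s + 3)))) =
        ((s : ℝ) + 1) * ((((s + 1 : ℕ) : ℝ) + 1) * (Av H (s + 3) * ((((s + 1 + 1 : ℕ) : ℝ) + 1) *
          NI H (s + 3)))) := by ring
      _ = Av H (s + 3) * Av H (s + 2) * (((s : ℝ) + 1) * ((((s + 1 : ℕ) : ℝ) + 1) * NI H (s + 2))) := by
          rw [e2']; ring
      _ = Av H (s + 3) * Av H (s + 2) * Av H (s + 1) * (((s : ℝ) + 1) * NI H (s + 1)) := by
          rw [e1']; ring
      _ = Av H s * Av H (s + 1) * Av H (s + 2) * Av H (s + 3) * NI H s := by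
          rw [e0']; ring
  refine le_trans ?_ (sum_le_sum fun J _ => low5_four H J)
  rw [hsum]
  refine mul_le_mul_of_nonneg_right ?_ h0.le
  have a0 : κ * n ≤ Av H s := by simpa using hav 0 (by norm_num)
  have a1 := hav 1 (by norm_num)
  have a2 := hav 2 (by norm_num)
  have a3 := hav 3 (by norm_num)
  have hkn : 0 ≤ κ * n := by positivity
  calc κ ^ 4 * n ^ 4 = κ * n * (κ * n) * (κ * n) * (κ * n) := by ring
    _ ≤ Av H s * Av H (s + 1) * Av H (s + 2) * Av H (s + 3) := by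
        refine mul_le_mul (mul_le_mul (mul_le_mul a0 a1 hkn (hkn.trans a0)) a2 hkn ?_) a3 hkn ?_
        · exact mul_nonneg (hkn.trans a0) (hkn.trans a1)
        · exact mul_nonneg (mul_nonneg (hkn.trans a0) (hkn.trans a1)) (hkn.trans a2)

/-- one greedy step for the sum over a level -/
private theorem low5_step (H : Finset (Finset V)) (s : ℕ) {m : ℕ} (hm : 4 ≤ m) {κ p σ : ℝ} (hκ : 0 < κ)
    (hn : 0 < (Fintype.card V : ℝ)) (hav : κ * (Fintype.card V : ℝ) ≤ Av H s) (hσ : 0 ≤ σ)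
    (hp0 : 0 ≤ p) (hp : κ ≤ 1 - (m : ℝ) * p)
    (hlev : ∑ J ∈ ind H s, |((ext H J).card : ℝ) - Av H s| ≤ σ * (Fintype.card V : ℝ) * NI H s)
    (hdev : ∑ J ∈ ind H s, ∑ x ∈ ext H J,
      |((nbl (ext H J) (Re H J) x).card : ℝ) - p * ((ext H J).card : ℝ)| ≤
        2 * σ * (Fintype.card V : ℝ) ^ 2 * NI H s) :
    κ ^ 2 * (Fintype.card V : ℝ) * (∑ J ∈ ind H s, ((g4 H J m).card : ℝ)) -
      (2 * (m : ℝ) + 1) * σ * (Fintype.card V : ℝ) ^ (m + 1) * NI H s ≤
      ∑ J ∈ ind H s, ((g4 H J (m + 1)).card : ℝ) := by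
  classical
  obtain ⟨n, hnd⟩ : ∃ n : ℝ, n = (Fintype.card V : ℝ) := ⟨_, rfl⟩
  rw [← hnd] at hn hav hlev hdev ⊢
  obtain ⟨r, rfl⟩ : ∃ r, m = r + 1 := ⟨m - 1, by omega⟩
  have hm0 : (0 : ℝ) ≤ ((r + 1 : ℕ) : ℝ) := Nat.cast_nonneg _
  have hd1 : (1 : ℝ) - ((r + 1 : ℕ) : ℝ) * p ≤ 1 := by
    have := mul_nonneg hm0 hp0
    linarith
  have hcard : ∀ J : Finset V, ((ext H J).card : ℝ) ≤ n := fun J => by
    rw [hnd]
    exact_mod_cast card_le_univ _
  have hg : ∀ J : Finset V, ((g4 H J (r + 1)).card : ℝ) ≤ n ^ (r + 1) := fun J => by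
    have h : (g4 H J (r + 1)).card ≤ (Fintype.card V) ^ (r + 1) := by
      have h1 := card_le_univ (g4 H J (r + 1))
      rwa [Fintype.card_fun, Fintype.card_fin] at h1
    rw [hnd]
    exact_mod_cast h
  have hone : ∀ J ∈ ind H s, κ ^ 2 * n * ((g4 H J (r + 1)).card : ℝ) -
      n ^ (r + 1) * |((ext H J).card : ℝ) - Av H s| - ((r + 1 : ℕ) : ℝ) * n ^ r *
        ∑ x ∈ ext H J, |((nbl (ext H J) (Re H J) x).card : ℝ) - p * ((ext H J).card : ℝ)| ≤
      ((g4 H J (r + 1 + 1)).card : ℝ) := by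
    intro J _
    refine le_trans ?_ (low5_local H J hm p)
    have hD0 : 0 ≤ ∑ x ∈ ext H J,
        |((nbl (ext H J) (Re H J) x).card : ℝ) - p * ((ext H J).card : ℝ)| :=
      sum_nonneg fun _ _ => abs_nonneg _
    have hd0 : (0 : ℝ) ≤ ((ext H J).card : ℝ) := Nat.cast_nonneg _
    have hg0 : (0 : ℝ) ≤ ((g4 H J (r + 1)).card : ℝ) := Nat.cast_nonneg _
    have h5 : r + 1 - 1 = r := by omega
    rw [h5]
    have h6 : ((r + 1 : ℕ) : ℝ) * ((ext H J).card : ℝ) ^ r *
        ∑ x ∈ ext H J, |((nbl (ext H J) (Re H J) x).card : ℝ) - p * ((ext H J).card : ℝ)| ≤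
        ((r + 1 : ℕ) : ℝ) * n ^ r *
        ∑ x ∈ ext H J, |((nbl (ext H J) (Re H J) x).card : ℝ) - p * ((ext H J).card : ℝ)| :=
      mul_le_mul_of_nonneg_right (mul_le_mul_of_nonneg_left
        (pow_le_pow_left₀ hd0 (hcard J) r) hm0) hD0
    have h7 : κ * n - |((ext H J).card : ℝ) - Av H s| ≤ ((ext H J).card : ℝ) := by
      have := neg_abs_le (((ext H J).card : ℝ) - Av H s)
      linarith
    have h8 : (1 - ((r + 1 : ℕ) : ℝ) * p) * (κ * n - |((ext H J).card : ℝ) - Av H s|) ≤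
        (1 - ((r + 1 : ℕ) : ℝ) * p) * ((ext H J).card : ℝ) :=
      mul_le_mul_of_nonneg_left h7 (hκ.le.trans hp)
    have h9 : κ * (κ * n) ≤ (1 - ((r + 1 : ℕ) : ℝ) * p) * (κ * n) :=
      mul_le_mul_of_nonneg_right hp (by positivity)
    have h10 : (1 - ((r + 1 : ℕ) : ℝ) * p) * |((ext H J).card : ℝ) - Av H s| ≤
        |((ext H J).card : ℝ) - Av H s| := mul_le_of_le_one_left (abs_nonneg _) hd1
    have h11 : κ ^ 2 * n - |((ext H J).card : ℝ) - Av H s| ≤
        (1 - ((r + 1 : ℕ) : ℝ) * p) * ((ext H J).card : ℝ) := by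
      have : (1 - ((r + 1 : ℕ) : ℝ) * p) * (κ * n - |((ext H J).card : ℝ) - Av H s|) =
        (1 - ((r + 1 : ℕ) : ℝ) * p) * (κ * n) - (1 - ((r + 1 : ℕ) : ℝ) * p) *
          |((ext H J).card : ℝ) - Av H s| := by ring
      nlinarith [h8, h9, h10, this]
    have h12 : (κ ^ 2 * n - |((ext H J).card : ℝ) - Av H s|) * ((g4 H J (r + 1)).card : ℝ) ≤
        (1 - ((r + 1 : ℕ) : ℝ) * p) * ((ext H J).card : ℝ) * ((g4 H J (r + 1)).card : ℝ) :=
      mul_le_mul_of_nonneg_right h11 hg0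
    have h13 : |((ext H J).card : ℝ) - Av H s| * ((g4 H J (r + 1)).card : ℝ) ≤
        |((ext H J).card : ℝ) - Av H s| * n ^ (r + 1) :=
      mul_le_mul_of_nonneg_left (hg J) (abs_nonneg _)
    have h14 : (κ ^ 2 * n - |((ext H J).card : ℝ) - Av H s|) * ((g4 H J (r + 1)).card : ℝ) =
        κ ^ 2 * n * ((g4 H J (r + 1)).card : ℝ) -
          |((ext H J).card : ℝ) - Av H s| * ((g4 H J (r + 1)).card : ℝ) := by ring
    have h15 : n ^ (r + 1) * |((ext H J).card : ℝ) - Av H s| =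
        |((ext H J).card : ℝ) - Av H s| * n ^ (r + 1) := by ring
    linarith
  have hall := sum_le_sum hone
  rw [sum_sub_distrib, sum_sub_distrib, ← mul_sum, ← mul_sum, ← mul_sum] at hall
  refine le_trans ?_ hall
  have k1 : n ^ (r + 1) * ∑ J ∈ ind H s, |((ext H J).card : ℝ) - Av H s| ≤
      n ^ (r + 1) * (σ * n * NI H s) := mul_le_mul_of_nonneg_left hlev (by positivity)
  have k2 : ((r + 1 : ℕ) : ℝ) * n ^ r * ∑ J ∈ ind H s, ∑ x ∈ ext H J,
      |((nbl (ext H J) (Re H J) x).card : ℝ) - p * ((ext H J).card : ℝ)| ≤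
      ((r + 1 : ℕ) : ℝ) * n ^ r * (2 * σ * n ^ 2 * NI H s) :=
    mul_le_mul_of_nonneg_left hdev (by positivity)
  have k3 : (2 * ((r + 1 : ℕ) : ℝ) + 1) * σ * n ^ (r + 1 + 1) * NI H s =
      n ^ (r + 1) * (σ * n * NI H s) + ((r + 1 : ℕ) : ℝ) * n ^ r * (2 * σ * n ^ 2 * NI H s) := by
    ring
  linarith

/-- **The lower bound.** -/
theorem low5 (t : ℕ) (κ : ℝ) (hκ : 0 < κ) :
    ∃ c0 e0 : ℝ, 0 < c0 ∧ 0 < e0 ∧ ∀ (V : Type) [Fintype V] [DecidableEq V] (H : Finset (Finset V))
      (s : ℕ) (e p : ℝ), 0 ≤ e → e ≤ e0 → 0 < (Fintype.card V : ℝ) →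
      (∀ j : ℕ, j < 4 → κ * (Fintype.card V : ℝ) ≤ Av H (s + j)) → 0 < NI H (s + 3) →
      0 ≤ p → κ ≤ 1 - ((t : ℝ) + 3) * p →
      (∑ J ∈ ind H s, |((ext H J).card : ℝ) - Av H s| ≤ √e * (Fintype.card V : ℝ) * NI H s) →
      (∑ J ∈ ind H s, ∑ x ∈ ext H J,
        |((nbl (ext H J) (Re H J) x).card : ℝ) - p * ((ext H J).card : ℝ)| ≤
          2 * √e * (Fintype.card V : ℝ) ^ 2 * NI H s) →
      c0 * (Fintype.card V : ℝ) ^ (t + 4) * NI H s ≤ ∑ J ∈ ind H s, ((F4 H J t).card : ℝ) := by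
  obtain ⟨c, hc⟩ : ∃ c : ℝ, c = κ ^ (2 * (t + 4)) / 2 := ⟨_, rfl⟩
  have hc0 : 0 < c := by rw [hc]; positivity
  refine ⟨c, (c / ((t : ℝ) + 4) ^ 2) ^ 2, hc0, by positivity, ?_⟩
  intro V _ _ H s e p he0 he hn hav hN hp0 hp hlev hdev
  obtain ⟨n, hnd⟩ : ∃ n : ℝ, n = (Fintype.card V : ℝ) := ⟨_, rfl⟩
  obtain ⟨σ, hσd⟩ : ∃ σ : ℝ, σ = √e := ⟨_, rfl⟩
  have hσ0 : 0 ≤ σ := by rw [hσd]; exact Real.sqrt_nonneg e
  have hσ1 : σ * ((t : ℝ) + 4) ^ 2 ≤ c := by
    have h1 : √e ≤ c / ((t : ℝ) + 4) ^ 2 := Real.sqrt_le_iff.2 ⟨by positivity, he⟩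
    rw [← hσd, le_div_iff₀ (by positivity)] at h1
    exact h1
  rw [← hσd] at hlev hdev
  have hκ1 : κ ≤ 1 := by
    have : 0 ≤ ((t : ℝ) + 3) * p := by positivity
    linarith
  have hNs : 0 ≤ NI H s := NI_nonneg H s
  have hind : ∀ i : ℕ, i ≤ t → (κ ^ (2 * (i + 4)) - ((i : ℝ) + 4) ^ 2 * σ) * n ^ (i + 4) * NI H s ≤
      ∑ J ∈ ind H s, ((g4 H J (i + 4)).card : ℝ) := by
    intro i
    induction i with
    | zero =>
      intro _
      refine le_trans ?_ (low5_base H s hκ hn hav hN)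
      rw [← hnd]
      refine mul_le_mul_of_nonneg_right ?_ hNs
      have hn4 : 0 ≤ n ^ 4 := by positivity
      have h1 : κ ^ (2 * (0 + 4)) - (((0 : ℕ) : ℝ) + 4) ^ 2 * σ ≤ κ ^ 4 := by
        have h2 : κ ^ (2 * (0 + 4)) ≤ κ ^ 4 := pow_le_pow_of_le_one hκ.le hκ1 (by norm_num)
        have h3 : 0 ≤ (((0 : ℕ) : ℝ) + 4) ^ 2 * σ := by positivity
        linarith
      have h4 := mul_le_mul_of_nonneg_right h1 hn4
      simpa using h4
    | succ i ih =>
      intro hi
      have hi' := ih (by omega)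
      have hit : (i : ℝ) + 1 ≤ (t : ℝ) := by exact_mod_cast hi
      have hp' : κ ≤ 1 - ((i + 4 : ℕ) : ℝ) * p := by
        have h1 : ((i + 4 : ℕ) : ℝ) * p ≤ ((t : ℝ) + 3) * p := by
          refine mul_le_mul_of_nonneg_right ?_ hp0
          push_cast
          linarith
        linarith
      have hst := low5_step H s (m := i + 4) (by omega) hκ hn (by simpa using hav 0 (by norm_num)) hσ0 hp0
        hp' hlev hdev
      rw [← hnd] at hst hn
      have hid : i + 1 + 4 = i + 4 + 1 := by omega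
      rw [hid]
      refine le_trans ?_ hst
      have h5 := mul_le_mul_of_nonneg_left hi' (by positivity : 0 ≤ κ ^ 2 * n)
      have h6 : κ ^ 2 * n * ((κ ^ (2 * (i + 4)) - ((i : ℝ) + 4) ^ 2 * σ) * n ^ (i + 4) * NI H s) =
          κ ^ (2 * (i + 4 + 1)) * n ^ (i + 4 + 1) * NI H s -
            κ ^ 2 * (((i : ℝ) + 4) ^ 2 * σ * n ^ (i + 4 + 1) * NI H s) := by ring
      have h7 : 0 ≤ ((i : ℝ) + 4) ^ 2 * σ * n ^ (i + 4 + 1) * NI H s := by positivity
      have h8 : κ ^ 2 * (((i : ℝ) + 4) ^ 2 * σ * n ^ (i + 4 + 1) * NI H s) ≤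
          ((i : ℝ) + 4) ^ 2 * σ * n ^ (i + 4 + 1) * NI H s :=
        mul_le_of_le_one_left h7 (pow_le_one₀ hκ.le hκ1)
      have h9 : (κ ^ (2 * (i + 4 + 1)) - (((i + 1 : ℕ) : ℝ) + 4) ^ 2 * σ) * n ^ (i + 4 + 1) * NI H s =
          κ ^ (2 * (i + 4 + 1)) * n ^ (i + 4 + 1) * NI H s -
            ((i : ℝ) + 4) ^ 2 * σ * n ^ (i + 4 + 1) * NI H s -
            (2 * ((i + 4 : ℕ) : ℝ) + 1) * σ * n ^ (i + 4 + 1) * NI H s := by
        push_cast
        ring
      linarith
  have hfin := hind t le_rfl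
  have hF : ∑ J ∈ ind H s, ((F4 H J t).card : ℝ) = ∑ J ∈ ind H s, ((g4 H J (t + 4)).card : ℝ) :=
    sum_congr rfl fun J _ => by rw [F4_eq]
  rw [hF, ← hnd]
  refine le_trans ?_ hfin
  rw [← hnd] at hn
  refine mul_le_mul_of_nonneg_right (mul_le_mul_of_nonneg_right ?_ (by positivity)) hNs
  have h1 : κ ^ (2 * (t + 4)) = 2 * c := by rw [hc]; ring
  rw [h1]
  nlinarith [hσ1]

end Pool.Agent.DCP5
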