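import Pool.Agent.DCS.Ari

/-!
# DCP5-Num5: the numbers near an integer `q`

For `m / (m - k)` close to `q` and `k` large, `be k m (m - 1 - i)` is close to `q ^ (-i)`.
-/

namespace Pool.Agent.DCP5

open Pool.Agent.DCS Filter Topology

private theorem num5_ev {X : Type} [TopologicalSpace X] {g : X → ℝ} {p : X} {c : ℝ}
    (hg : ContinuousAt g p) (h : c < g p) : ∀ᶠ a in 𝓝 p, c ≤ g a :=
  (hg.eventually (lt_mem_nhds h)).mono fun _ => le_of_lt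

/-- the limit values -/
private theorem num5_lim {Q : ℝ} (hQ : 2 ≤ Q) :
    (1 / (2 * Q ^ 4) < 1 - Q⁻¹) ∧ (1 / (2 * Q ^ 4) < 1 - Q⁻¹ * Q⁻¹) ∧
    (1 / (2 * Q ^ 4) < 1 - Q⁻¹ * Q⁻¹ * Q⁻¹) ∧ (1 / (2 * Q ^ 4) < 1 - Q⁻¹ * Q⁻¹ * Q⁻¹ * Q⁻¹) ∧
    (1 / (2 * Q ^ 4) < Q⁻¹ * Q⁻¹ * Q⁻¹ - Q⁻¹ * Q⁻¹ * Q⁻¹ * Q⁻¹) ∧
    (1 / (2 * Q ^ 4) < Q⁻¹ - Q⁻¹ * Q⁻¹) ∧
    (1 / (2 * Q ^ 4) < 1 - (Q ^ 3 + Q ^ 2 + Q) *
      (1 - (1 - Q⁻¹ * Q⁻¹ * Q⁻¹) / (1 - Q⁻¹ * Q⁻¹ * Q⁻¹ * Q⁻¹))) ∧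
    (1 / (2 * Q ^ 4) < (Q + 2) * (1 - (1 - Q⁻¹) / (1 - Q⁻¹ * Q⁻¹)) - 1) := by
  have hQ0 : 0 < Q := by linarith
  have hQ4 : (16 : ℝ) ≤ Q ^ 4 := by
    have h1 : (4 : ℝ) ≤ Q ^ 2 := by nlinarith
    nlinarith
  have hc : 1 / (2 * Q ^ 4) ≤ 1 / 32 := by
    apply one_div_le_one_div_of_le (by norm_num)
    linarith
  have hy : Q⁻¹ ≤ 1 / 2 := by
    rw [inv_eq_one_div]
    exact one_div_le_one_div_of_le (by norm_num) hQ
  have hy0 : 0 < Q⁻¹ := inv_pos.2 hQ0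
  obtain ⟨y, hyd⟩ : ∃ y, y = Q⁻¹ := ⟨_, rfl⟩
  have hQy : Q * y = 1 := by rw [hyd]; exact mul_inv_cancel₀ hQ0.ne'
  have hQi : 1 / (2 * Q ^ 4) = y * y * y * y / 2 := by
    rw [hyd]
    field_simp
  rw [hQi] at hc ⊢
  rw [← hyd] at hy hy0 ⊢
  have h2 : y * y ≤ y := by nlinarith
  have h3 : y * y * y ≤ y := by nlinarith [mul_nonneg hy0.le hy0.le]
  have h4 : y * y * y * y ≤ y * y * y / 2 := by
    have : 0 < y * y * y := by positivity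
    nlinarith
  have h4' : 0 < y * y * y * y := by positivity
  have h3' : 0 < y * y * y := by positivity
  have h2' : 0 < y * y := by positivity
  have hd4 : (1 - y * y * y) / (1 - y * y * y * y) =
      1 - 1 / (Q ^ 3 + Q ^ 2 + Q + 1) := by
    have e1 : 1 - y * y * y * y ≠ 0 := by
      have : 0 < 1 - y * y * y * y := by linarith
      exact this.ne'
    have e2 : Q ^ 3 + Q ^ 2 + Q + 1 ≠ 0 := by positivity
    rw [div_eq_iff e1, eq_comm, ← sub_eq_zero]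
    have e3 : (1 - 1 / (Q ^ 3 + Q ^ 2 + Q + 1)) * (1 - y * y * y * y) - (1 - y * y * y) =
        ((y * y * y - y * y * y * y) * (Q ^ 3 + Q ^ 2 + Q + 1) - (1 - y * y * y * y)) /
          (Q ^ 3 + Q ^ 2 + Q + 1) := by
      field_simp
      ring
    rw [e3]
    have e4 : (y * y * y - y * y * y * y) * (Q ^ 3 + Q ^ 2 + Q + 1) - (1 - y * y * y * y) = 0 := by
      have f1 : y ^ 3 * Q ^ 3 = 1 := by rw [← mul_pow, mul_comm, hQy, one_pow]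
      have f2 : y ^ 2 * Q ^ 2 = 1 := by rw [← mul_pow, mul_comm, hQy, one_pow]
      have f3 : y * Q = 1 := by rw [mul_comm, hQy]
      have f4 : (y * y * y - y * y * y * y) * (Q ^ 3 + Q ^ 2 + Q + 1) =
          (1 - y) * (y ^ 3 * Q ^ 3 + y * (y ^ 2 * Q ^ 2) + y ^ 2 * (y * Q) + y ^ 3) := by ring
      rw [f4, f1, f2, f3]
      ring
    rw [e4, zero_div]
  have hd2 : (1 - y) / (1 - y * y) = 1 - 1 / (Q + 1) := by
    have e1 : 1 - y * y ≠ 0 := by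
      have : 0 < 1 - y * y := by linarith
      exact this.ne'
    have e2 : Q + 1 ≠ 0 := by positivity
    rw [div_eq_iff e1, eq_comm, ← sub_eq_zero]
    have e3 : (1 - 1 / (Q + 1)) * (1 - y * y) - (1 - y) =
        ((y - y * y) * (Q + 1) - (1 - y * y)) / (Q + 1) := by
      field_simp
      ring
    rw [e3]
    have e4 : (y - y * y) * (Q + 1) - (1 - y * y) = 0 := by
      have f3 : y * Q = 1 := by rw [mul_comm, hQy]
      have f4 : (y - y * y) * (Q + 1) = (1 - y) * (y * Q + y) := by ring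
      rw [f4, f3]
      ring
    rw [e4, zero_div]
  have hN : 0 < Q ^ 3 + Q ^ 2 + Q + 1 := by positivity
  have hNle : Q ^ 3 + Q ^ 2 + Q + 1 ≤ Q ^ 4 := by
    have e1 : Q ^ 4 - (Q ^ 3 + Q ^ 2 + Q + 1) = Q ^ 3 * (Q - 2) + (Q ^ 2) * (Q - 2) +
        Q * (Q - 2) + (Q - 2) + 1 := by ring
    have e2 : 0 ≤ Q - 2 := by linarith
    have e3 : 0 ≤ Q ^ 3 * (Q - 2) + (Q ^ 2) * (Q - 2) + Q * (Q - 2) + (Q - 2) + 1 := by positivity
    linarith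
  have hy4 : y * y * y * y = 1 / Q ^ 4 := by
    rw [hyd]
    field_simp
  refine ⟨by linarith, by linarith, by linarith, by linarith, by linarith, ?_, ?_, ?_⟩
  · have : y * y ≤ y / 2 := by nlinarith
    nlinarith
  · rw [hd4]
    have e1 : 1 - (Q ^ 3 + Q ^ 2 + Q) * (1 - (1 - 1 / (Q ^ 3 + Q ^ 2 + Q + 1))) =
        1 / (Q ^ 3 + Q ^ 2 + Q + 1) := by
      field_simp
      ring
    rw [e1]
    have e2 : 1 / Q ^ 4 ≤ 1 / (Q ^ 3 + Q ^ 2 + Q + 1) := one_div_le_one_div_of_le hN hNle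
    linarith
  · rw [hd2]
    have e1 : (Q + 2) * (1 - (1 - 1 / (Q + 1))) - 1 = 1 / (Q + 1) := by
      have : Q + 1 ≠ 0 := by positivity
      field_simp
      ring
    rw [e1]
    have e2 : 1 / Q ^ 4 ≤ 1 / (Q + 1) := by
      apply one_div_le_one_div_of_le (by positivity)
      have : 0 ≤ Q ^ 3 + Q ^ 2 := by positivity
      linarith
    linarith

/-- continuity -/
private theorem num5_nhd (q : ℕ) (hq : 2 ≤ q) : ∃ κ : ℝ, 0 < κ ∧ ∃ η : ℝ, 0 < η ∧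
    ∀ a0 a1 a2 a3 : ℝ, |a0 - (q : ℝ)⁻¹| < η → |a1 - (q : ℝ)⁻¹| < η → |a2 - (q : ℝ)⁻¹| < η →
      |a3 - (q : ℝ)⁻¹| < η →
    (2 * κ ≤ 1 - a0) ∧ (2 * κ ≤ 1 - a0 * a1) ∧
    (2 * κ ≤ 1 - a0 * a1 * a2) ∧ (2 * κ ≤ 1 - a0 * a1 * a2 * a3) ∧
    (2 * κ ≤ a0 * a1 * a2 - a0 * a1 * a2 * a3) ∧
    (2 * κ ≤ a0 - a0 * a1) ∧
    (2 * κ ≤ 1 - ((q : ℝ) ^ 3 + (q : ℝ) ^ 2 + (q : ℝ)) *
      (1 - (1 - a0 * a1 * a2) / (1 - a0 * a1 * a2 * a3))) ∧
    (2 * κ ≤ ((q : ℝ) + 2) * (1 - (1 - a0) / (1 - a0 * a1)) - 1) := by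
  have hQ : (2 : ℝ) ≤ (q : ℝ) := by exact_mod_cast hq
  obtain ⟨Q, hQd⟩ : ∃ Q : ℝ, Q = (q : ℝ) := ⟨_, rfl⟩
  rw [← hQd] at hQ ⊢
  have hQ0 : 0 < Q := by linarith
  obtain ⟨l1, l2, l3, l4, l5, l6, l7, l8⟩ := num5_lim hQ
  have hκ : 2 * (1 / (4 * Q ^ 4)) = 1 / (2 * Q ^ 4) := by
    field_simp
    ring
  have hp4 : 0 < 1 / (2 * Q ^ 4) := by positivity
  refine ⟨1 / (4 * Q ^ 4), by positivity, ?_⟩
  rw [hκ]
  obtain ⟨p, hp⟩ : ∃ p : ℝ × ℝ × ℝ × ℝ, p = (Q⁻¹, Q⁻¹, Q⁻¹, Q⁻¹) := ⟨_, rfl⟩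
  have c0 : Continuous fun a : ℝ × ℝ × ℝ × ℝ => a.1 := continuous_fst
  have c1 : Continuous fun a : ℝ × ℝ × ℝ × ℝ => a.2.1 := continuous_fst.comp continuous_snd
  have c2 : Continuous fun a : ℝ × ℝ × ℝ × ℝ => a.2.2.1 :=
    continuous_fst.comp (continuous_snd.comp continuous_snd)
  have c3 : Continuous fun a : ℝ × ℝ × ℝ × ℝ => a.2.2.2 :=
    continuous_snd.comp (continuous_snd.comp continuous_snd)
  have n2 : (1 : ℝ) - p.1 * p.2.1 ≠ 0 := by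
    rw [hp]
    exact (hp4.trans l2).ne'
  have n4 : (1 : ℝ) - p.1 * p.2.1 * p.2.2.1 * p.2.2.2 ≠ 0 := by
    rw [hp]
    exact (hp4.trans l4).ne'
  have b2 : Continuous fun a : ℝ × ℝ × ℝ × ℝ => a.1 * a.2.1 := c0.mul c1
  have b3 : Continuous fun a : ℝ × ℝ × ℝ × ℝ => a.1 * a.2.1 * a.2.2.1 := b2.mul c2
  have b4 : Continuous fun a : ℝ × ℝ × ℝ × ℝ => a.1 * a.2.1 * a.2.2.1 * a.2.2.2 := b3.mul c3
  have e1 := num5_ev (p := p) (c := 1 / (2 * Q ^ 4)) (g := fun a => 1 - a.1)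
    ((continuous_const.sub c0).continuousAt) (by rw [hp]; exact l1)
  have e2 := num5_ev (p := p) (c := 1 / (2 * Q ^ 4)) (g := fun a => 1 - a.1 * a.2.1)
    ((continuous_const.sub b2).continuousAt) (by rw [hp]; exact l2)
  have e3 := num5_ev (p := p) (c := 1 / (2 * Q ^ 4)) (g := fun a => 1 - a.1 * a.2.1 * a.2.2.1)
    ((continuous_const.sub b3).continuousAt) (by rw [hp]; exact l3)
  have e4 := num5_ev (p := p) (c := 1 / (2 * Q ^ 4))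
    (g := fun a => 1 - a.1 * a.2.1 * a.2.2.1 * a.2.2.2)
    ((continuous_const.sub b4).continuousAt) (by rw [hp]; exact l4)
  have e5 := num5_ev (p := p) (c := 1 / (2 * Q ^ 4))
    (g := fun a => a.1 * a.2.1 * a.2.2.1 - a.1 * a.2.1 * a.2.2.1 * a.2.2.2)
    ((b3.sub b4).continuousAt) (by rw [hp]; exact l5)
  have e6 := num5_ev (p := p) (c := 1 / (2 * Q ^ 4)) (g := fun a => a.1 - a.1 * a.2.1)
    ((c0.sub b2).continuousAt) (by rw [hp]; exact l6)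
  have e7 := num5_ev (p := p) (c := 1 / (2 * Q ^ 4))
    (g := fun a => 1 - (Q ^ 3 + Q ^ 2 + Q) *
      (1 - (1 - a.1 * a.2.1 * a.2.2.1) / (1 - a.1 * a.2.1 * a.2.2.1 * a.2.2.2)))
    (continuousAt_const.sub (continuousAt_const.mul (continuousAt_const.sub
      ((continuous_const.sub b3).continuousAt.div (continuous_const.sub b4).continuousAt n4))))
    (by rw [hp]; exact l7)
  have e8 := num5_ev (p := p) (c := 1 / (2 * Q ^ 4))
    (g := fun a => (Q + 2) * (1 - (1 - a.1) / (1 - a.1 * a.2.1)) - 1)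
    ((continuousAt_const.mul (continuousAt_const.sub
      ((continuous_const.sub c0).continuousAt.div (continuous_const.sub b2).continuousAt
        n2))).sub continuousAt_const)
    (by rw [hp]; exact l8)
  obtain ⟨η, hη, h⟩ := Metric.eventually_nhds_iff.1
    (e1.and (e2.and (e3.and (e4.and (e5.and (e6.and (e7.and e8)))))))
  refine ⟨η, hη, fun a0 a1 a2 a3 h0 h1 h2 h3 => ?_⟩
  exact h (y := (a0, a1, a2, a3)) (by
    rw [hp]
    simp only [Prod.dist_eq, Real.dist_eq, max_lt_iff]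
    exact ⟨h0, h1, h2, h3⟩)

/-- the factors are close to `1 / q` -/
private theorem num5_frac {M D t : ℝ} (hM : 4 < M) (hD : 0 ≤ D) (hDM : D ≤ M) (ht : 0 ≤ t)
    (ht3 : t ≤ 3) : |(D - t) / (M - 1 - t) - D / M| ≤ 7 / (M - 4) := by
  have h1 : 0 < M - 1 - t := by linarith
  have h2 : 0 < M := by linarith
  have h3 : (D - t) / (M - 1 - t) - D / M = (D * (1 + t) - t * M) / (M * (M - 1 - t)) := by
    field_simp
    ring
  rw [h3, abs_div, abs_of_pos (mul_pos h2 h1), div_le_div_iff₀ (mul_pos h2 h1) (by linarith)]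
  have h4 : |D * (1 + t) - t * M| ≤ 7 * M := by
    rw [abs_le]
    constructor
    · nlinarith [mul_nonneg hD (by linarith : 0 ≤ 1 + t)]
    · nlinarith [mul_nonneg ht h2.le, mul_le_mul hDM (by linarith : 1 + t ≤ 4) (by linarith) h2.le]
  calc |D * (1 + t) - t * M| * (M - 4) ≤ (7 * M) * (M - 1 - t) := by
        apply mul_le_mul h4 (by linarith) (by linarith) (by positivity)
    _ = 7 * (M * (M - 1 - t)) := by ring

theorem num5 (ε : ℝ) (hε : 0 < ε) (q : ℕ) (hq : 2 ≤ q) :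
    ∃ δ : ℝ, 0 < δ ∧ ∃ κ : ℝ, 0 < κ ∧ ∃ k0 : ℕ, ∀ k m : ℕ, k0 ≤ k →
      (1 + ε) * (k : ℝ) ≤ (m : ℝ) → |(m : ℝ) / ((m : ℝ) - (k : ℝ)) - (q : ℝ)| ≤ δ →
      ∀ s : ℕ, s + 5 = m →
      (∀ j < 4, 2 * κ ≤ 1 - be k m (s + j)) ∧
      2 * κ ≤ be k m (s + 1) - be k m s ∧ 2 * κ ≤ be k m (s + 3) - be k m (s + 2) ∧
      2 * κ ≤ 1 - ((q : ℝ) ^ 3 + (q : ℝ) ^ 2 + (q : ℝ)) *
        (1 - (1 - be k m (s + 1)) / (1 - be k m s)) ∧
      2 * κ ≤ ((q : ℝ) + 2) * (1 - (1 - be k m (s + 3)) / (1 - be k m (s + 2))) - 1 := by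
  obtain ⟨κ, hκ, η, hη, h⟩ := num5_nhd q hq
  have hQ : (2 : ℝ) ≤ (q : ℝ) := by exact_mod_cast hq
  refine ⟨η / 4, by positivity, κ, hκ, max (⌈3 / ε⌉₊) (⌈5 + 28 / η⌉₊), ?_⟩
  rintro k m hk hkm hx s rfl
  have hk1 : 3 / ε ≤ (k : ℝ) := (Nat.le_ceil _).trans (by
    exact_mod_cast (le_max_left _ _).trans hk)
  have hk2 : 5 + 28 / η ≤ (k : ℝ) := (Nat.le_ceil _).trans (by
    exact_mod_cast (le_max_right _ _).trans hk)
  have h28 : 0 < 28 / η := by positivity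
  rw [div_le_iff₀ hε] at hk1
  have hkm3R : (k : ℝ) + 3 ≤ ((s + 5 : ℕ) : ℝ) := by linarith
  have hkm3 : k + 3 ≤ s + 5 := by exact_mod_cast hkm3R
  have hk0R : (0 : ℝ) < (k : ℝ) := by linarith
  have hk0 : 1 ≤ k := by exact_mod_cast hk0R
  push_cast at hkm hx hkm3R
  obtain ⟨M, hM⟩ : ∃ M : ℝ, M = (s : ℝ) + 5 := ⟨_, rfl⟩
  obtain ⟨D, hD⟩ : ∃ D : ℝ, D = M - (k : ℝ) := ⟨_, rfl⟩
  rw [← hM] at hkm hx hkm3R
  rw [← hD] at hx
  have hD3 : 3 ≤ D := by rw [hD]; linarith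
  have hDM : D ≤ M := by rw [hD]; linarith
  have hM5 : 5 + 28 / η ≤ M := by linarith
  have hM0 : 0 < M := by linarith
  -- D / M is close to 1 / q
  have hmain : |D / M - (q : ℝ)⁻¹| ≤ η / 4 := by
    have e1 : D / M - (q : ℝ)⁻¹ = -(M / D - q) * (D / M * (q : ℝ)⁻¹) := by
      have hD0 : D ≠ 0 := by linarith
      have hq0 : (q : ℝ) ≠ 0 := by linarith
      field_simp
      ring
    rw [e1, abs_mul, abs_neg]
    have e2 : |D / M * (q : ℝ)⁻¹| ≤ 1 := by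
      have f1 : 0 ≤ D / M := by positivity
      have f2 : D / M ≤ 1 := by rw [div_le_one hM0]; exact hDM
      have f3 : 0 ≤ (q : ℝ)⁻¹ := by positivity
      have f4 : (q : ℝ)⁻¹ ≤ 1 := inv_le_one_of_one_le₀ (by linarith)
      rw [abs_of_nonneg (mul_nonneg f1 f3)]
      exact mul_le_one₀ f2 f3 f4
    calc |M / D - (q : ℝ)| * |D / M * (q : ℝ)⁻¹| ≤ (η / 4) * 1 :=
          mul_le_mul hx e2 (abs_nonneg _) (by positivity)
      _ = η / 4 := mul_one _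
  have h7 : 7 / (M - 4) ≤ η / 4 := by
    rw [div_le_div_iff₀ (by linarith) (by norm_num)]
    have e1 : 28 / η ≤ M - 4 := by linarith
    rw [div_le_iff₀ hη] at e1
    linarith
  have hf : ∀ t : ℝ, 0 ≤ t → t ≤ 3 → |(D - t) / (M - 1 - t) - (q : ℝ)⁻¹| < η := by
    intro t ht ht3
    have e1 := num5_frac (M := M) (D := D) (t := t) (by linarith) (by linarith) hDM ht ht3
    calc |(D - t) / (M - 1 - t) - (q : ℝ)⁻¹|
        ≤ |(D - t) / (M - 1 - t) - D / M| + |D / M - (q : ℝ)⁻¹| := abs_sub_le _ _ _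
      _ ≤ η / 4 + η / 4 := add_le_add (e1.trans h7) hmain
      _ < η := by linarith
  have hb4 : be k (s + 5) (s + 4) = 1 := be_top (k := k) (m := s + 5) (by omega) (by omega)
  have hb3 : be k (s + 5) (s + 3) = (D - 0) / (M - 1 - 0) := by
    rw [be_step (k := k) (m := s + 5) (j := s + 3) hk0 (by omega), hb4, one_mul, hD, hM]
    push_cast
    congr 1 <;> ring
  have hb2 : be k (s + 5) (s + 2) = be k (s + 5) (s + 3) * ((D - 1) / (M - 1 - 1)) := by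
    rw [be_step (k := k) (m := s + 5) (j := s + 2) hk0 (by omega), hD, hM]
    push_cast
    congr 2 <;> ring
  have hb1 : be k (s + 5) (s + 1) = be k (s + 5) (s + 2) * ((D - 2) / (M - 1 - 2)) := by
    rw [be_step (k := k) (m := s + 5) (j := s + 1) hk0 (by omega), hD, hM]
    push_cast
    congr 2 <;> ring
  have hb0 : be k (s + 5) s = be k (s + 5) (s + 1) * ((D - 3) / (M - 1 - 3)) := by
    rw [be_step (k := k) (m := s + 5) (j := s) hk0 (by omega), hD, hM]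
    congr 2 <;> ring
  rw [hb3] at hb2
  rw [hb2] at hb1
  rw [hb1] at hb0
  obtain ⟨g1, g2, g3, g4, g5, g6, g7, g8⟩ := h _ _ _ _ (hf 0 le_rfl (by norm_num))
    (hf 1 (by norm_num) (by norm_num)) (hf 2 (by norm_num) (by norm_num))
    (hf 3 (by norm_num) le_rfl)
  rw [← hb0, ← hb1, ← hb2, ← hb3] at *
  refine ⟨?_, g5, g6, g7, g8⟩
  intro j hj
  interval_cases j
  · exact g4
  · exact g3
  · exact g2
  · exact g1

/-- the form used in Lev5 -/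
theorem num5' (ε : ℝ) (hε : 0 < ε) (q : ℕ) (hq : 2 ≤ q) :
    ∃ δ κ : ℝ, 0 < δ ∧ 0 < κ ∧ ∃ k0 : ℕ, ∀ k m : ℕ, k0 ≤ k → (1 + ε) * (k : ℝ) ≤ m →
      |(m : ℝ) / ((m : ℝ) - (k : ℝ)) - (q : ℝ)| ≤ δ → ∀ s : ℕ, s + 5 = m →
      (∀ j : ℕ, j < 4 → 2 * κ ≤ 1 - be k m (s + j)) ∧
      2 * κ ≤ be k m (s + 1) - be k m s ∧ 2 * κ ≤ be k m (s + 3) - be k m (s + 2) ∧
      2 * κ ≤ 1 - ((q : ℝ) ^ 3 + (q : ℝ) ^ 2 + (q : ℝ)) *
        (1 - (1 - be k m (s + 1)) / (1 - be k m s)) ∧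
      2 * κ ≤ ((q : ℝ) + 2) * (1 - (1 - be k m (s + 3)) / (1 - be k m (s + 2))) - 1 := by
  obtain ⟨δ, hδ, κ, hκ, k0, h⟩ := num5 ε hε q hq
  exact ⟨δ, κ, hδ, hκ, k0, h⟩

end Pool.Agent.DCP5
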