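import Pool.Agent.DCP5.Artin

/-!
# The affine part of a plane in a projective space has a prime power number of points

`H`, `K` are two planes of a projective space of dimension three. The composition of two perspectivities `H → K → H`
is a translation of `H \ K`; by Desargues (in space) these translations are transitive.
-/

namespace Pool.Agent.DCP5.H67

/-- a projective space (lines `ln x y`), with two different planes `H`, `K` which meet every line -/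
structure Geo {P : Type} (ln : P → P → Set P) (H K : Set P) : Prop where
  left : ∀ x y, x ≠ y → x ∈ ln x y
  right : ∀ x y, x ≠ y → y ∈ ln x y
  eq : ∀ x y a b, x ≠ y → a ≠ b → a ∈ ln x y → b ∈ ln x y → ln a b = ln x y
  pasch : ∀ x y z a b, x ≠ y → x ≠ z → y ≠ z → a ≠ b → a ∈ ln x y → b ∈ ln x z →
    ∃ w, w ∈ ln a b ∧ w ∈ ln y z
  three : ∀ x y, x ≠ y → ∃ z ∈ ln x y, z ≠ x ∧ z ≠ y
  subH : ∀ x y, x ≠ y → x ∈ H → y ∈ H → ln x y ⊆ H
  subK : ∀ x y, x ≠ y → x ∈ K → y ∈ K → ln x y ⊆ K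
  hypH : ∀ x y, x ≠ y → ∃ z ∈ ln x y, z ∈ H
  hypK : ∀ x y, x ≠ y → ∃ z ∈ ln x y, z ∈ K
  neH : ∃ a, a ∈ H ∧ a ∉ K
  neK : ∃ a, a ∈ K ∧ a ∉ H
  axis : ∀ d d' e, d ∈ H → d ∈ K → d' ∈ H → d' ∈ K → e ∈ H → e ∈ K → d ≠ d' → e ∈ ln d d'
  axis2 : ∃ d d', d ≠ d' ∧ d ∈ H ∧ d ∈ K ∧ d' ∈ H ∧ d' ∈ K

namespace Geo

variable {P : Type} {ln : P → P → Set P} {H K : Set P}

theorem swap (g : Geo ln H K) : Geo ln K H where
  left := g.left
  right := g.right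
  eq := g.eq
  pasch := g.pasch
  three := g.three
  subH := g.subK
  subK := g.subH
  hypH := g.hypK
  hypK := g.hypH
  neH := g.neK
  neK := g.neH
  axis := fun d d' e h1 h2 h3 h4 h5 h6 h7 => g.axis d d' e h2 h1 h4 h3 h6 h5 h7
  axis2 := by
    obtain ⟨d, d', h, h1, h2, h3, h4⟩ := g.axis2
    exact ⟨d, d', h, h2, h1, h4, h3⟩

/-- points of the affine plane -/
def Pt (H K : Set P) : Type := {x : P // x ∈ H ∧ x ∉ K}

/-- directions -/
def Dr (H K : Set P) : Type := {x : P // x ∈ H ∧ x ∈ K}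

/-- parallel classes -/
def E (ln : P → P → Set P) (H K : Set P) (d : Dr H K) (x y : Pt H K) : Prop := y.1 ∈ ln x.1 d.1

theorem ne (x : Pt H K) (d : Dr H K) : x.1 ≠ d.1 := fun h => x.2.2 (h ▸ d.2.2)

theorem E_ln (g : Geo ln H K) {d : Dr H K} {x y : Pt H K} (h : E ln H K d x y) : ln y.1 d.1 = ln x.1 d.1 :=
  g.eq _ _ _ _ (ne x d) (ne y d) h (g.right _ _ (ne x d))

theorem E_equiv (g : Geo ln H K) (d : Dr H K) : Equivalence (E ln H K d) where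
  refl x := g.left _ _ (ne x d)
  symm {x y} h := by
    show x.1 ∈ ln y.1 d.1
    rw [g.E_ln h]
    exact g.left _ _ (ne x d)
  trans {x y z} h1 h2 := by
    show z.1 ∈ ln x.1 d.1
    rw [← g.E_ln h1]
    exact h2

theorem aff (g : Geo ln H K) : Aff (Pt H K) (Dr H K) (E ln H K) where
  equiv := g.E_equiv
  ex := by
    intro x y
    by_cases h : x = y
    · subst h
      obtain ⟨d, d', -, h1, h2, -, -⟩ := g.axis2
      exact ⟨⟨d, h1, h2⟩, (g.E_equiv _).refl x⟩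
    · have h1 : x.1 ≠ y.1 := fun h2 => h (Subtype.ext h2)
      obtain ⟨d, hd, hdK⟩ := g.hypK _ _ h1
      have hdH : d ∈ H := g.subH _ _ h1 x.2.1 y.2.1 hd
      refine ⟨⟨d, hdH, hdK⟩, ?_⟩
      show y.1 ∈ ln x.1 d
      rw [g.eq _ _ _ _ h1 (ne x ⟨d, hdH, hdK⟩) (g.left _ _ h1) hd]
      exact g.right _ _ h1
  uniq := by
    intro x y d d' hd h1 h2
    by_contra hxy
    have h3 : x.1 ≠ y.1 := fun h2 => hxy (Subtype.ext h2)
    have h4 : ln x.1 y.1 = ln x.1 d.1 := g.eq _ _ _ _ (ne x d) h3 (g.left _ _ (ne x d)) h1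
    have h5 : ln x.1 y.1 = ln x.1 d'.1 := g.eq _ _ _ _ (ne x d') h3 (g.left _ _ (ne x d')) h2
    have h6 : d.1 ≠ d'.1 := fun h => hd (Subtype.ext h)
    have h7 : ln d.1 d'.1 = ln x.1 y.1 :=
      g.eq _ _ _ _ h3 h6 (by rw [h4]; exact g.right _ _ (ne x d)) (by rw [h5]; exact g.right _ _ (ne x d'))
    exact x.2.2 (g.subK _ _ h6 d.2.2 d'.2.2 (by rw [h7]; exact g.left _ _ h3))
  meet := by
    intro x y d d' hd
    have hdd : d.1 ≠ d'.1 := fun h => hd (Subtype.ext h)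
    by_cases hxy : x = y
    · subst hxy
      exact ⟨x, (g.E_equiv _).refl x, (g.E_equiv _).refl x⟩
    have h1 : x.1 ≠ y.1 := fun h2 => hxy (Subtype.ext h2)
    obtain ⟨e, he, heK⟩ := g.hypK _ _ h1
    have heH : e ∈ H := g.subH _ _ h1 x.2.1 y.2.1 he
    have hxe : x.1 ≠ e := ne x ⟨e, heH, heK⟩
    have hye : y.1 ≠ e := ne y ⟨e, heH, heK⟩
    have h2 : ln x.1 e = ln x.1 y.1 := g.eq _ _ _ _ h1 hxe (g.left _ _ h1) he
    have h3 : ln e y.1 = ln x.1 y.1 := g.eq _ _ _ _ h1 (Ne.symm hye) he (g.right _ _ h1)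
    by_cases hed : e = d.1
    · refine ⟨y, ?_, (g.E_equiv _).refl y⟩
      show y.1 ∈ ln x.1 d.1
      rw [← hed, h2]
      exact g.right _ _ h1
    by_cases hed' : e = d'.1
    · refine ⟨x, (g.E_equiv _).refl x, ?_⟩
      show y.1 ∈ ln x.1 d'.1
      rw [← hed', h2]
      exact g.right _ _ h1
    have h4 : d.1 ∈ ln e d'.1 := g.axis e d'.1 d.1 heH heK d'.2.1 d'.2.2 d.2.1 d.2.2 hed'
    obtain ⟨w, hw1, hw2⟩ := g.pasch e y.1 d'.1 x.1 d.1 (Ne.symm hye) hed' (ne y d') (ne x d)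
      (by rw [h3]; exact g.left _ _ h1) h4
    have hwH : w ∈ H := g.subH _ _ (ne x d) x.2.1 d.2.1 hw1
    have hwK : w ∉ K := by
      intro hwK
      have h5 : w = d.1 := by
        by_contra h5
        have h6 := g.eq _ _ _ _ (ne x d) h5 hw1 (g.right _ _ (ne x d))
        exact x.2.2 (g.subK _ _ h5 hwK d.2.2 (by rw [h6]; exact g.left _ _ (ne x d)))
      have h6 : w = d'.1 := by
        by_contra h6
        have h7 := g.eq _ _ _ _ (ne y d') h6 hw2 (g.right _ _ (ne y d'))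
        exact y.2.2 (g.subK _ _ h6 hwK d'.2.2 (by rw [h7]; exact g.left _ _ (ne y d')))
      exact hdd (h5.symm.trans h6)
    exact ⟨⟨w, hwH, hwK⟩, hw1, (g.E_equiv _).symm (show E ln H K d' y ⟨w, hwH, hwK⟩ from hw2)⟩
  pt := by
    intro x d
    obtain ⟨z, hz, hzx, hzd⟩ := g.three _ _ (ne x d)
    have hzH : z ∈ H := g.subH _ _ (ne x d) x.2.1 d.2.1 hz
    have hzK : z ∉ K := by
      intro hzK
      have h6 := g.eq _ _ _ _ (ne x d) hzd hz (g.right _ _ (ne x d))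
      exact x.2.2 (g.subK _ _ hzd hzK d.2.2 (by rw [h6]; exact g.left _ _ (ne x d)))
    exact ⟨⟨z, hzH, hzK⟩, fun h => hzx (congrArg Subtype.val h), hz⟩
  two := by
    intro d
    obtain ⟨a, b, hab, h1, h2, h3, h4⟩ := g.axis2
    by_cases had : a = d.1
    · exact ⟨⟨b, h3, h4⟩, fun h => hab (had.trans (congrArg Subtype.val h).symm)⟩
    · exact ⟨⟨a, h1, h2⟩, fun h => had (congrArg Subtype.val h)⟩

/-- the perspectivity from a point off both planes: existence -/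
theorem persp_ex (g : Geo ln H K) {O : P} (hH : O ∉ H) (hK : O ∉ K) (x : Pt H K) :
    ∃! y : Pt K H, y.1 ∈ ln O x.1 := by
  have hOx : O ≠ x.1 := fun h => hH (h ▸ x.2.1)
  obtain ⟨y, hy, hyK⟩ := g.hypK _ _ hOx
  have hyH : y ∉ H := by
    intro hyH
    have hxy : x.1 ≠ y := fun h => x.2.2 (h ▸ hyK)
    have h1 := g.eq _ _ _ _ hOx hxy (g.right _ _ hOx) hy
    exact hH (g.subH _ _ hxy x.2.1 hyH (by rw [h1]; exact g.left _ _ hOx))
  refine ⟨⟨y, hyK, hyH⟩, hy, ?_⟩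
  rintro ⟨z, hzK, hzH⟩ hz
  apply Subtype.ext
  show z = y
  by_contra hzy
  have h1 := g.eq _ _ _ _ hOx hzy hz hy
  exact hK (g.subK _ _ hzy hzK hyK (by rw [h1]; exact g.left _ _ hOx))

theorem persp_symm (g : Geo ln H K) {O : P} (hH : O ∉ H) (hK : O ∉ K) (x : Pt H K) (y : Pt K H)
    (h : y.1 ∈ ln O x.1) : x.1 ∈ ln O y.1 := by
  have hOx : O ≠ x.1 := fun h => hH (h ▸ x.2.1)
  have hOy : O ≠ y.1 := fun h => hK (h ▸ y.2.1)
  rw [g.eq _ _ _ _ hOx hOy (g.left _ _ hOx) h]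
  exact g.right _ _ hOx

/-- the perspectivity as a bijection -/
theorem persp (g : Geo ln H K) {O : P} (hH : O ∉ H) (hK : O ∉ K) :
    ∃ e : Pt H K ≃ Pt K H, ∀ x, (e x).1 ∈ ln O x.1 := by
  choose f hf hf' using g.persp_ex hH hK
  choose f₁ hg hg' using g.swap.persp_ex hK hH
  refine ⟨⟨f, f₁, ?_, ?_⟩, hf⟩
  · intro x
    exact (hg' (f x) x (g.persp_symm hH hK x (f x) (hf x))).symm
  · intro y
    exact (hf' (f₁ y) y (g.swap.persp_symm hK hH y (f₁ y) (hg y))).symm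

/-- perspectivities preserve directions -/
theorem persp_dir (g : Geo ln H K) {O : P} (hH : O ∉ H) (hK : O ∉ K) {x y : Pt H K} {x' y' : Pt K H}
    (hx : x'.1 ∈ ln O x.1) (hy : y'.1 ∈ ln O y.1) {d : P} (hdH : d ∈ H) (hdK : d ∈ K)
    (h : y.1 ∈ ln x.1 d) : y'.1 ∈ ln x'.1 d := by
  have hOx : O ≠ x.1 := fun h => hH (h ▸ x.2.1)
  have hOy : O ≠ y.1 := fun h => hH (h ▸ y.2.1)
  have hxd : x.1 ≠ d := fun h => x.2.2 (h ▸ hdK)
  have hx'd : x'.1 ≠ d := fun h => x'.2.2 (h ▸ hdH)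
  by_cases hxy : x.1 = y.1
  · have h1 : y'.1 = x'.1 := by
      obtain ⟨z, -, hz⟩ := g.persp_ex hH hK x
      rw [hz x' hx, hz y' (by rw [hxy]; exact hy)]
    rw [h1]
    exact g.left _ _ hx'd
  have h1 : d ∈ ln x.1 y.1 := by
    rw [g.eq _ _ _ _ hxd hxy (g.left _ _ hxd) h]
    exact g.right _ _ hxd
  -- the line `x' d` meets `O y`
  obtain ⟨w, hw1, hw2⟩ := g.pasch x.1 O y.1 x'.1 d (Ne.symm hOx) hxy hOy hx'd
    (by rw [g.eq _ _ _ _ hOx (Ne.symm hOx) (g.right _ _ hOx) (g.left _ _ hOx)]; exact hx) h1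
  have hwK : w ∈ K := g.subK _ _ hx'd x'.2.1 hdK hw1
  have hwH : w ∉ H := by
    intro hwH
    have hwy : w ≠ y.1 := fun h => y.2.2 (h ▸ hwK)
    have h2 := g.eq _ _ _ _ hOy hwy hw2 (g.right _ _ hOy)
    exact hH (g.subH _ _ hwy hwH y.2.1 (by rw [h2]; exact g.left _ _ hOy))
  obtain ⟨z, -, hz⟩ := g.persp_ex hH hK y
  have h2 : w = y'.1 := by
    have h3 := hz y' hy
    have h4 := hz ⟨w, hwK, hwH⟩ hw2
    rw [h3, ← h4]
  rw [← h2]
  exact hw1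

/-- the translations are transitive -/
theorem transl (g : Geo ln H K) (a b : Pt H K) (hab : a ≠ b) :
    ∃ s : Equiv.Perm (Pt H K), Aff.Dil (E ln H K) s ∧ (∀ x, s x ≠ x) ∧ s a = b := by
  have hab' : a.1 ≠ b.1 := fun h => hab (Subtype.ext h)
  obtain ⟨c, hcK, hcH⟩ := g.neK
  have hac : a.1 ≠ c := fun h => hcH (h ▸ a.2.1)
  have hbc : b.1 ≠ c := fun h => hcH (h ▸ b.2.1)
  obtain ⟨O, hO, hOa, hOc⟩ := g.three _ _ hac
  have hOH : O ∉ H := by
    intro h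
    have h1 := g.eq _ _ _ _ hac hOa hO (g.left _ _ hac)
    exact hcH (g.subH _ _ hOa h a.2.1 (by rw [h1]; exact g.right _ _ hac))
  have hOK : O ∉ K := by
    intro h
    have h1 := g.eq _ _ _ _ hac hOc hO (g.right _ _ hac)
    exact a.2.2 (g.subK _ _ hOc h hcK (by rw [h1]; exact g.left _ _ hac))
  obtain ⟨z, hz, hzK⟩ := g.hypK _ _ hab'
  have hzH : z ∈ H := g.subH _ _ hab' a.2.1 b.2.1 hz
  have hOz : O ≠ z := fun h => hOH (h ▸ hzH)
  obtain ⟨Q, hQ1, hQ2⟩ := g.pasch a.1 c b.1 O z hac hab' (Ne.symm hbc) hOz hO hz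
  -- `Q` is off both planes
  have hzc : z ≠ c := fun h => hcH (h ▸ hzH)
  have hzb : z ≠ b.1 := fun h => b.2.2 (h ▸ hzK)
  have hQz : Q ≠ z := by
    intro h
    rw [h] at hQ2
    have h1 := g.eq _ _ _ _ (Ne.symm hbc) hzc hQ2 (g.left _ _ (Ne.symm hbc))
    exact b.2.2 (g.subK _ _ hzc hzK hcK (by rw [h1]; exact g.right _ _ (Ne.symm hbc)))
  have hQH : Q ∉ H := by
    intro h
    have h1 := g.eq _ _ _ _ hOz hQz hQ1 (g.right _ _ hOz)
    exact hOH (g.subH _ _ hQz h hzH (by rw [h1]; exact g.left _ _ hOz))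
  have hQK : Q ∉ K := by
    intro h
    have h1 := g.eq _ _ _ _ hOz hQz hQ1 (g.right _ _ hOz)
    exact hOK (g.subK _ _ hQz h hzK (by rw [h1]; exact g.left _ _ hOz))
  have hOQ : O ≠ Q := by
    intro h
    rw [← h] at hQ2
    have h1 := g.eq _ _ _ _ hac hOc hO (g.right _ _ hac)
    have h2 := g.eq _ _ _ _ (Ne.symm hbc) hOc hQ2 (g.left _ _ (Ne.symm hbc))
    have h3 : b.1 ∈ ln a.1 c := by rw [← h1, h2]; exact g.right _ _ (Ne.symm hbc)
    have h4 := g.eq _ _ _ _ hac hab' (g.left _ _ hac) h3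
    exact hcH (g.subH _ _ hab' a.2.1 b.2.1 (by rw [h4]; exact g.right _ _ hac))
  obtain ⟨e₁, he₁⟩ := g.persp hOH hOK
  obtain ⟨e₂, he₂⟩ := g.persp hQH hQK
  refine ⟨e₁.trans e₂.symm, ?_, ?_, ?_⟩
  · intro d x y hxy
    have h1 : (e₁ y).1 ∈ ln (e₁ x).1 d.1 :=
      g.persp_dir hOH hOK (he₁ x) (he₁ y) d.2.1 d.2.2 hxy
    have h2 : ∀ u : Pt K H, (e₂.symm u).1 ∈ ln Q u.1 := by
      intro u
      have h3 := he₂ (e₂.symm u)
      rw [Equiv.apply_symm_apply] at h3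
      exact g.persp_symm hQH hQK _ _ h3
    exact g.swap.persp_dir hQK hQH (h2 (e₁ x)) (h2 (e₁ y)) d.2.2 d.2.1 h1
  · intro x hx
    have h1 : e₁ x = e₂ x := by
      have h2 : e₂.symm (e₁ x) = x := hx
      rw [Equiv.symm_apply_eq] at h2
      exact h2
    have hOx : O ≠ x.1 := fun h => hOH (h ▸ x.2.1)
    have hQx : Q ≠ x.1 := fun h => hQH (h ▸ x.2.1)
    have hxx : x.1 ≠ (e₁ x).1 := fun h => x.2.2 (h ▸ (e₁ x).2.1)
    have h2 := g.eq _ _ _ _ hOx hxx (g.right _ _ hOx) (he₁ x)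
    have h3 : (e₁ x).1 ∈ ln Q x.1 := by rw [h1]; exact he₂ x
    have h4 := g.eq _ _ _ _ hQx hxx (g.right _ _ hQx) h3
    -- `O`, `Q` are on the line `x x'`
    have h5 : O ∈ ln x.1 (e₁ x).1 := by rw [h2]; exact g.left _ _ hOx
    have h6 : Q ∈ ln x.1 (e₁ x).1 := by rw [h4]; exact g.left _ _ hQx
    have h7 := g.eq _ _ _ _ hxx hOQ h5 h6
    have h8 := g.eq _ _ _ _ hOz hOQ (g.left _ _ hOz) hQ1
    have h9 : z ∈ ln x.1 (e₁ x).1 := by rw [← h7, h8]; exact g.right _ _ hOz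
    have hxz : x.1 ≠ z := fun h => x.2.2 (h ▸ hzK)
    have h10 := g.eq _ _ _ _ hxx hxz (g.left _ _ hxx) h9
    exact hOH (g.subH _ _ hxz x.2.1 hzH (by rw [h10]; exact h5))
  · show e₂.symm (e₁ a) = b
    rw [Equiv.symm_apply_eq]
    have hOa' : O ≠ a.1 := hOa
    have hQb : Q ≠ b.1 := fun h => hQH (h ▸ b.2.1)
    have h1 : c ∈ ln O a.1 := by
      rw [g.eq _ _ _ _ hac hOa hO (g.left _ _ hac)]
      exact g.right _ _ hac
    have h2 : c ∈ ln Q b.1 := by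
      rw [g.eq _ _ _ _ (Ne.symm hbc) hQb hQ2 (g.right _ _ (Ne.symm hbc))]
      exact g.left _ _ (Ne.symm hbc)
    obtain ⟨u, -, hu⟩ := g.persp_ex hOH hOK a
    obtain ⟨v, -, hv⟩ := g.persp_ex hQH hQK b
    rw [hu (e₁ a) (he₁ a), ← hu ⟨c, hcK, hcH⟩ h1, hv (e₂ b) (he₂ b), ← hv ⟨c, hcK, hcH⟩ h2]

end Geo

/-- the number of points of `H \ K` is a prime power -/
theorem card_plane {P : Type} [Finite P] {ln : P → P → Set P} {H K : Set P} (g : Geo ln H K) :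
    ∃ p n : ℕ, p.Prime ∧ Nat.card {x : P // x ∈ H ∧ x ∉ K} = p ^ n := by
  classical
  have hfin : Finite (Geo.Pt H K) := Subtype.finite
  have : Fintype (Geo.Pt H K) := Fintype.ofFinite _
  obtain ⟨a, ha, ha'⟩ := g.neH
  obtain ⟨p, n, hp, hn⟩ := artin g.aff ⟨a, ha, ha'⟩ g.transl
  refine ⟨p, n, hp, ?_⟩
  rw [← hn, ← Nat.card_eq_fintype_card]
  rfl

end Pool.Agent.DCP5.H67
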