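import Pool.Agent.DCP5.Space
import Pool.Agent.DCP5.Persp

/-!
# The order of a finite projective 3-space (given by counting) is a prime power
-/

namespace Pool.Agent.DCP5

namespace Sp

variable {P : Type} [Fintype P] [DecidableEq P] {S : Sp P} {q : ℕ} {a b c d : P}

/-- two planes of the space, as an instance of `H67.Geo` -/
theorem geo (H : Hyp S q) (h : ¬ S.K a b c d) :
    H67.Geo (fun x y => {v | S.C x y v}) {v | S.K a b c v} {v | S.K a b d v} := by
  have hc : ¬ S.C a b c := fun h1 => h (kC h1)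
  have hd : ¬ S.C a b d := fun h1 => h (k34 (kC h1))
  have hab : a ≠ b := ne12 hc
  refine ⟨fun x y _ => cxyx x y, fun x y _ => cxyy x y, ?_, ?_, ?_, ?_, ?_, ?_, ?_, ?_, ?_, ?_, ?_⟩
  · intro x y u v hxy huv hu hv
    ext w
    exact line_eq hxy huv hu hv
  · intro x y z u v hxy hxz hyz huv hu hv
    have hu' : S.C x y u := hu
    have hv' : S.C x z v := hv
    by_cases hC : S.C x y z
    · exact ⟨u, cxyx u v, line3 hxy (cxyy x y) hC hu'⟩
    · have h1 : S.K x y z u := k34 (kC hu')
      have h2 : S.K x y z v := k23 (k34 (kC hv'))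
      exact meet_lines H hC huv hyz h1 h2 (ky x y z) (kz x y z)
  · intro x y hxy
    classical
    by_contra hno
    push Not at hno
    have h1 := line_card H hxy
    have h2 : (Finset.univ.filter (fun v => S.C x y v)) ⊆ {x, y} := by
      intro v hv
      have hv' : S.C x y v := (Finset.mem_filter.1 hv).2
      by_cases hvx : v = x
      · simp [hvx]
      · have := hno v hv' hvx
        simp [this]
    have h3 := Finset.card_le_card h2
    have h4 := Finset.card_le_two (a := x) (b := y)
    have h5 := H.q2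
    rw [h1] at h3
    omega
  · intro x y hxy hx hy v hv
    exact line_in_plane hc hx hy hxy hv
  · intro x y hxy hx hy v hv
    exact line_in_plane hd hx hy hxy hv
  · intro x y hxy
    obtain ⟨z, h1, h2⟩ := meet_plane H hc hxy
    exact ⟨z, h2, h1⟩
  · intro x y hxy
    obtain ⟨z, h1, h2⟩ := meet_plane H hd hxy
    exact ⟨z, h2, h1⟩
  · exact ⟨c, kz a b c, fun h1 => h (k34 h1)⟩
  · exact ⟨d, kz a b d, fun h1 => h h1⟩
  · intro x y z hx hx' hy hy' hz hz' hxy
    by_contra hC
    have h1 : S.K x y z d ↔ S.K a b c d := ex hc hx hy hz hC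
    have h2 : S.K x y z d ↔ S.K a b d d := ex hd hx' hy' hz' hC
    exact h (h1.1 (h2.2 (kz a b d)))
  · exact ⟨a, b, hab, kx a b c, kx a b d, ky a b c, ky a b d⟩

/-- **the order is a prime power** -/
theorem isPrimePow (H : Hyp S q) : IsPrimePow q := by
  classical
  obtain ⟨a, b, c, d, h⟩ := H.h4
  have hc : ¬ S.C a b c := fun h1 => h (kC h1)
  have g := geo H h
  have hab : a ≠ b := ne12 hc
  obtain ⟨p, n, hp, hn⟩ := H67.card_plane g
  have h1 : Nat.card {x : P // x ∈ {v | S.K a b c v} ∧ x ∉ {v | S.K a b d v}} = q * q := by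
    rw [← (exact_counts H hc).2.1, Nat.card_eq_fintype_card, Fintype.card_subtype]
    congr 1
    ext v
    simp only [Finset.mem_filter, Finset.mem_univ, true_and, Set.mem_setOf_eq]
    constructor
    · rintro ⟨h1, h2⟩
      exact ⟨h1, fun h3 => h2 (k34 (kC h3))⟩
    · rintro ⟨h1, h2⟩
      exact ⟨h1, fun h3 => h2 (g.axis a b v (kx a b c) (kx a b d) (ky a b c) (ky a b d) h1 h3 hab)⟩
  rw [h1] at hn
  have hdvd : q ∣ p ^ n := ⟨q, hn.symm⟩
  obtain ⟨k, -, hk⟩ := (Nat.dvd_prime_pow hp).1 hdvd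
  rw [isPrimePow_nat_iff]
  refine ⟨p, k, hp, ?_, hk.symm⟩
  rcases Nat.eq_zero_or_pos k with h0 | h0
  · have := H.q2
    rw [hk, h0, pow_zero] at this
    omega
  · exact h0

end Sp

end Pool.Agent.DCP5
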