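import Mathlib

/-!
Finite projective 3-spaces from counting (V5 of MP_a4d830_co, parts (d), (e) of the proof).
`Sp P`: a simple matroid language: `C x y z` (collinear), `K x y z w` (coplanar).
-/

namespace Pool.Agent.DCP5

open Finset

/-- Collinearity and coplanarity on a set of points (a simple matroid, levels 3 and 4). -/
structure Sp (P : Type*) where
  C : P → P → P → Prop
  K : P → P → P → P → Prop
  C_self : ∀ x y, C x x y
  C_swap : ∀ x y z, C x y z → C y x z
  C_rot : ∀ x y z, C x y z → C x z y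
  C_tr : ∀ x y z w, x ≠ y → C x y z → C x y w → C x z w
  K_swap12 : ∀ x y z w, K x y z w → K y x z w
  K_swap23 : ∀ x y z w, K x y z w → K x z y w
  K_swap34 : ∀ x y z w, K x y z w → K x y w z
  K_C : ∀ x y z w, C x y z → K x y z w
  K_tr : ∀ x y z w v, ¬ C x y z → K x y z w → K x y z v → K x y w v

namespace Sp

variable {P : Type*} (S : Sp P)

section perm
variable {S} {x y z w v : P}

lemma c213 (h : S.C x y z) : S.C y x z := S.C_swap _ _ _ h
lemma c132 (h : S.C x y z) : S.C x z y := S.C_rot _ _ _ h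
lemma c231 (h : S.C x y z) : S.C y z x := c132 (c213 h)
lemma c312 (h : S.C x y z) : S.C z x y := c213 (c132 h)
lemma c321 (h : S.C x y z) : S.C z y x := c132 (c312 h)
lemma cxx (x y : P) : S.C x x y := S.C_self x y
lemma cxyx (x y : P) : S.C x y x := c132 (cxx x y)
lemma cxyy (x y : P) : S.C x y y := c312 (cxx y x)

lemma n213 (h : ¬ S.C x y z) : ¬ S.C y x z := fun h' => h (c213 h')
lemma n132 (h : ¬ S.C x y z) : ¬ S.C x z y := fun h' => h (c132 h')
lemma n231 (h : ¬ S.C x y z) : ¬ S.C y z x := fun h' => h (c312 h')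
lemma n312 (h : ¬ S.C x y z) : ¬ S.C z x y := fun h' => h (c231 h')
lemma n321 (h : ¬ S.C x y z) : ¬ S.C z y x := fun h' => h (c321 h')

lemma k12 (h : S.K x y z w) : S.K y x z w := S.K_swap12 _ _ _ _ h
lemma k23 (h : S.K x y z w) : S.K x z y w := S.K_swap23 _ _ _ _ h
lemma k34 (h : S.K x y z w) : S.K x y w z := S.K_swap34 _ _ _ _ h
lemma k12' : S.K x y z w ↔ S.K y x z w := ⟨k12, k12⟩
lemma k23' : S.K x y z w ↔ S.K x z y w := ⟨k23, k23⟩
lemma k34' : S.K x y z w ↔ S.K x y w z := ⟨k34, k34⟩
/-- `K z x y w` from `K x y z w`. -/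
lemma k312 : S.K x y z w ↔ S.K z x y w := by rw [k23', k12']
lemma k231 : S.K x y z w ↔ S.K y z x w := by rw [k12', k23']

lemma kC (h : S.C x y z) : S.K x y z w := S.K_C _ _ _ _ h

lemma ne12 (h : ¬ S.C x y z) : x ≠ y := by rintro rfl; exact h (cxx _ _)
lemma ne13 (h : ¬ S.C x y z) : x ≠ z := by rintro rfl; exact h (cxyx _ _)
lemma ne23 (h : ¬ S.C x y z) : y ≠ z := by rintro rfl; exact h (cxyy _ _)

/-- `K x y z x`, etc. -/
lemma kx (x y z : P) : S.K x y z x := by
  have h : S.K x x y z := kC (cxx x y)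
  exact k34 (k23 h)
lemma ky (x y z : P) : S.K x y z y := by
  have h : S.K y x z y := kx y x z
  exact k12 h
lemma kz (x y z : P) : S.K x y z z := by
  have h : S.K z x y z := kx z x y
  exact k23 (k12 h)

/-- three points of the line `x y` are collinear -/
lemma line3 (hxy : x ≠ y) (hz : S.C x y z) (hw : S.C x y w) (hv : S.C x y v) :
    S.C z w v := by
  by_cases hzx : z = x
  · subst hzx; exact S.C_tr _ _ _ _ hxy hw hv
  · have h1 : S.C x z w := S.C_tr _ _ _ _ hxy hz hw
    have h2 : S.C x z v := S.C_tr _ _ _ _ hxy hz hv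
    exact S.C_tr _ _ _ _ hzx (c213 h1) (c213 h2)

lemma line_eq (hxy : x ≠ y) (hzw : z ≠ w) (hz : S.C x y z) (hw : S.C x y w) :
    S.C z w v ↔ S.C x y v := by
  constructor
  · intro h
    have h1 : S.C z w x := line3 hxy hz hw (cxyx x y)
    have h2 : S.C z w y := line3 hxy hz hw (cxyy x y)
    exact line3 hzw h1 h2 h
  · intro h; exact line3 hxy hz hw h

end perm

section planes
variable {S} {a b c x y z w v t t' o : P}

lemma plane_eq1 (h : ¬ S.C a b c) (hw : S.K a b c w) (h' : ¬ S.C a b w) :
    S.K a b w v ↔ S.K a b c v := by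
  constructor
  · intro hv; exact S.K_tr a b w c v h' (k34 hw) hv
  · intro hv; exact S.K_tr a b c w v h hw hv

lemma one (h : ¬ S.C a b c) (hx : S.K a b c x) :
    ∃ p p', ¬ S.C x p p' ∧ ∀ v, S.K x p p' v ↔ S.K a b c v := by
  by_cases hxa : x = a
  · subst hxa; exact ⟨b, c, h, fun v => Iff.rfl⟩
  by_cases hC : S.C a b x
  · have hC' : ¬ S.C a c x := fun hC' => h (S.C_tr a x b c (Ne.symm hxa) (c132 hC) (c132 hC'))
    refine ⟨a, c, n312 hC', fun v => ?_⟩
    have h1 : S.K x a c v ↔ S.K a c x v := k231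
    have h2 : S.K a c x v ↔ S.K a c b v := plane_eq1 (n132 h) (k23 hx) hC'
    rw [h1, h2]; exact k23'
  · refine ⟨a, b, n312 hC, fun v => ?_⟩
    have h1 : S.K x a b v ↔ S.K a b x v := k231
    rw [h1]; exact plane_eq1 h hx hC

lemma two (h : ¬ S.C a b c) (hx : S.K a b c x) (hz : S.K a b c z) (hxz : x ≠ z) :
    ∃ p, ¬ S.C x z p ∧ ∀ v, S.K x z p v ↔ S.K a b c v := by
  obtain ⟨p, p', hn, he⟩ := one h hx
  have hz' : S.K x p p' z := (he z).2 hz
  by_cases hC : S.C x p z
  · have hC' : ¬ S.C x p' z := fun hC' => hn (S.C_tr x z p p' hxz (c132 hC) (c132 hC'))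
    refine ⟨p', n132 hC', fun v => ?_⟩
    have h1 : S.K x p' z v ↔ S.K x p' p v := plane_eq1 (n132 hn) (k23 hz') hC'
    rw [k23', h1, k23', he]
  · refine ⟨p, n132 hC, fun v => ?_⟩
    have h1 : S.K x p z v ↔ S.K x p p' v := plane_eq1 hn hz' hC
    rw [k23', h1, he]

lemma ex (h : ¬ S.C a b c) (hx : S.K a b c x) (hz : S.K a b c z) (hw : S.K a b c w)
    (hn : ¬ S.C x z w) : S.K x z w v ↔ S.K a b c v := by
  obtain ⟨p, hp, he⟩ := two h hx hz (ne12 hn)
  have h1 : S.K x z w v ↔ S.K x z p v := plane_eq1 hp ((he w).2 hw) hn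
  rw [h1, he]

lemma line_in_plane (h : ¬ S.C a b c) (ht : S.K a b c t) (ht' : S.K a b c t') (hne : t ≠ t')
    (hv : S.C t t' v) : S.K a b c v := by
  obtain ⟨p, hp, he⟩ := two h ht ht' hne
  exact (he v).1 (k34 (kC hv))

/-- a line through a point outside a plane meets the plane at most once -/
lemma uniq (h : ¬ S.C a b c) (ho : ¬ S.K a b c o) (hox : o ≠ x) (hv : S.K a b c v)
    (hw : S.K a b c w) (h1 : S.C o x v) (h2 : S.C o x w) : v = w := by
  by_contra hne
  have h3 : S.C o v w := S.C_tr o x v w hox h1 h2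
  exact ho (line_in_plane h hv hw hne (c231 h3))

end planes

section counting
variable {S} [Fintype P] [DecidableEq P] {q : ℕ} {a b c x y z w v o : P}

open Classical in
lemma exists_max (R : P → P → Prop) (hs : ∀ a b, R a b → R b a) (hr : ∀ a, R a a)
    (T0 : Finset P) : ∃ T ⊆ T0, (∀ a ∈ T, ∀ b ∈ T, a ≠ b → ¬ R a b) ∧
      ∀ s ∈ T0, ∃ t ∈ T, R t s := by
  induction T0 using Finset.induction_on with
  | empty => exact ⟨∅, by simp, by simp, by simp⟩
  | insert s T1 hs1 ih =>
    obtain ⟨T, hT, hp, hc⟩ := ih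
    by_cases h : ∃ t ∈ T, R t s
    · refine ⟨T, hT.trans (Finset.subset_insert _ _), hp, ?_⟩
      intro u hu
      rcases Finset.mem_insert.1 hu with rfl | hu
      · exact h
      · exact hc u hu
    · push Not at h
      refine ⟨insert s T, Finset.insert_subset_insert _ hT, ?_, ?_⟩
      · intro a ha b hb hab
        rcases Finset.mem_insert.1 ha with ha1 | ha1 <;>
          rcases Finset.mem_insert.1 hb with hb1 | hb1
        · exact absurd (ha1.trans hb1.symm) hab
        · rw [ha1]; exact fun hR => h b hb1 (hs _ _ hR)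
        · rw [hb1]; exact h a ha1
        · exact hp a ha1 b hb1 hab
      · intro u hu
        rcases Finset.mem_insert.1 hu with rfl | hu
        · exact ⟨u, Finset.mem_insert_self _ _, hr _⟩
        · obtain ⟨t, ht, hR⟩ := hc u hu
          exact ⟨t, Finset.mem_insert_of_mem ht, hR⟩

open Classical in
lemma cover (R : P → P → Prop) (hs : ∀ a b, R a b → R b a) (hr : ∀ a, R a a)
    (T0 : Finset P) (n k : ℕ) (hcl : ∀ a ∈ T0, (T0.filter (R a)).card ≤ n)
    (hk : ∀ T ⊆ T0, (∀ a ∈ T, ∀ b ∈ T, a ≠ b → ¬ R a b) → T.card ≤ k) :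
    T0.card ≤ k * n := by
  obtain ⟨T, hT, hp, hc⟩ := exists_max R hs hr T0
  have h1 : T0 ⊆ T.biUnion (fun t => T0.filter (R t)) := by
    intro s hs'
    obtain ⟨t, ht, hR⟩ := hc s hs'
    exact Finset.mem_biUnion.2 ⟨t, ht, Finset.mem_filter.2 ⟨hs', hR⟩⟩
  calc T0.card ≤ (T.biUnion (fun t => T0.filter (R t))).card := Finset.card_le_card h1
    _ ≤ ∑ t ∈ T, (T0.filter (R t)).card := Finset.card_biUnion_le
    _ ≤ ∑ _t ∈ T, n := Finset.sum_le_sum fun t ht => hcl t (hT ht)
    _ = T.card * n := by rw [Finset.sum_const, smul_eq_mul]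
    _ ≤ k * n := Nat.mul_le_mul_right _ (hk T hT hp)

/-- The counting hypotheses. -/
structure Hyp (S : Sp P) (q : ℕ) : Prop where
  q2 : 2 ≤ q
  h4 : ∃ x y z w, ¬ S.K x y z w
  hq : ∀ x y, x ≠ y → ∀ t : Fin (q + 2) → P, ∃ i j, i ≠ j ∧ S.K x y (t i) (t j)
  card : q ^ 3 + q ^ 2 + q + 1 ≤ Fintype.card P

variable (H : Hyp S q)
include H

lemma hqF (hxy : x ≠ y) (T : Finset P) (hT : ∀ z ∈ T, ∀ w ∈ T, z ≠ w → ¬ S.K x y z w) :
    T.card ≤ q + 1 := by
  by_contra hlt
  push Not at hlt
  have h1 : Nonempty (Fin (q + 2) ↪ T) := by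
    apply Function.Embedding.nonempty_of_card_le
    simp only [Fintype.card_fin, Fintype.card_coe]
    omega
  obtain ⟨e⟩ := h1
  obtain ⟨i, j, hij, hK⟩ := H.hq x y hxy (fun i => (e i : P))
  exact hT _ (e i).2 _ (e j).2 (fun h => hij (e.injective (Subtype.ext h))) hK

lemma off_plane (h : ¬ S.C a b c) : ∃ o, ¬ S.K a b c o := by
  by_contra hall
  push Not at hall
  obtain ⟨a0, b0, c0, d0, h0⟩ := H.h4
  have hn : ¬ S.C a0 b0 c0 := fun h => h0 (kC h)
  exact h0 ((ex h (hall a0) (hall b0) (hall c0) hn).2 (hall d0))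

lemma off_line (hxy : x ≠ y) : ∃ o, ¬ S.C x y o := by
  by_contra hall
  push Not at hall
  obtain ⟨a0, b0, c0, d0, h0⟩ := H.h4
  exact h0 (kC (line3 hxy (hall a0) (hall b0) (hall c0)))

lemma lines_in_plane (h : ¬ S.C a b c) (hx : S.K a b c x) (T : Finset P)
    (hT : ∀ z ∈ T, S.K a b c z) (hp : ∀ z ∈ T, ∀ w ∈ T, z ≠ w → ¬ S.C x z w) :
    T.card ≤ q + 1 := by
  obtain ⟨o, ho⟩ := off_plane H h
  have hxo : x ≠ o := by rintro rfl; exact ho hx
  apply hqF H hxo
  intro z hz w hw hzw hK
  have hn := hp z hz w hw hzw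
  have h1 : S.K x z w o := by
    have : S.K x o z w := hK
    exact k34 (k23 this)
  exact ho ((ex h hx (hT z hz) (hT w hw) hn).1 h1)

open Classical in
lemma line_card_le (hxy : x ≠ y) : (univ.filter (fun v => S.C x y v)).card ≤ q + 1 := by
  obtain ⟨o, ho⟩ := off_line H hxy
  have hn : ¬ S.C o x y := n312 ho
  apply lines_in_plane H hn (kx o x y)
  · intro z hz
    have hz' : S.C x y z := (Finset.mem_filter.1 hz).2
    have : S.K x y z o := kC hz'
    have h2 : S.K x y o z := k34 this
    exact k312.1 h2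
  · intro z hz w hw hzw hC
    have hz' : S.C x y z := (Finset.mem_filter.1 hz).2
    have hw' : S.C x y w := (Finset.mem_filter.1 hw).2
    exact ho ((line_eq hxy hzw hz' hw').1 (c231 hC))

open Classical in
lemma plane_minus_line (h : ¬ S.C x y z) :
    (univ.filter (fun v => S.K x y z v ∧ ¬ S.C x y v)).card ≤ q * q := by
  apply cover (fun u v => S.C x u v) (fun u v huv => c132 huv) (fun u => cxyy x u)
  · intro t ht
    have ht' := (Finset.mem_filter.1 ht).2
    have hxt : x ≠ t := ne13 ht'.2
    have h1 := line_card_le H hxt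
    have hsub : (univ.filter (fun v => S.K x y z v ∧ ¬ S.C x y v)).filter (fun v => S.C x t v) ⊆
        (univ.filter (fun v => S.C x t v)).erase x := by
      intro v hv
      simp only [Finset.mem_filter, Finset.mem_univ, true_and, Finset.mem_erase] at hv ⊢
      exact ⟨(ne13 hv.1.2).symm, hv.2⟩
    have h2 := Finset.card_le_card hsub
    rw [Finset.card_erase_of_mem (by simp [cxyx])] at h2
    omega
  · intro T hT hp
    have hyT : y ∉ T := fun hy => (Finset.mem_filter.1 (hT hy)).2.2 (cxyy x y)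
    have h1 := lines_in_plane H h (kx x y z) (insert y T) (by
        intro v hv
        rcases Finset.mem_insert.1 hv with rfl | hv
        · exact ky x v z
        · exact (Finset.mem_filter.1 (hT hv)).2.1) (by
        intro u hu v hv huv
        rcases Finset.mem_insert.1 hu with hu1 | hu1 <;>
          rcases Finset.mem_insert.1 hv with hv1 | hv1
        · exact absurd (hu1.trans hv1.symm) huv
        · rw [hu1]; exact (Finset.mem_filter.1 (hT hv1)).2.2
        · rw [hv1]; exact n132 (Finset.mem_filter.1 (hT hu1)).2.2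
        · exact hp u hu1 v hv1 huv)
    rw [Finset.card_insert_of_notMem hyT] at h1
    omega

open Classical in
lemma rest_card (h : ¬ S.C x y z) :
    (univ.filter (fun v => ¬ S.K x y z v)).card ≤ q * (q * q) := by
  apply cover (fun u v => S.K x y u v) (fun u v huv => k34 huv) (fun u => kz x y u)
  · intro t ht
    have ht' : ¬ S.K x y z t := (Finset.mem_filter.1 ht).2
    have hn : ¬ S.C x y t := fun hC => ht' (k34 (kC hC))
    refine le_trans (Finset.card_le_card ?_) (plane_minus_line H hn)
    intro v hv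
    simp only [Finset.mem_filter, Finset.mem_univ, true_and] at hv ⊢
    exact ⟨hv.2, fun hC => hv.1 (k34 (kC hC))⟩
  · intro T hT hp
    have hzT : z ∉ T := fun hz => (Finset.mem_filter.1 (hT hz)).2 (kz x y z)
    have h1 := hqF H (ne12 h) (insert z T) (by
        intro u hu v hv huv
        rcases Finset.mem_insert.1 hu with hu1 | hu1 <;>
          rcases Finset.mem_insert.1 hv with hv1 | hv1
        · exact absurd (hu1.trans hv1.symm) huv
        · rw [hu1]; exact (Finset.mem_filter.1 (hT hv1)).2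
        · rw [hv1]; exact fun hK => (Finset.mem_filter.1 (hT hu1)).2 (k34 hK)
        · exact hp u hu1 v hv1 huv)
    rw [Finset.card_insert_of_notMem hzT] at h1
    omega

open Classical in
lemma card_split (h : ¬ S.C x y z) :
    Fintype.card P = (univ.filter (fun v => S.C x y v)).card +
      (univ.filter (fun v => S.K x y z v ∧ ¬ S.C x y v)).card +
      (univ.filter (fun v => ¬ S.K x y z v)).card := by
  have h1 : (univ : Finset P).card = (univ.filter (fun v => S.K x y z v)).card +
      (univ.filter (fun v => ¬ S.K x y z v)).card :=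
    (Finset.card_filter_add_card_filter_not (s := (univ : Finset P)) (fun v => S.K x y z v)).symm
  have h2 : (univ.filter (fun v => S.K x y z v)).card =
      (univ.filter (fun v => S.C x y v)).card +
      (univ.filter (fun v => S.K x y z v ∧ ¬ S.C x y v)).card := by
    rw [← Finset.card_filter_add_card_filter_not (s := univ.filter (fun v => S.K x y z v))
      (fun v => S.C x y v), Finset.filter_filter, Finset.filter_filter]
    congr 2
    ext v
    simp only [Finset.mem_filter, Finset.mem_univ, true_and]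
    exact ⟨fun hv => hv.2, fun hv => ⟨k34 (kC hv), hv⟩⟩
  rw [← Finset.card_univ, h1, h2]

open Classical in
lemma exact_counts (h : ¬ S.C x y z) :
    (univ.filter (fun v => S.C x y v)).card = q + 1 ∧
    (univ.filter (fun v => S.K x y z v ∧ ¬ S.C x y v)).card = q * q ∧
    Fintype.card P = q ^ 3 + q ^ 2 + q + 1 := by
  have h1 := line_card_le H (ne12 h)
  have h2 := plane_minus_line H h
  have h3 := rest_card H h
  have h4 := card_split H h
  have h5 := H.card
  have e1 : q ^ 3 = q * (q * q) := by ring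
  have e2 : q ^ 2 = q * q := by ring
  rw [e1, e2] at h5 ⊢
  generalize hA : q * (q * q) = A at *
  generalize hB : q * q = B at *
  refine ⟨by omega, by omega, by omega⟩

open Classical in
lemma line_card (hxy : x ≠ y) : (univ.filter (fun v => S.C x y v)).card = q + 1 := by
  obtain ⟨o, ho⟩ := off_line H hxy
  exact (exact_counts H ho).1

open Classical in
lemma plane_card (h : ¬ S.C x y z) :
    (univ.filter (fun v => S.K x y z v)).card = q * q + q + 1 := by
  have h1 := exact_counts H h
  have h2 : (univ.filter (fun v => S.K x y z v)).card =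
      (univ.filter (fun v => S.C x y v)).card +
      (univ.filter (fun v => S.K x y z v ∧ ¬ S.C x y v)).card := by
    rw [← Finset.card_filter_add_card_filter_not (s := univ.filter (fun v => S.K x y z v))
      (fun v => S.C x y v), Finset.filter_filter, Finset.filter_filter]
    congr 2
    ext v
    simp only [Finset.mem_filter, Finset.mem_univ, true_and]
    exact ⟨fun hv => hv.2, fun hv => ⟨k34 (kC hv), hv⟩⟩
  rw [h2, h1.1, h1.2.1]; ring

open Classical in
/-- every line meets every plane -/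
lemma meet_plane (h : ¬ S.C a b c) (hxy : x ≠ y) : ∃ z, S.K a b c z ∧ S.C x y z := by
  by_contra hno
  push Not at hno
  have hx : ¬ S.K a b c x := fun hK => hno x hK (cxyx x y)
  have hy : ¬ S.K a b c y := fun hK => hno y hK (cxyy x y)
  set T : Finset P := insert y (univ.filter (fun v => S.K a b c v)) with hT
  have hTc : T.card = q * q + q + 2 := by
    rw [hT, Finset.card_insert_of_notMem (by simp [hy]), plane_card H h]
  have hTx : ∀ t ∈ T, x ≠ t := by
    intro t ht
    rcases Finset.mem_insert.1 ht with rfl | ht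
    · exact hxy
    · rintro rfl; exact hx (Finset.mem_filter.1 ht).2
  have hdis : (T : Set P).PairwiseDisjoint
      (fun t => (univ.filter (fun v => S.C x t v)).erase x) := by
    intro t ht t' ht' htt
    rw [Function.onFun, Finset.disjoint_left]
    intro v hv hv'
    simp only [Finset.mem_erase, Finset.mem_filter, Finset.mem_univ, true_and] at hv hv'
    have hC : S.C x t t' := S.C_tr x v t t' (Ne.symm hv.1) (c132 hv.2) (c132 hv'.2)
    rcases Finset.mem_insert.1 (Finset.mem_coe.1 ht) with rfl | ht1 <;>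
      rcases Finset.mem_insert.1 (Finset.mem_coe.1 ht') with rfl | ht2
    · exact htt rfl
    · exact hno t' (Finset.mem_filter.1 ht2).2 hC
    · exact hno t (Finset.mem_filter.1 ht1).2 (c132 hC)
    · exact hx (line_in_plane h (Finset.mem_filter.1 ht1).2 (Finset.mem_filter.1 ht2).2 htt
        (c231 hC))
  have h1 : (T.biUnion (fun t => (univ.filter (fun v => S.C x t v)).erase x)).card = T.card * q := by
    rw [Finset.card_biUnion hdis]
    rw [Finset.sum_congr rfl (fun t ht => ?_), Finset.sum_const, smul_eq_mul]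
    rw [Finset.card_erase_of_mem (by simp [cxyx]), line_card H (hTx t ht)]
    rfl
  have h2 : (T.biUnion (fun t => (univ.filter (fun v => S.C x t v)).erase x)) ⊆
      (univ : Finset P).erase x := by
    intro v hv
    obtain ⟨t, ht, hv⟩ := Finset.mem_biUnion.1 hv
    exact Finset.mem_erase.2 ⟨(Finset.mem_erase.1 hv).1, Finset.mem_univ _⟩
  have h3 := Finset.card_le_card h2
  rw [h1, Finset.card_erase_of_mem (Finset.mem_univ _), Finset.card_univ,
    (exact_counts H h).2.2, hTc] at h3
  have hq := H.q2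
  have e : (q * q + q + 2) * q = q ^ 3 + q ^ 2 + q + q := by ring
  rw [e] at h3
  omega

/-- coplanar lines meet -/
lemma meet_lines (h : ¬ S.C a b c) (hxy : x ≠ y) (hzw : z ≠ w) (hx : S.K a b c x)
    (hy : S.K a b c y) (hz : S.K a b c z) (hw : S.K a b c w) :
    ∃ v, S.C x y v ∧ S.C z w v := by
  obtain ⟨o, ho⟩ := off_plane H h
  have hn : ¬ S.C o z w := fun hC => ho (line_in_plane h hz hw hzw (c231 hC))
  obtain ⟨v, hv, hv'⟩ := meet_plane H hn hxy
  refine ⟨v, hv', ?_⟩
  by_contra hC
  have hvp : S.K a b c v := line_in_plane h hx hy hxy hv'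
  -- plane z w v = plane a b c and = plane o z w
  have h1 : S.K z w v o ↔ S.K a b c o := ex h hz hw hvp hC
  have h2 : S.K z w v o ↔ S.K o z w o := ex hn (ky o z w) (kz o z w) hv hC
  exact ho (h1.1 (h2.2 (kx o z w)))

end counting

end Sp

end Pool.Agent.DCP5
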