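import Pool.Agent.DCS.Re
import Pool.Agent.DCP5.Space
import Pool.Agent.DCP5.Gr

/-!
# DCP5: the union bound

If there are few cherries at the levels `s + 1`, `s + 2`, few tuples of `q + 2` pairwise unrelated vertices
at the level `s + 2`, and many tuples of `N` pairwise unrelated vertices at the level `s`, then some of the
latter contain nothing of the former: `J + x + y + z` dependent and `J + x + y + z + w` dependent are the
collinearity and the coplanarity of a geometry on the `N` points, with at most `q + 1` planes through a line.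
-/

set_option linter.unusedSectionVars false

namespace Pool.Agent.DCP5

open Finset Pool.Agent.Helper2.DC Pool.Agent.DCS

variable {V : Type} [Fintype V] [DecidableEq V]

private theorem uni_fib {r N : ℕ} (σ : Fin r → Fin N) (hσ : Function.Injective σ)
    (S : Finset (Fin r → V)) :
    ((univ : Finset (Fin N → V)).filter (fun T : Fin N → V => T ∘ σ ∈ S)).card ≤
      S.card * (Fintype.card V) ^ (N - r) := by
  classical
  have hcard : Fintype.card {i : Fin N // ¬ i ∈ Set.range σ} = N - r := by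
    rw [Fintype.card_subtype_compl, Fintype.card_fin]
    congr 1
    have h := Set.card_range_of_injective hσ
    rw [Fintype.card_fin] at h
    exact h
  let f : (Fin N → V) → (Fin r → V) × ({i : Fin N // ¬ i ∈ Set.range σ} → V) :=
    fun T => (T ∘ σ, fun i => T i.1)
  have hf : Function.Injective f := by
    intro T T' h
    have h1 : T ∘ σ = T' ∘ σ := congrArg Prod.fst h
    have h2 : (fun i : {i : Fin N // ¬ i ∈ Set.range σ} => T i.1) = fun i => T' i.1 :=
      congrArg Prod.snd h
    funext i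
    by_cases hi : i ∈ Set.range σ
    · obtain ⟨j, rfl⟩ := hi
      exact congrFun h1 j
    · exact congrFun h2 ⟨i, hi⟩
  calc ((univ : Finset (Fin N → V)).filter (fun T : Fin N → V => T ∘ σ ∈ S)).card
      ≤ (S ×ˢ (univ : Finset ({i : Fin N // ¬ i ∈ Set.range σ} → V))).card := by
        refine Finset.card_le_card_of_injOn f (fun T hT => ?_) (hf.injOn)
        rw [mem_coe, mem_filter] at hT
        rw [mem_coe, mem_product]
        exact ⟨hT.2, mem_univ _⟩
    _ = S.card * (Fintype.card V) ^ (N - r) := by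
        rw [card_product, card_univ, Fintype.card_fun, hcard]

/-- the tuples whose first member extends `J` and whose other members are in `G (J + first)` -/
noncomputable def Ue (H : Finset (Finset V)) {r : ℕ} (G : Finset V → Finset (Fin r → V))
    (J : Finset V) : Finset (Fin (r + 1) → V) :=
  univ.filter (fun u => u 0 ∈ ext H J ∧ Fin.tail u ∈ G (insert (u 0) J))

private theorem uni_Ue {H : Finset (Finset V)} {r : ℕ} {G : Finset V → Finset (Fin r → V)}
    {J : Finset V} {u : Fin (r + 1) → V} :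
    u ∈ Ue H G J ↔ u 0 ∈ ext H J ∧ Fin.tail u ∈ G (insert (u 0) J) := by
  unfold Ue
  rw [mem_filter]
  exact ⟨fun h => h.2, fun h => ⟨mem_univ _, h⟩⟩

private theorem uni_card {H : Finset (Finset V)} {r : ℕ} (G : Finset V → Finset (Fin r → V))
    (J : Finset V) : ((Ue H G J).card : ℝ) ≤ ∑ v ∈ ext H J, ((G (insert v J)).card : ℝ) := by
  classical
  have h : (Ue H G J).card ≤ ((ext H J).sigma (fun v => G (insert v J))).card := by
    refine Finset.card_le_card_of_injOn (fun u => ⟨u 0, Fin.tail u⟩) (fun u hu => ?_)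
      (fun u _ u' _ h => ?_)
    · rw [mem_coe, uni_Ue] at hu
      rw [mem_coe, mem_sigma]
      exact hu
    · have h0 : u 0 = u' 0 := congrArg Sigma.fst h
      have h1 : Fin.tail u = Fin.tail u' := congrArg (fun p : (_ : V) × (Fin r → V) => p.2) h
      rw [← Fin.cons_self_tail u, ← Fin.cons_self_tail u', h0, h1]
  rw [card_sigma] at h
  exact_mod_cast h

private theorem uni_sum (H : Finset (Finset V)) (s : ℕ) {r : ℕ}
    (G : Finset V → Finset (Fin r → V)) :
    ∑ J ∈ ind H s, ((Ue H G J).card : ℝ) ≤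
      ((s : ℝ) + 1) * ∑ J ∈ ind H (s + 1), ((G J).card : ℝ) := by
  rw [← re_sum H s (fun J => ((G J).card : ℝ))]
  exact sum_le_sum fun J _ => uni_card G J

private theorem uni_NI (H : Finset (Finset V)) (s : ℕ) :
    ((s : ℝ) + 1) * NI H (s + 1) ≤ (Fintype.card V : ℝ) * NI H s := by
  have h := re_sum H s (fun _ => (1 : ℝ))
  rw [sum_const, nsmul_eq_mul, mul_one] at h
  unfold NI
  rw [← h]
  have h1 : ∀ J ∈ ind H s, (∑ _x ∈ ext H J, (1 : ℝ)) ≤ (Fintype.card V : ℝ) := by
    intro J _
    rw [sum_const, nsmul_eq_mul, mul_one]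
    exact_mod_cast card_le_univ _
  refine (sum_le_sum h1).trans ?_
  rw [sum_const, nsmul_eq_mul]
  linarith

/-- the cherries over `J` as triples -/
noncomputable def Uc (H : Finset (Finset V)) (J : Finset V) : Finset (Fin 3 → V) :=
  univ.filter (fun u => u 0 ∈ ext H J ∧ u 1 ∈ nnl (ext H J) (Re H J) (u 0) ∧
    u 2 ∈ nbl (ext H J) (Re H J) (u 0) ∩ nbl (ext H J) (Re H J) (u 1))

private theorem uni_cr (H : Finset (Finset V)) (J : Finset V) :
    ((Uc H J).card : ℝ) ≤ Cr H J := by
  classical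
  have h : (Uc H J).card ≤ ((ext H J).sigma (fun x => (nnl (ext H J) (Re H J) x).sigma
      (fun y => nbl (ext H J) (Re H J) x ∩ nbl (ext H J) (Re H J) y))).card := by
    refine Finset.card_le_card_of_injOn (fun u => ⟨u 0, ⟨u 1, u 2⟩⟩) (fun u hu => ?_)
      (fun u _ u' _ h => ?_)
    · rw [mem_coe] at hu
      unfold Uc at hu
      rw [mem_filter] at hu
      rw [mem_coe, mem_sigma]
      refine ⟨hu.2.1, ?_⟩
      rw [mem_sigma]
      exact ⟨hu.2.2.1, hu.2.2.2⟩
    · have h0 : u 0 = u' 0 := congrArg Sigma.fst h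
      have h1 : u 1 = u' 1 := congrArg (fun p : (_ : V) × (_ : V) × V => p.2.1) h
      have h2 : u 2 = u' 2 := congrArg (fun p : (_ : V) × (_ : V) × V => p.2.2) h
      funext i
      fin_cases i
      · exact h0
      · exact h1
      · exact h2
  rw [card_sigma] at h
  unfold Cr
  have h3 : ∀ x ∈ ext H J, ((nnl (ext H J) (Re H J) x).sigma
      (fun y => nbl (ext H J) (Re H J) x ∩ nbl (ext H J) (Re H J) y)).card =
      ∑ y ∈ nnl (ext H J) (Re H J) x,
        (nbl (ext H J) (Re H J) x ∩ nbl (ext H J) (Re H J) y).card := by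
    intro x _
    rw [card_sigma]
  rw [sum_congr rfl h3] at h
  exact_mod_cast h

/-- the number of the tuples which are hit -/
private theorem uni_hit {N r : ℕ} (S : Finset (Fin r → V)) :
    ((((univ : Finset (Fin N → V)).filter
      (fun T => ∃ σ : Fin r → Fin N, Function.Injective σ ∧ T ∘ σ ∈ S)).card : ℕ) : ℝ) ≤
      (N : ℝ) ^ r * ((Fintype.card V : ℝ) ^ (N - r) * (S.card : ℝ)) := by
  classical
  have h : ((univ : Finset (Fin N → V)).filter
      (fun T => ∃ σ : Fin r → Fin N, Function.Injective σ ∧ T ∘ σ ∈ S)) ⊆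
      ((univ : Finset (Fin r → Fin N)).filter Function.Injective).biUnion
        (fun σ => (univ : Finset (Fin N → V)).filter (fun T => T ∘ σ ∈ S)) := by
    intro T hT
    rw [mem_filter] at hT
    obtain ⟨_, σ, h1, h2⟩ := hT
    rw [mem_biUnion]
    exact ⟨σ, by rw [mem_filter]; exact ⟨mem_univ _, h1⟩,
      by rw [mem_filter]; exact ⟨mem_univ _, h2⟩⟩
  have h1 := (card_le_card h).trans card_biUnion_le
  have h2 : ∀ σ ∈ (univ : Finset (Fin r → Fin N)).filter Function.Injective,
      ((univ : Finset (Fin N → V)).filter (fun T => T ∘ σ ∈ S)).card ≤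
        S.card * (Fintype.card V) ^ (N - r) := by
    intro σ hσ
    exact uni_fib σ (mem_filter.1 hσ).2 S
  have h3 := sum_le_sum h2
  rw [sum_const, smul_eq_mul] at h3
  have h4 : ((univ : Finset (Fin r → Fin N)).filter Function.Injective).card ≤ N ^ r := by
    refine (card_le_univ _).trans ?_
    rw [Fintype.card_fun, Fintype.card_fin, Fintype.card_fin]
  have h5 := (h1.trans h3).trans (Nat.mul_le_mul_right _ h4)
  have h6 : (((((univ : Finset (Fin N → V)).filter
      (fun T => ∃ σ : Fin r → Fin N, Function.Injective σ ∧ T ∘ σ ∈ S)).card : ℕ)) : ℝ) ≤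
      ((N ^ r * (S.card * Fintype.card V ^ (N - r)) : ℕ) : ℝ) := by exact_mod_cast h5
  refine h6.trans (le_of_eq ?_)
  push_cast
  ring

/-- the sum over all `J` -/
private theorem uni_tot {N r : ℕ} (H : Finset (Finset V)) (s : ℕ) (S : Finset V → Finset (Fin r → V))
    (hr : r ≤ N) {b : ℝ} (hS : ∑ J ∈ ind H s, ((S J).card : ℝ) ≤
      b * (Fintype.card V : ℝ) ^ r * NI H s) :
    ∑ J ∈ ind H s, ((((univ : Finset (Fin N → V)).filter
      (fun T => ∃ σ : Fin r → Fin N, Function.Injective σ ∧ T ∘ σ ∈ S J)).card : ℕ) : ℝ) ≤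
      (N : ℝ) ^ r * (b * (Fintype.card V : ℝ) ^ N * NI H s) := by
  refine (sum_le_sum fun J _ => uni_hit (N := N) (S J)).trans ?_
  rw [← mul_sum, ← mul_sum]
  refine mul_le_mul_of_nonneg_left ?_ (by positivity)
  have h1 : (Fintype.card V : ℝ) ^ N = (Fintype.card V : ℝ) ^ (N - r) * (Fintype.card V : ℝ) ^ r := by
    rw [← pow_add]
    congr 1
    omega
  calc (Fintype.card V : ℝ) ^ (N - r) * ∑ J ∈ ind H s, ((S J).card : ℝ)
      ≤ (Fintype.card V : ℝ) ^ (N - r) * (b * (Fintype.card V : ℝ) ^ r * NI H s) :=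
        mul_le_mul_of_nonneg_left hS (by positivity)
    _ = b * (Fintype.card V : ℝ) ^ N * NI H s := by rw [h1]; ring

/-- the tuples of pairwise unrelated vertices, above `J` plus two vertices -/
noncomputable def Ut (H : Finset (Finset V)) (q : ℕ) (J : Finset V) : Finset (Fin (q + 2) → V) :=
  Tup (ext H J) (Re H J) (q + 2)

private theorem uni_exists {H : Finset (Finset V)} {s q N : ℕ} (hN : q + 4 ≤ N) (hN5 : 5 ≤ N)
    {b : ℝ} (F : Finset V → Finset (Fin N → V))
    (h1 : ∑ J ∈ ind H (s + 1), Cr H J ≤ b * (Fintype.card V : ℝ) ^ 3 * NI H (s + 1))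
    (h2 : ∑ J ∈ ind H (s + 2), Cr H J ≤ b * (Fintype.card V : ℝ) ^ 3 * NI H (s + 2))
    (h3 : ∑ J ∈ ind H (s + 2), ((Tup (ext H J) (Re H J) (q + 2)).card : ℝ) ≤
      b * (Fintype.card V : ℝ) ^ (q + 2) * NI H (s + 2)) (hb : 0 ≤ b)
    (h4 : ((N : ℝ) ^ 4 + (N : ℝ) ^ 5 + (N : ℝ) ^ (q + 4)) *
      (b * (Fintype.card V : ℝ) ^ N * NI H s) < ∑ J ∈ ind H s, ((F J).card : ℝ)) :
    ∃ J ∈ ind H s, ∃ T ∈ F J,
      (∀ σ : Fin 4 → Fin N, Function.Injective σ → T ∘ σ ∉ Ue H (Uc H) J) ∧
      (∀ σ : Fin 5 → Fin N, Function.Injective σ → T ∘ σ ∉ Ue H (Ue H (Uc H)) J) ∧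
      (∀ σ : Fin (q + 4) → Fin N, Function.Injective σ → T ∘ σ ∉ Ue H (Ue H (Ut H q)) J) := by
  classical
  have hn : (0 : ℝ) ≤ (Fintype.card V : ℝ) := Nat.cast_nonneg _
  have hs0 : (0 : ℝ) ≤ (s : ℝ) := Nat.cast_nonneg _
  have e1 := uni_NI H s
  have e2 := uni_NI H (s + 1)
  push_cast at e2
  have hNI1 := NI_nonneg H (s + 1)
  have hNI0 := NI_nonneg H s
  -- the first event
  have A : ∑ J ∈ ind H s, ((Ue H (Uc H) J).card : ℝ) ≤
      b * (Fintype.card V : ℝ) ^ 4 * NI H s := by
    have a1 := uni_sum H s (Uc H)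
    have a2 : ∑ J ∈ ind H (s + 1), ((Uc H J).card : ℝ) ≤
        b * (Fintype.card V : ℝ) ^ 3 * NI H (s + 1) :=
      (sum_le_sum fun J _ => uni_cr H J).trans h1
    calc ∑ J ∈ ind H s, ((Ue H (Uc H) J).card : ℝ)
        ≤ ((s : ℝ) + 1) * (b * (Fintype.card V : ℝ) ^ 3 * NI H (s + 1)) :=
          a1.trans (mul_le_mul_of_nonneg_left a2 (by positivity))
      _ = b * (Fintype.card V : ℝ) ^ 3 * (((s : ℝ) + 1) * NI H (s + 1)) := by ring
      _ ≤ b * (Fintype.card V : ℝ) ^ 3 * ((Fintype.card V : ℝ) * NI H s) :=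
          mul_le_mul_of_nonneg_left e1 (by positivity)
      _ = b * (Fintype.card V : ℝ) ^ 4 * NI H s := by ring
  have two : ∀ {r : ℕ} (G : Finset V → Finset (Fin r → V)),
      ∑ J ∈ ind H (s + 2), ((G J).card : ℝ) ≤ b * (Fintype.card V : ℝ) ^ r * NI H (s + 2) →
      ∑ J ∈ ind H s, ((Ue H (Ue H G) J).card : ℝ) ≤
        b * (Fintype.card V : ℝ) ^ (r + 2) * NI H s := by
    intro r G hG
    have a1 := uni_sum H s (Ue H G)
    have a2 := uni_sum H (s + 1) G
    push_cast at a2
    calc ∑ J ∈ ind H s, ((Ue H (Ue H G) J).card : ℝ)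
        ≤ ((s : ℝ) + 1) * (((s : ℝ) + 1 + 1) * (b * (Fintype.card V : ℝ) ^ r * NI H (s + 2))) := by
          refine a1.trans (mul_le_mul_of_nonneg_left (a2.trans ?_) (by positivity))
          exact mul_le_mul_of_nonneg_left hG (by positivity)
      _ = b * (Fintype.card V : ℝ) ^ r * (((s : ℝ) + 1) *
            (((s : ℝ) + 1 + 1) * NI H (s + 1 + 1))) := by ring
      _ ≤ b * (Fintype.card V : ℝ) ^ r * (((s : ℝ) + 1) *
            ((Fintype.card V : ℝ) * NI H (s + 1))) := by
          refine mul_le_mul_of_nonneg_left ?_ (by positivity)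
          exact mul_le_mul_of_nonneg_left e2 (by positivity)
      _ = b * (Fintype.card V : ℝ) ^ r * ((Fintype.card V : ℝ) *
            (((s : ℝ) + 1) * NI H (s + 1))) := by ring
      _ ≤ b * (Fintype.card V : ℝ) ^ r * ((Fintype.card V : ℝ) *
            ((Fintype.card V : ℝ) * NI H s)) := by
          refine mul_le_mul_of_nonneg_left ?_ (by positivity)
          exact mul_le_mul_of_nonneg_left e1 hn
      _ = b * (Fintype.card V : ℝ) ^ (r + 2) * NI H s := by ring
  have B := two (Uc H) ((sum_le_sum fun J _ => uni_cr H J).trans h2)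
  have C := two (Ut H q) h3
  have tA := uni_tot (N := N) H s (Ue H (Uc H)) (by omega) A
  have tB := uni_tot (N := N) H s (Ue H (Ue H (Uc H))) (by omega) B
  have tC := uni_tot (N := N) H s (Ue H (Ue H (Ut H q))) (by omega) C
  by_contra hcon
  push Not at hcon
  have hle : ∀ J ∈ ind H s, ((F J).card : ℝ) ≤
      ((((univ : Finset (Fin N → V)).filter
        (fun T => ∃ σ : Fin 4 → Fin N, Function.Injective σ ∧ T ∘ σ ∈ Ue H (Uc H) J)).card : ℕ) : ℝ)
      + ((((univ : Finset (Fin N → V)).filter (fun T => ∃ σ : Fin 5 → Fin N,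
          Function.Injective σ ∧ T ∘ σ ∈ Ue H (Ue H (Uc H)) J)).card : ℕ) : ℝ)
      + ((((univ : Finset (Fin N → V)).filter (fun T => ∃ σ : Fin (q + 4) → Fin N,
          Function.Injective σ ∧ T ∘ σ ∈ Ue H (Ue H (Ut H q)) J)).card : ℕ) : ℝ) := by
    intro J hJ
    have hsub : F J ⊆ (((univ : Finset (Fin N → V)).filter
        (fun T => ∃ σ : Fin 4 → Fin N, Function.Injective σ ∧ T ∘ σ ∈ Ue H (Uc H) J)) ∪
        ((univ : Finset (Fin N → V)).filter (fun T => ∃ σ : Fin 5 → Fin N,
          Function.Injective σ ∧ T ∘ σ ∈ Ue H (Ue H (Uc H)) J))) ∪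
        ((univ : Finset (Fin N → V)).filter (fun T => ∃ σ : Fin (q + 4) → Fin N,
          Function.Injective σ ∧ T ∘ σ ∈ Ue H (Ue H (Ut H q)) J)) := by
      intro T hT
      rw [mem_union, mem_union, mem_filter, mem_filter, mem_filter]
      by_cases g1 : ∃ σ : Fin 4 → Fin N, Function.Injective σ ∧ T ∘ σ ∈ Ue H (Uc H) J
      · exact Or.inl (Or.inl ⟨mem_univ _, g1⟩)
      by_cases g2 : ∃ σ : Fin 5 → Fin N, Function.Injective σ ∧ T ∘ σ ∈ Ue H (Ue H (Uc H)) J
      · exact Or.inl (Or.inr ⟨mem_univ _, g2⟩)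
      push Not at g1 g2
      obtain ⟨σ, g3, g4⟩ := hcon J hJ T hT g1 g2
      exact Or.inr ⟨mem_univ _, σ, g3, g4⟩
    have h5 := (card_le_card hsub).trans ((card_union_le _ _).trans
      (Nat.add_le_add_right (card_union_le _ _) _))
    exact_mod_cast h5
  have h6 := sum_le_sum hle
  rw [sum_add_distrib, sum_add_distrib] at h6
  have h7 : ((N : ℝ) ^ 4 + (N : ℝ) ^ 5 + (N : ℝ) ^ (q + 4)) *
      (b * (Fintype.card V : ℝ) ^ N * NI H s) =
      (N : ℝ) ^ 4 * (b * (Fintype.card V : ℝ) ^ N * NI H s) +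
      (N : ℝ) ^ 5 * (b * (Fintype.card V : ℝ) ^ N * NI H s) +
      (N : ℝ) ^ (q + 4) * (b * (Fintype.card V : ℝ) ^ N * NI H s) := by ring
  have tB' : ∑ J ∈ ind H s, ((((univ : Finset (Fin N → V)).filter (fun T => ∃ σ : Fin 5 → Fin N,
          Function.Injective σ ∧ T ∘ σ ∈ Ue H (Ue H (Uc H)) J)).card : ℕ) : ℝ) ≤
      (N : ℝ) ^ 5 * (b * (Fintype.card V : ℝ) ^ N * NI H s) := tB
  have tC' : ∑ J ∈ ind H s, ((((univ : Finset (Fin N → V)).filter (fun T => ∃ σ : Fin (q + 4) → Fin N,
          Function.Injective σ ∧ T ∘ σ ∈ Ue H (Ue H (Ut H q)) J)).card : ℕ) : ℝ) ≤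
      (N : ℝ) ^ (q + 4) * (b * (Fintype.card V : ℝ) ^ N * NI H s) := tC
  have tA' : ∑ J ∈ ind H s, ((((univ : Finset (Fin N → V)).filter (fun T => ∃ σ : Fin 4 → Fin N,
          Function.Injective σ ∧ T ∘ σ ∈ Ue H (Uc H) J)).card : ℕ) : ℝ) ≤
      (N : ℝ) ^ 4 * (b * (Fintype.card V : ℝ) ^ N * NI H s) := tA
  linarith

private theorem uni_Tup {X : Finset V} {R : V → V → Prop} {t : ℕ} {x : Fin t → V} :
    x ∈ Tup X R t ↔ (∀ i, x i ∈ X) ∧ ∀ i j, i < j → ¬ R (x i) (x j) := by
  classical
  unfold Tup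
  rw [mem_filter, Fintype.mem_piFinset]

/-- no cherries above a set `L` -/
private theorem uni_eq {H : Finset (Finset V)} {L : Finset V} {N : ℕ} {T : Fin N → V}
    (hT : Function.Injective T)
    (h : ∀ τ : Fin 3 → Fin N, Function.Injective τ → (∀ i, T (τ i) ∈ ext H L) → T ∘ τ ∉ Uc H L)
    {x y z : Fin N} (hx : T x ∈ ext H L) (hy : T y ∈ ext H L) (hz : T z ∈ ext H L)
    (h1 : Re H L (T x) (T y)) (h2 : Re H L (T x) (T z)) : Re H L (T y) (T z) := by
  by_contra h3
  have hyz : y ≠ z := by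
    rintro rfl
    exact h3 (Or.inl rfl)
  have hyx : y ≠ x := by
    rintro rfl
    exact h3 h2
  have hzx : z ≠ x := by
    rintro rfl
    exact h3 (Re_symm h1)
  have hinj : Function.Injective (![y, z, x] : Fin 3 → Fin N) := by
    intro a b hab
    fin_cases a <;> fin_cases b
    · rfl
    · exact absurd hab hyz
    · exact absurd hab hyx
    · exact absurd hab.symm hyz
    · rfl
    · exact absurd hab hzx
    · exact absurd hab.symm hyx
    · exact absurd hab.symm hzx
    · rfl
  refine h _ hinj (fun i => ?_) ?_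
  · fin_cases i
    · exact hy
    · exact hz
    · exact hx
  · unfold Uc
    rw [mem_filter]
    refine ⟨mem_univ _, hy, ?_, ?_⟩
    · rw [mem_nnl]
      exact ⟨hz, h3⟩
    · rw [mem_inter, mem_nbl, mem_nbl]
      exact ⟨⟨hx, Re_symm h1⟩, ⟨hx, Re_symm h2⟩⟩

/-- the points `T x`, all different, together with `J` -/
private def Un (H : Finset (Finset V)) (J : Finset V) {N : ℕ} (T : Fin N → V) (x y z : Fin N) : Prop :=
  x ≠ y ∧ x ≠ z ∧ y ≠ z ∧ Ind H (insert (T x) (insert (T y) (insert (T z) J)))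

private def Uk (H : Finset (Finset V)) (J : Finset V) {N : ℕ} (T : Fin N → V)
    (x y z w : Fin N) : Prop :=
  x ≠ y ∧ x ≠ z ∧ y ≠ z ∧ x ≠ w ∧ y ≠ w ∧ z ≠ w ∧
    Ind H (insert (T x) (insert (T y) (insert (T z) (insert (T w) J))))

private theorem uni_Un1 {H : Finset (Finset V)} {J : Finset V} {N : ℕ} {T : Fin N → V}
    {x y z : Fin N} (h : Un H J T x y z) : Un H J T y x z := by
  obtain ⟨a, b, c, d⟩ := h
  refine ⟨a.symm, c, b, ?_⟩
  rwa [Finset.insert_comm]

private theorem uni_Un2 {H : Finset (Finset V)} {J : Finset V} {N : ℕ} {T : Fin N → V}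
    {x y z : Fin N} (h : Un H J T x y z) : Un H J T x z y := by
  obtain ⟨a, b, c, d⟩ := h
  refine ⟨b, a, c.symm, ?_⟩
  rwa [Finset.insert_comm (T z) (T y)]

private theorem uni_Uk1 {H : Finset (Finset V)} {J : Finset V} {N : ℕ} {T : Fin N → V}
    {x y z w : Fin N} (h : Uk H J T x y z w) : Uk H J T y x z w := by
  obtain ⟨a, b, c, d, e, f, g⟩ := h
  refine ⟨a.symm, c, b, e, d, f, ?_⟩
  rwa [Finset.insert_comm]

private theorem uni_Uk2 {H : Finset (Finset V)} {J : Finset V} {N : ℕ} {T : Fin N → V}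
    {x y z w : Fin N} (h : Uk H J T x y z w) : Uk H J T x z y w := by
  obtain ⟨a, b, c, d, e, f, g⟩ := h
  refine ⟨b, a, c.symm, d, f, e, ?_⟩
  rwa [Finset.insert_comm (T z) (T y)]

private theorem uni_Uk3 {H : Finset (Finset V)} {J : Finset V} {N : ℕ} {T : Fin N → V}
    {x y z w : Fin N} (h : Uk H J T x y z w) : Uk H J T x y w z := by
  obtain ⟨a, b, c, d, e, f, g⟩ := h
  refine ⟨a, d, e, b, c, f.symm, ?_⟩
  rwa [Finset.insert_comm (T w) (T z)]

private theorem uni_UkUn {H : Finset (Finset V)} {J : Finset V} {N : ℕ} {T : Fin N → V}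
    {x y z w : Fin N} (h : Uk H J T x y z w) : Un H J T x y z := by
  obtain ⟨a, b, c, d, e, f, g⟩ := h
  refine ⟨a, b, c, g.mono ?_⟩
  exact insert_subset_insert _ (insert_subset_insert _ (insert_subset_insert _ (subset_insert _ _)))

/-- the union bound: a configuration of `N` points without any of the bad events -/
theorem uni {H : Finset (Finset V)} {s q N : ℕ} (hq2 : 2 ≤ q) (hN : q ^ 3 + q ^ 2 + q + 1 ≤ N)
    {b : ℝ} (hb : 0 ≤ b) (F : Finset V → Finset (Fin N → V))
    (hF : ∀ J ∈ ind H s, F J ⊆ Tup (ext H J) (Re H J) N)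
    (hQ : ∀ J ∈ ind H s, ∀ T ∈ F J, ∃ x y z w : Fin N,
      x ≠ y ∧ x ≠ z ∧ y ≠ z ∧ x ≠ w ∧ y ≠ w ∧ z ≠ w ∧
      Ind H (insert (T x) (insert (T y) (insert (T z) (insert (T w) J)))))
    (h1 : ∑ J ∈ ind H (s + 1), Cr H J ≤ b * (Fintype.card V : ℝ) ^ 3 * NI H (s + 1))
    (h2 : ∑ J ∈ ind H (s + 2), Cr H J ≤ b * (Fintype.card V : ℝ) ^ 3 * NI H (s + 2))
    (h3 : ∑ J ∈ ind H (s + 2), ((Tup (ext H J) (Re H J) (q + 2)).card : ℝ) ≤
      b * (Fintype.card V : ℝ) ^ (q + 2) * NI H (s + 2))
    (h4 : ((N : ℝ) ^ 4 + (N : ℝ) ^ 5 + (N : ℝ) ^ (q + 4)) *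
      (b * (Fintype.card V : ℝ) ^ N * NI H s) < ∑ J ∈ ind H s, ((F J).card : ℝ)) :
    ∃ S : Sp (Fin N), S.Hyp q := by
  classical
  have hN4 : q + 4 ≤ N := by nlinarith [sq_nonneg q, Nat.zero_le q]
  have hN5 : 5 ≤ N := by omega
  obtain ⟨J, hJ, T, hT, hA, hB, hC⟩ := uni_exists hN4 hN5 F h1 h2 h3 hb h4
  obtain ⟨hTe, hTr⟩ := uni_Tup.1 (hF J hJ hT)
  have hR : ∀ x y, x ≠ y → ¬ Re H J (T x) (T y) := by
    intro x y hxy
    rcases lt_or_gt_of_ne hxy with h | h
    · exact hTr x y h
    · exact fun h' => hTr y x h (Re_symm h')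
  have hinj : Function.Injective T := by
    intro x y hxy
    by_contra h
    exact hR x y h (Or.inl hxy)
  have hI2 : ∀ x y, x ≠ y → Ind H (insert (T x) (insert (T y) J)) := by
    intro x y hxy
    by_contra h
    exact hR x y hxy (Or.inr h)
  have hJn : ∀ x, T x ∉ J := fun x => (mem_ext.1 (hTe x)).1
  have hE1 : ∀ x a, x ≠ a → T x ∈ ext H (insert (T a) J) := by
    intro x a hxa
    rw [mem_ext, mem_insert]
    refine ⟨?_, hI2 x a hxa⟩
    rintro (h | h)
    · exact hxa (hinj h)
    · exact hJn x h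
  have hE1' : ∀ x a, T x ∈ ext H (insert (T a) J) → x ≠ a := by
    intro x a h
    rw [mem_ext, mem_insert] at h
    rintro rfl
    exact h.1 (Or.inl rfl)
  have hE2 : ∀ x y z, Un H J T x y z → T z ∈ ext H (insert (T y) (insert (T x) J)) := by
    rintro x y z ⟨a, b', c, d⟩
    rw [mem_ext, mem_insert, mem_insert]
    refine ⟨?_, ?_⟩
    · rintro (h | h | h)
      · exact c (hinj h.symm)
      · exact b' (hinj h.symm)
      · exact hJn z h
    · have e1 : insert (T z) (insert (T y) (insert (T x) J)) =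
          insert (T x) (insert (T y) (insert (T z) J)) := by
        ext v
        simp only [mem_insert]
        tauto
      rw [e1]
      exact d
  have hE2' : ∀ x y z, T z ∈ ext H (insert (T y) (insert (T x) J)) → z ≠ y ∧ z ≠ x := by
    intro x y z h
    rw [mem_ext, mem_insert, mem_insert] at h
    exact ⟨fun e => h.1 (Or.inl (by rw [e])), fun e => h.1 (Or.inr (Or.inl (by rw [e])))⟩
  -- no cherries over one point
  have hA' : ∀ a x y z, x ≠ a → y ≠ a → z ≠ a → Re H (insert (T a) J) (T x) (T y) →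
      Re H (insert (T a) J) (T x) (T z) → Re H (insert (T a) J) (T y) (T z) := by
    intro a x y z hx hy hz
    refine uni_eq hinj (fun τ hτ hτe hU => ?_) (hE1 x a hx) (hE1 y a hy) (hE1 z a hz)
    refine hA (Fin.cons a τ) ?_ ?_
    · rw [Fin.cons_injective_iff]
      refine ⟨?_, hτ⟩
      rintro ⟨i, hi⟩
      exact hE1' _ _ (hτe i) hi
    · rw [uni_Ue]
      exact ⟨hTe a, hU⟩
  -- no cherries over two points
  have hB' : ∀ a c x y z, a ≠ c → Un H J T a c x → Un H J T a c y → Un H J T a c z →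
      Re H (insert (T c) (insert (T a) J)) (T x) (T y) →
      Re H (insert (T c) (insert (T a) J)) (T x) (T z) →
      Re H (insert (T c) (insert (T a) J)) (T y) (T z) := by
    intro a c x y z hac hx hy hz
    refine uni_eq hinj (fun τ hτ hτe hU => ?_) (hE2 _ _ _ hx) (hE2 _ _ _ hy) (hE2 _ _ _ hz)
    refine hB (Fin.cons a (Fin.cons c τ)) ?_ ?_
    · rw [Fin.cons_injective_iff]
      refine ⟨?_, ?_⟩
      · rintro ⟨i, hi⟩
        refine Fin.cases (fun h => ?_) (fun j h => ?_) i hi
        · exact hac h.symm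
        · exact (hE2' _ _ _ (hτe j)).2 h
      · rw [Fin.cons_injective_iff]
        refine ⟨?_, hτ⟩
        rintro ⟨i, hi⟩
        exact (hE2' _ _ _ (hτe i)).1 hi
    · rw [uni_Ue]
      refine ⟨hTe a, ?_⟩
      rw [uni_Ue]
      exact ⟨hE1 c a hac.symm, hU⟩
  refine ⟨⟨fun x y z => ¬ Un H J T x y z, fun x y z w => ¬ Uk H J T x y z w, ?_, ?_, ?_, ?_, ?_, ?_,
    ?_, ?_, ?_⟩, ⟨hq2, ?_, ?_, ?_⟩⟩
  · rintro x y ⟨h, _⟩
    exact h rfl
  · exact fun x y z h h' => h (uni_Un1 h')
  · exact fun x y z h h' => h (uni_Un2 h')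
  · -- transitivity of the lines
    intro x y z w hxy h1 h2 h3
    have h3' := h3
    obtain ⟨a, b', c, d⟩ := h3
    have hyz : y ≠ z := by
      rintro rfl
      exact h2 h3'
    have hyw : y ≠ w := by
      rintro rfl
      exact h1 (uni_Un2 h3')
    have g1 : Re H (insert (T x) J) (T y) (T z) := by
      right
      intro h
      refine h1 ⟨hxy, a, hyz, ?_⟩
      have e1 : insert (T x) (insert (T y) (insert (T z) J)) =
          insert (T y) (insert (T z) (insert (T x) J)) := by
        ext v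
        simp only [mem_insert]
        tauto
      rw [e1]
      exact h
    have g2 : Re H (insert (T x) J) (T y) (T w) := by
      right
      intro h
      refine h2 ⟨hxy, b', hyw, ?_⟩
      have e1 : insert (T x) (insert (T y) (insert (T w) J)) =
          insert (T y) (insert (T w) (insert (T x) J)) := by
        ext v
        simp only [mem_insert]
        tauto
      rw [e1]
      exact h
    rcases hA' x y z w hxy.symm a.symm b'.symm g1 g2 with g3 | g3
    · exact c (hinj g3)
    · refine g3 ?_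
      have e1 : insert (T z) (insert (T w) (insert (T x) J)) =
          insert (T x) (insert (T z) (insert (T w) J)) := by
        ext v
        simp only [mem_insert]
        tauto
      rw [e1]
      exact d
  · exact fun x y z w h h' => h (uni_Uk1 h')
  · exact fun x y z w h h' => h (uni_Uk2 h')
  · exact fun x y z w h h' => h (uni_Uk3 h')
  · exact fun x y z w h h' => h (uni_UkUn h')
  · -- transitivity of the planes
    intro x y z w v hC' h1 h2 h3
    have hC'' : Un H J T x y z := by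
      by_contra h
      exact hC' h
    have h3' := h3
    obtain ⟨a1, a2, a3, a4, a5, a6, a7⟩ := h3
    have hzw : z ≠ w := by
      rintro rfl
      exact h2 h3'
    have hzv : z ≠ v := by
      rintro rfl
      exact h1 (uni_Uk3 h3')
    obtain ⟨c1, c2, c3, c4⟩ := hC''
    have g1 : Re H (insert (T y) (insert (T x) J)) (T z) (T w) := by
      right
      intro h
      refine h1 ⟨c1, c2, c3, a2, a3, hzw, ?_⟩
      have e1 : insert (T x) (insert (T y) (insert (T z) (insert (T w) J))) =
          insert (T z) (insert (T w) (insert (T y) (insert (T x) J))) := by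
        ext v
        simp only [mem_insert]
        tauto
      rw [e1]
      exact h
    have g2 : Re H (insert (T y) (insert (T x) J)) (T z) (T v) := by
      right
      intro h
      refine h2 ⟨c1, c2, c3, a4, a5, hzv, ?_⟩
      have e1 : insert (T x) (insert (T y) (insert (T z) (insert (T v) J))) =
          insert (T z) (insert (T v) (insert (T y) (insert (T x) J))) := by
        ext v
        simp only [mem_insert]
        tauto
      rw [e1]
      exact h
    rcases hB' x y z w v c1 ⟨c1, c2, c3, c4⟩ (uni_UkUn h3') (uni_UkUn (uni_Uk3 h3')) g1 g2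
      with g3 | g3
    · exact a6 (hinj g3)
    · refine g3 ?_
      have e1 : insert (T w) (insert (T v) (insert (T y) (insert (T x) J))) =
          insert (T x) (insert (T y) (insert (T w) (insert (T v) J))) := by
        ext v
        simp only [mem_insert]
        tauto
      rw [e1]
      exact a7
  · obtain ⟨x, y, z, w, hxyzw⟩ := hQ J hJ T hT
    exact ⟨x, y, z, w, fun h => h hxyzw⟩
  · -- at most `q + 1` planes through a line
    intro x y hxy t
    by_cases hon : ∃ i, ¬ Un H J T x y (t i)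
    · obtain ⟨i, hi⟩ := hon
      have hij : ∃ j : Fin (q + 2), i ≠ j := by
        by_cases h0 : i = 0
        · exact ⟨1, by rw [h0]; exact Fin.zero_ne_one⟩
        · exact ⟨0, h0⟩
      obtain ⟨j, hj⟩ := hij
      exact ⟨i, j, hj, fun h => hi (uni_UkUn h)⟩
    push Not at hon
    by_contra hno
    push Not at hno
    have hno' : ∀ i j, i ≠ j → Uk H J T x y (t i) (t j) := by
      intro i j hij
      by_contra h
      exact hno i j hij h
    have hte : ∀ i, T (t i) ∈ ext H (insert (T y) (insert (T x) J)) := fun i => hE2 _ _ _ (hon i)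
    have htinj : Function.Injective t := by
      intro i j hij
      by_contra h
      exact (hno' i j h).2.2.2.2.2.1 hij
    refine hC (Fin.cons x (Fin.cons y t)) ?_ ?_
    · rw [Fin.cons_injective_iff]
      refine ⟨?_, ?_⟩
      · rintro ⟨i, hi⟩
        refine Fin.cases (fun h => ?_) (fun j h => ?_) i hi
        · exact hxy h.symm
        · exact (hE2' _ _ _ (hte j)).2 h
      · rw [Fin.cons_injective_iff]
        refine ⟨?_, htinj⟩
        rintro ⟨i, hi⟩
        exact (hE2' _ _ _ (hte i)).1 hi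
    · rw [uni_Ue]
      refine ⟨hTe x, ?_⟩
      rw [uni_Ue]
      refine ⟨hE1 y x hxy.symm, ?_⟩
      unfold Ut
      rw [uni_Tup]
      refine ⟨hte, fun i j hij => ?_⟩
      obtain ⟨a1, a2, a3, a4, a5, a6, a7⟩ := hno' i j hij.ne
      rintro (h | h)
      · exact a6 (hinj h)
      · refine h ?_
        have e1 : insert (T (t i)) (insert (T (t j)) (insert (T y) (insert (T x) J))) =
            insert (T x) (insert (T y) (insert (T (t i)) (insert (T (t j)) J))) := by
          ext v
          simp only [mem_insert]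
          tauto
        exact e1 ▸ a7
  · rw [Fintype.card_fin]
    exact hN

end Pool.Agent.DCP5
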