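import Pool.Agent.DCS.Re
import Pool.Agent.DCP5.Gr

/-!
# DCP5: few `r`-tuples of pairwise unrelated points at a level with `r p > 1`

`upp5`: if almost all members `J` of the level `s` have almost the average number of extensions, the degrees of the
relation of `J` are about `p |ext J|` and there are few cherries, then there are few `r`-tuples of pairwise unrelated
points of `ext J`, as soon as `r p ≥ 1 + κ`.
-/

set_option linter.unusedSectionVars false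
set_option linter.unusedVariables false

namespace Pool.Agent.DCP5

open Finset Pool.Agent.DCS Pool.Agent.Helper2.DC

variable {V : Type} [Fintype V] [DecidableEq V]

private theorem upp5_tup (X : Finset V) (R : V → V → Prop) (r : ℕ) :
    ((Tup X R r).card : ℝ) ≤ (X.card : ℝ) ^ r := by
  classical
  have h : (Tup X R r).card ≤ X.card ^ r := by
    refine le_trans (card_le_card (filter_subset _ _)) ?_
    rw [Fintype.card_piFinset_const]
  exact_mod_cast h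

private theorem upp5_local (H : Finset (Finset V)) (J : Finset V) (r : ℕ) (hr : 2 ≤ r) {κ p a : ℝ}
    (hκ : 0 < κ) (hn : 0 < (Fintype.card V : ℝ)) (ha : κ * (Fintype.card V : ℝ) ≤ a)
    (hp : κ ≤ (r : ℝ) * p - 1) :
    κ ^ 2 * (Fintype.card V : ℝ) * ((Tup (ext H J) (Re H J) r).card : ℝ) ≤
      2 * (r : ℝ) * (Fintype.card V : ℝ) ^ (r - 1) *
        ∑ x ∈ ext H J, |((nbl (ext H J) (Re H J) x).card : ℝ) - p * ((ext H J).card : ℝ)| +
      2 * (r : ℝ) ^ 2 * (Fintype.card V : ℝ) ^ (r - 2) * Cr H J +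
      2 * κ * (Fintype.card V : ℝ) ^ r * |((ext H J).card : ℝ) - a| := by
  set n : ℝ := (Fintype.card V : ℝ) with hnd
  set d : ℝ := ((ext H J).card : ℝ) with hd
  set T : ℝ := ((Tup (ext H J) (Re H J) r).card : ℝ) with hT
  set D : ℝ := ∑ x ∈ ext H J, |((nbl (ext H J) (Re H J) x).card : ℝ) - p * d| with hD
  have hd0 : 0 ≤ d := Nat.cast_nonneg _
  have hT0 : 0 ≤ T := Nat.cast_nonneg _
  have hD0 : 0 ≤ D := sum_nonneg fun _ _ => abs_nonneg _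
  have hC0 : 0 ≤ Cr H J := Cr_nonneg H J
  have hdn : d ≤ n := by
    rw [hd, hnd]
    exact_mod_cast card_le_univ _
  have hr0 : (0 : ℝ) ≤ (r : ℝ) := Nat.cast_nonneg _
  have hg : ((r : ℝ) * p - 1) * d * T ≤ (r : ℝ) * d ^ (r - 1) * D + (r : ℝ) ^ 2 * d ^ (r - 2) * Cr H J :=
    greedy_above (ext H J) (Re H J) (fun x y h => Re_symm h) p r
  have h1 : (r : ℝ) * d ^ (r - 1) * D ≤ (r : ℝ) * n ^ (r - 1) * D :=
    mul_le_mul_of_nonneg_right (mul_le_mul_of_nonneg_left (pow_le_pow_left₀ hd0 hdn _) hr0) hD0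
  have h2 : (r : ℝ) ^ 2 * d ^ (r - 2) * Cr H J ≤ (r : ℝ) ^ 2 * n ^ (r - 2) * Cr H J :=
    mul_le_mul_of_nonneg_right
      (mul_le_mul_of_nonneg_left (pow_le_pow_left₀ hd0 hdn _) (by positivity)) hC0
  have h3 : 0 ≤ 2 * κ * n ^ r * |d - a| := by positivity
  have h4 : 0 ≤ (r : ℝ) * n ^ (r - 1) * D := by positivity
  have h5 : 0 ≤ (r : ℝ) ^ 2 * n ^ (r - 2) * Cr H J := by positivity
  rcases le_or_gt (κ * n) (2 * d) with h | h
  · have h6 : κ * (κ * n) * T ≤ ((r : ℝ) * p - 1) * (2 * d) * T := by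
      refine mul_le_mul_of_nonneg_right ?_ hT0
      exact mul_le_mul hp h (by positivity) (by linarith)
    nlinarith [h6, hg, h1, h2, h3]
  · have hTn : T ≤ n ^ r := le_trans (upp5_tup _ _ _) (pow_le_pow_left₀ hd0 hdn _)
    have h7 : κ * n ≤ 2 * |d - a| := by
      have := neg_abs_le (d - a)
      linarith
    have h8 : κ ^ 2 * n * T ≤ κ ^ 2 * n * n ^ r := mul_le_mul_of_nonneg_left hTn (by positivity)
    have h9 : κ * n ^ r * (κ * n) ≤ κ * n ^ r * (2 * |d - a|) :=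
      mul_le_mul_of_nonneg_left h7 (by positivity)
    nlinarith [h8, h9, h4, h5]

theorem upp5 (r : ℕ) (hr : 2 ≤ r) (κ : ℝ) (hκ : 0 < κ) :
    ∃ C : ℝ, 0 < C ∧ ∀ (V : Type) [Fintype V] [DecidableEq V] (H : Finset (Finset V)) (s : ℕ) (e p : ℝ),
      0 ≤ e → e ≤ 1 → 0 < (Fintype.card V : ℝ) → 0 < NI H s →
      κ * (Fintype.card V : ℝ) ≤ Av H s → κ ≤ (r : ℝ) * p - 1 →
      (∑ J ∈ ind H s, |((ext H J).card : ℝ) - Av H s| ≤ √e * (Fintype.card V : ℝ) * NI H s) →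
      (∑ J ∈ ind H s, ∑ x ∈ ext H J,
        |((nbl (ext H J) (Re H J) x).card : ℝ) - p * ((ext H J).card : ℝ)| ≤
          2 * √e * (Fintype.card V : ℝ) ^ 2 * NI H s) →
      (∑ J ∈ ind H s, Cr H J ≤ e * (Fintype.card V : ℝ) ^ 3 * NI H s) →
      ∑ J ∈ ind H s, ((Tup (ext H J) (Re H J) r).card : ℝ) ≤
        C * √e * (Fintype.card V : ℝ) ^ r * NI H s := by
  refine ⟨(4 * r + 2 * r ^ 2 + 2 * κ) / κ ^ 2, by positivity, ?_⟩
  intro V _ _ H s e p he0 he1 hn hN hav hp hlev hdev hcr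
  set n : ℝ := (Fintype.card V : ℝ) with hnd
  have hr0 : (0 : ℝ) ≤ (r : ℝ) := Nat.cast_nonneg _
  have hsum : κ ^ 2 * n * ∑ J ∈ ind H s, ((Tup (ext H J) (Re H J) r).card : ℝ) ≤
      2 * (r : ℝ) * n ^ (r - 1) * (∑ J ∈ ind H s, ∑ x ∈ ext H J,
        |((nbl (ext H J) (Re H J) x).card : ℝ) - p * ((ext H J).card : ℝ)|) +
      2 * (r : ℝ) ^ 2 * n ^ (r - 2) * (∑ J ∈ ind H s, Cr H J) +
      2 * κ * n ^ r * (∑ J ∈ ind H s, |((ext H J).card : ℝ) - Av H s|) := by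
    rw [mul_sum, mul_sum, mul_sum, mul_sum, ← sum_add_distrib, ← sum_add_distrib]
    exact sum_le_sum fun J _ => upp5_local H J r hr hκ hn hav hp
  obtain ⟨m, rfl⟩ : ∃ m, r = m + 2 := ⟨r - 2, by omega⟩
  have e1 : m + 2 - 1 = m + 1 := by omega
  have e2 : m + 2 - 2 = m := by omega
  rw [e1, e2] at hsum
  have hse : e ≤ √e := by
    have h0 : 0 ≤ √e := Real.sqrt_nonneg e
    have h1 : √e ≤ 1 := Real.sqrt_le_one.2 he1
    have h2 : √e * √e = e := Real.mul_self_sqrt he0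
    nlinarith
  have h1 := mul_le_mul_of_nonneg_left hdev (by positivity : 0 ≤ 2 * ((m + 2 : ℕ) : ℝ) * n ^ (m + 1))
  have h2 := mul_le_mul_of_nonneg_left hcr (by positivity : 0 ≤ 2 * ((m + 2 : ℕ) : ℝ) ^ 2 * n ^ m)
  have h3 := mul_le_mul_of_nonneg_left hlev (by positivity : 0 ≤ 2 * κ * n ^ (m + 2))
  have h4 : 2 * ((m + 2 : ℕ) : ℝ) ^ 2 * n ^ m * (e * n ^ 3 * NI H s) ≤
      2 * ((m + 2 : ℕ) : ℝ) ^ 2 * n ^ m * (√e * n ^ 3 * NI H s) := by
    refine mul_le_mul_of_nonneg_left ?_ (by positivity)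
    exact mul_le_mul_of_nonneg_right (mul_le_mul_of_nonneg_right hse (by positivity)) hN.le
  have h5 : κ ^ 2 * n * ∑ J ∈ ind H s, ((Tup (ext H J) (Re H J) (m + 2)).card : ℝ) ≤
      n * ((4 * ((m + 2 : ℕ) : ℝ) + 2 * ((m + 2 : ℕ) : ℝ) ^ 2 + 2 * κ) * √e * n ^ (m + 2) * NI H s) := by
    refine le_trans hsum ?_
    have h6 : 2 * ((m + 2 : ℕ) : ℝ) * n ^ (m + 1) * (2 * √e * n ^ 2 * NI H s) +
        2 * ((m + 2 : ℕ) : ℝ) ^ 2 * n ^ m * (√e * n ^ 3 * NI H s) +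
        2 * κ * n ^ (m + 2) * (√e * n * NI H s) =
        n * ((4 * ((m + 2 : ℕ) : ℝ) + 2 * ((m + 2 : ℕ) : ℝ) ^ 2 + 2 * κ) * √e * n ^ (m + 2) * NI H s) := by
      ring
    linarith [h1, h2, h3, h4, h6]
  have h7 : κ ^ 2 * ∑ J ∈ ind H s, ((Tup (ext H J) (Re H J) (m + 2)).card : ℝ) ≤
      (4 * ((m + 2 : ℕ) : ℝ) + 2 * ((m + 2 : ℕ) : ℝ) ^ 2 + 2 * κ) * √e * n ^ (m + 2) * NI H s := by
    refine le_of_mul_le_mul_left ?_ hn
    calc n * (κ ^ 2 * ∑ J ∈ ind H s, ((Tup (ext H J) (Re H J) (m + 2)).card : ℝ)) =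
        κ ^ 2 * n * ∑ J ∈ ind H s, ((Tup (ext H J) (Re H J) (m + 2)).card : ℝ) := by ring
      _ ≤ _ := h5
  have hk2 : 0 < κ ^ 2 := by positivity
  calc ∑ J ∈ ind H s, ((Tup (ext H J) (Re H J) (m + 2)).card : ℝ) =
      (κ ^ 2 * ∑ J ∈ ind H s, ((Tup (ext H J) (Re H J) (m + 2)).card : ℝ)) / κ ^ 2 := by
        field_simp
    _ ≤ ((4 * ((m + 2 : ℕ) : ℝ) + 2 * ((m + 2 : ℕ) : ℝ) ^ 2 + 2 * κ) * √e * n ^ (m + 2) * NI H s) / κ ^ 2 :=
        div_le_div_of_nonneg_right h7 hk2.le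
    _ = (4 * ((m + 2 : ℕ) : ℝ) + 2 * ((m + 2 : ℕ) : ℝ) ^ 2 + 2 * κ) / κ ^ 2 * √e * n ^ (m + 2) * NI H s := by
        ring

end Pool.Agent.DCP5
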