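import Pool.Agent.DCP5.Dev5
import Pool.Agent.DCP5.Low5
import Pool.Agent.DCP5.Upp5
import Pool.Agent.DCP5.Lev5
import Pool.Agent.DCP5.Num5
import Pool.Agent.DCP5.Uni
import Pool.Agent.DCP5.SpPrime

/-!
An almost extremal hypergraph with `m / (m - k)` near `q` contains a projective 3-space of order `q`.
-/

namespace Pool.Agent.DCP5

open Finset Pool.Agent.Helper2.DC Pool.Agent.DCS

theorem ctop5 (ε : ℝ) (hε : 0 < ε) (q : ℕ) (hq : 2 ≤ q) :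
    ∃ δ : ℝ, 0 < δ ∧ ∃ e1 : ℝ, 0 < e1 ∧ ∃ k0 : ℕ, ∀ k m : ℕ, k0 ≤ k →
      (1 + ε) * (k : ℝ) ≤ (m : ℝ) → |(m : ℝ) / ((m : ℝ) - (k : ℝ)) - (q : ℝ)| ≤ δ →
      ∀ e : ℝ, 0 < e → e ≤ e1 → ∀ {V : Type} [Fintype V] [DecidableEq V]
      (H : Finset (Finset V)), (∀ f ∈ H, f.card = k) →
      (m : ℝ) ≤ e * (Fintype.card V : ℝ) → NI H m = 0 → 0 < NI H (m - 1) →
      (H.card : ℝ) / ((Fintype.card V).choose k : ℝ) ≤ (1 + e) / ((m - 1).choose (k - 1) : ℝ) →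
      IsPrimePow q := by
  obtain ⟨δ, κ, C, eL, hδ, hκ, hC, heL, k0, hL⟩ := lev5_of ε hε q hq (by
    obtain ⟨δ, h1, κ, h2, h3⟩ := num5 ε hε q hq
    exact ⟨δ, κ, h1, h2, h3⟩)
  obtain ⟨t, ht⟩ : ∃ t : ℕ, t + 4 = q ^ 3 + q ^ 2 + q + 1 := ⟨q ^ 3 + q ^ 2 + q + 1 - 4, by
    have : 2 ^ 3 ≤ q ^ 3 := Nat.pow_le_pow_left hq 3
    omega⟩
  obtain ⟨c0, e0, hc0, he0, hlow⟩ := low5 t κ hκ
  obtain ⟨CU, hCU, hupp⟩ := upp5 (q + 2) (by omega) κ hκ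
  obtain ⟨W, hW⟩ : ∃ W : ℝ, W = ((t + 4 : ℕ) : ℝ) ^ 4 + ((t + 4 : ℕ) : ℝ) ^ 5 +
    ((t + 4 : ℕ) : ℝ) ^ (q + 4) := ⟨_, rfl⟩
  have hW0 : 0 < W := by rw [hW]; positivity
  -- the bound for `√ e'`
  obtain ⟨y, hy⟩ : ∃ y : ℝ, y = c0 / (2 * (1 + CU) * W) := ⟨_, rfl⟩
  have hy0 : 0 < y := by rw [hy]; positivity
  refine ⟨δ, hδ, min eL (min 1 (min e0 (y ^ 2)) / C), lt_min heL (by positivity), max k0 5, ?_⟩
  intro k m hk h1 h2 e he hee V _ _ H hH hmn h0 hNm hd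
  have hk0 : k0 ≤ k := (le_max_left _ _).trans hk
  have hk5 : 5 ≤ k := (le_max_right _ _).trans hk
  have hk5R : (5:ℝ) ≤ (k:ℝ) := by exact_mod_cast hk5
  have hkm : (k:ℝ) < (m:ℝ) := by nlinarith
  have hkm' : k < m := by exact_mod_cast hkm
  obtain ⟨s, hs⟩ : ∃ s : ℕ, s + 5 = m := ⟨m - 5, by omega⟩
  obtain ⟨hn, hNI, hAv, hA1, hA3, hp1, hp3, hSq, hCr1, hCr2⟩ :=
    hL k m hk0 h1 h2 e he (hee.trans (min_le_left _ _)) H hH hmn h0 hNm hd s hs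
  obtain ⟨e', he'⟩ : ∃ e' : ℝ, e' = C * e := ⟨_, rfl⟩
  rw [← he'] at hSq hCr1 hCr2
  have he'0 : 0 < e' := by rw [he']; positivity
  have he'b : e' ≤ min 1 (min e0 (y ^ 2)) := by
    have h3 := hee.trans (min_le_right _ _)
    rw [le_div_iff₀ hC] at h3
    rw [he']; linarith
  have he'1 : e' ≤ 1 := he'b.trans (min_le_left _ _)
  have he'2 : e' ≤ e0 := he'b.trans ((min_le_right _ _).trans (min_le_left _ _))
  have he'3 : e' ≤ y ^ 2 := he'b.trans ((min_le_right _ _).trans (min_le_right _ _))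
  have hsq1 : Real.sqrt e' ≤ y := by
    rw [← Real.sqrt_sq hy0.le]
    exact Real.sqrt_le_sqrt he'3
  have hsq0 : 0 ≤ Real.sqrt e' := Real.sqrt_nonneg _
  have hsq2 : e' ≤ Real.sqrt e' := by
    have h3 : Real.sqrt e' ≤ 1 := Real.sqrt_le_one.2 he'1
    have h4 := Real.mul_self_sqrt he'0.le
    nlinarith
  -- the level `s = m - 5`
  have hN0 : 0 < NI H s := by have := hNI 0 (by norm_num); simpa using this
  have hN1 : 0 < NI H (s + 1) := hNI 1 (by norm_num)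
  have hN2 : 0 < NI H (s + 2) := hNI 2 (by norm_num)
  have hN3 : 0 < NI H (s + 3) := hNI 3 (by norm_num)
  have hAv0 : κ * (Fintype.card V : ℝ) ≤ Av H s := by have := hAv 0 (by norm_num); simpa using this
  have hAv1 : κ * (Fintype.card V : ℝ) ≤ Av H (s + 1) := hAv 1 (by norm_num)
  have hAv2 : κ * (Fintype.card V : ℝ) ≤ Av H (s + 2) := hAv 2 (by norm_num)
  have hAv3 : κ * (Fintype.card V : ℝ) ≤ Av H (s + 3) := hAv 3 (by norm_num)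
  have hκn : 0 < κ * (Fintype.card V : ℝ) := mul_pos hκ hn
  have hSq0 : Sq H s ≤ e' * (Fintype.card V : ℝ) ^ 2 * NI H s := by
    have := hSq 0 (by norm_num); simpa using this
  have hSq1 : Sq H (s + 1) ≤ e' * (Fintype.card V : ℝ) ^ 2 * NI H (s + 1) := hSq 1 (by norm_num)
  have hSq2 : Sq H (s + 2) ≤ e' * (Fintype.card V : ℝ) ^ 2 * NI H (s + 2) := hSq 2 (by norm_num)
  have hSq3 : Sq H (s + 3) ≤ e' * (Fintype.card V : ℝ) ^ 2 * NI H (s + 3) := hSq 3 (by norm_num)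
  have hp0 : 0 ≤ 1 - Av H (s + 1) / Av H s := by
    have : Av H (s + 1) / Av H s ≤ 1 := (div_le_one (by linarith)).2 hA1
    linarith
  have ht3 : ((t : ℝ) + 3) = (q : ℝ) ^ 3 + (q : ℝ) ^ 2 + (q : ℝ) := by
    have h3 : ((t + 4 : ℕ) : ℝ) = ((q ^ 3 + q ^ 2 + q + 1 : ℕ) : ℝ) := by rw [ht]
    push_cast at h3
    linarith
  have l0 := lev1 he'0.le hSq0
  have d0 := dev5 he'0.le hN0 (by linarith) (by linarith) hA1 hSq0 hSq1
  have low := hlow V H s e' (1 - Av H (s + 1) / Av H s) he'0.le he'2 hn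
    hAv hN3 hp0 (by rw [ht3]; exact hp1) l0 d0
  -- the level `s + 2 = m - 3`
  have l2 := lev1 he'0.le hSq2
  have d2 := dev5 he'0.le hN2 (by linarith) (by linarith) hA3 hSq2 hSq3
  have upp := hupp V H (s + 2) e' (1 - Av H (s + 2 + 1) / Av H (s + 2)) he'0.le he'1 hn hN2 hAv2
    (by push_cast; exact hp3) l2 d2 hCr2
  -- the union bound
  obtain ⟨b, hb⟩ : ∃ b : ℝ, b = (1 + CU) * Real.sqrt e' := ⟨_, rfl⟩
  have hb0 : 0 ≤ b := by rw [hb]; positivity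
  have hb1 : e' ≤ b := by rw [hb]; nlinarith
  have hb2 : CU * Real.sqrt e' ≤ b := by rw [hb]; nlinarith
  have hb3 : W * b < c0 := by
    have h3 : W * b ≤ W * ((1 + CU) * y) := by
      rw [hb]
      exact mul_le_mul_of_nonneg_left (mul_le_mul_of_nonneg_left hsq1 (by positivity)) hW0.le
    have h4 : W * ((1 + CU) * y) = c0 / 2 := by rw [hy]; field_simp
    linarith
  have hnp : ∀ i : ℕ, 0 < (Fintype.card V : ℝ) ^ i := fun i => pow_pos hn i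
  have hq4 : 4 ≤ q ^ 2 := by nlinarith
  have hq8 : 8 ≤ q ^ 3 := by
    have : 2 ^ 3 ≤ q ^ 3 := Nat.pow_le_pow_left hq 3
    omega
  have u1 : ∑ J ∈ ind H (s + 1), Cr H J ≤ b * (Fintype.card V : ℝ) ^ 3 * NI H (s + 1) :=
    hCr1.trans (mul_le_mul_of_nonneg_right (mul_le_mul_of_nonneg_right hb1 (hnp 3).le) hN1.le)
  have u2 : ∑ J ∈ ind H (s + 2), Cr H J ≤ b * (Fintype.card V : ℝ) ^ 3 * NI H (s + 2) :=
    hCr2.trans (mul_le_mul_of_nonneg_right (mul_le_mul_of_nonneg_right hb1 (hnp 3).le) hN2.le)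
  have u3 : ∑ J ∈ ind H (s + 2), ((Tup (ext H J) (Re H J) (q + 2)).card : ℝ) ≤
      b * (Fintype.card V : ℝ) ^ (q + 2) * NI H (s + 2) :=
    upp.trans (mul_le_mul_of_nonneg_right (mul_le_mul_of_nonneg_right hb2 (hnp _).le) hN2.le)
  have u4 : (((t + 4 : ℕ) : ℝ) ^ 4 + ((t + 4 : ℕ) : ℝ) ^ 5 + ((t + 4 : ℕ) : ℝ) ^ (q + 4)) *
      (b * (Fintype.card V : ℝ) ^ (t + 4) * NI H s) < ∑ J ∈ ind H s, ((F4 H J t).card : ℝ) := by
    refine lt_of_lt_of_le ?_ low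
    rw [← hW]
    have h3 := mul_lt_mul_of_pos_right (mul_lt_mul_of_pos_right hb3 (hnp (t + 4))) hN0
    linarith
  obtain ⟨S, hS⟩ := uni hq ht.ge hb0 (fun J => F4 H J t)
    (fun J _ => filter_subset _ _)
    (fun J _ T hT => by
      unfold F4 at hT
      rw [mem_filter] at hT
      have v0 : ((0 : Fin (t + 4)) : ℕ) = 0 := Nat.mod_eq_of_lt (show 0 < t + 4 by omega)
      have v1 : ((1 : Fin (t + 4)) : ℕ) = 1 := Nat.mod_eq_of_lt (show 1 < t + 4 by omega)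
      have v2 : ((2 : Fin (t + 4)) : ℕ) = 2 := Nat.mod_eq_of_lt (show 2 < t + 4 by omega)
      have v3 : ((3 : Fin (t + 4)) : ℕ) = 3 := Nat.mod_eq_of_lt (show 3 < t + 4 by omega)
      have g01 : (0 : Fin (t + 4)) < 1 := by rw [Fin.lt_def, v0, v1]; norm_num
      have g12 : (1 : Fin (t + 4)) < 2 := by rw [Fin.lt_def, v1, v2]; norm_num
      have g23 : (2 : Fin (t + 4)) < 3 := by rw [Fin.lt_def, v2, v3]; norm_num
      exact ⟨0, 1, 2, 3, g01.ne, (g01.trans g12).ne, g12.ne, ((g01.trans g12).trans g23).ne,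
        (g12.trans g23).ne, g23.ne, hT.2⟩)
    u1 u2 u3 u4
  exact Sp.isPrimePow hS

end Pool.Agent.DCP5
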