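import Pool.Agent.DCS.Re

/-!
# DCP5: the degrees of the graph of a level

The degree of `x` in the graph of `J` differs from `(1 - Av (s + 1) / Av s) |ext J|` by at most
`| |ext J| - Av s | + | |ext (J + x)| - Av (s + 1) |`; the sums of both are bounded by the
Cauchy-Schwarz inequality.
-/

set_option linter.unusedSectionVars false

namespace Pool.Agent.DCP5

open Finset Pool.Agent.Helper2.DC Pool.Agent.DCS

variable {V : Type} [Fintype V] [DecidableEq V]

/-- the first power of the deviations on a level -/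
theorem lev1 {H : Finset (Finset V)} {s : ℕ} {e : ℝ} (he : 0 ≤ e)
    (hS : Sq H s ≤ e * (Fintype.card V : ℝ) ^ 2 * NI H s) :
    ∑ J ∈ ind H s, |((ext H J).card : ℝ) - Av H s| ≤
      Real.sqrt e * (Fintype.card V : ℝ) * NI H s := by
  have hN : 0 ≤ NI H s := NI_nonneg H s
  have hn : (0 : ℝ) ≤ Fintype.card V := Nat.cast_nonneg _
  have h1 : (∑ J ∈ ind H s, |((ext H J).card : ℝ) - Av H s|) ^ 2 ≤ NI H s * Sq H s := by
    have h := sum_mul_sq_le_sq_mul_sq (ind H s) (fun _ => (1 : ℝ))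
      (fun J => |((ext H J).card : ℝ) - Av H s|)
    simp only [one_mul, one_pow, sum_const, nsmul_eq_mul, mul_one, sq_abs] at h
    exact h
  have h2 : (∑ J ∈ ind H s, |((ext H J).card : ℝ) - Av H s|) ^ 2 ≤
      (Real.sqrt e * (Fintype.card V : ℝ) * NI H s) ^ 2 := by
    rw [mul_pow, mul_pow, Real.sq_sqrt he]
    calc (∑ J ∈ ind H s, |((ext H J).card : ℝ) - Av H s|) ^ 2 ≤ NI H s * Sq H s := h1
      _ ≤ NI H s * (e * (Fintype.card V : ℝ) ^ 2 * NI H s) := mul_le_mul_of_nonneg_left hS hN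
      _ = e * (Fintype.card V : ℝ) ^ 2 * NI H s ^ 2 := by ring
  exact (sq_le_sq₀ (sum_nonneg fun _ _ => abs_nonneg _)
    (mul_nonneg (mul_nonneg (Real.sqrt_nonneg e) hn) hN)).1 h2

private theorem Dev5_one {H : Finset (Finset V)} {s : ℕ} (h0 : 0 < Av H s)
    (h1 : 0 ≤ Av H (s + 1)) (h2 : Av H (s + 1) ≤ Av H s) {J : Finset V} {x : V}
    (hx : x ∈ ext H J) :
    |((nbl (ext H J) (Re H J) x).card : ℝ) -
      (1 - Av H (s + 1) / Av H s) * ((ext H J).card : ℝ)| ≤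
    |((ext H J).card : ℝ) - Av H s| + |((ext H (insert x J)).card : ℝ) - Av H (s + 1)| := by
  have hr0 : 0 ≤ Av H (s + 1) / Av H s := div_nonneg h1 h0.le
  have hr1 : Av H (s + 1) / Av H s ≤ 1 := (div_le_one h0).2 h2
  have hr : Av H (s + 1) / Av H s * Av H s = Av H (s + 1) := div_mul_cancel₀ _ h0.ne'
  rw [re_deg hx]
  have h3 : ((ext H J).card : ℝ) - ((ext H (insert x J)).card : ℝ) -
      (1 - Av H (s + 1) / Av H s) * ((ext H J).card : ℝ) =
      Av H (s + 1) / Av H s * (((ext H J).card : ℝ) - Av H s) -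
        (((ext H (insert x J)).card : ℝ) - Av H (s + 1)) := by
    rw [mul_sub, hr]
    ring
  rw [h3]
  have h4 : |Av H (s + 1) / Av H s * (((ext H J).card : ℝ) - Av H s)| ≤
      |((ext H J).card : ℝ) - Av H s| := by
    rw [abs_mul, abs_of_nonneg hr0]
    exact mul_le_of_le_one_left (abs_nonneg _) hr1
  exact (abs_sub _ _).trans (add_le_add h4 le_rfl)

/-- the degrees of the graphs of a level -/
theorem dev5 {H : Finset (Finset V)} {s : ℕ} {e : ℝ} (he : 0 ≤ e) (_hN : 0 < NI H s)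
    (h0 : 0 < Av H s) (h1 : 0 ≤ Av H (s + 1)) (h2 : Av H (s + 1) ≤ Av H s)
    (hS : Sq H s ≤ e * (Fintype.card V : ℝ) ^ 2 * NI H s)
    (hS' : Sq H (s + 1) ≤ e * (Fintype.card V : ℝ) ^ 2 * NI H (s + 1)) :
    ∑ J ∈ ind H s, ∑ x ∈ ext H J, |((nbl (ext H J) (Re H J) x).card : ℝ) -
      (1 - Av H (s + 1) / Av H s) * ((ext H J).card : ℝ)| ≤
    2 * Real.sqrt e * (Fintype.card V : ℝ) ^ 2 * NI H s := by
  have hn : (0 : ℝ) ≤ Fintype.card V := Nat.cast_nonneg _
  have hse : 0 ≤ Real.sqrt e := Real.sqrt_nonneg e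
  have hcard : ∀ J : Finset V, ((ext H J).card : ℝ) ≤ Fintype.card V := fun J => by
    exact_mod_cast card_le_univ _
  have h3 : ∑ J ∈ ind H s, ∑ _x ∈ ext H J, |((ext H J).card : ℝ) - Av H s| ≤
      Real.sqrt e * (Fintype.card V : ℝ) ^ 2 * NI H s := by
    calc ∑ J ∈ ind H s, ∑ _x ∈ ext H J, |((ext H J).card : ℝ) - Av H s| ≤
        ∑ J ∈ ind H s, (Fintype.card V : ℝ) * |((ext H J).card : ℝ) - Av H s| := by
          refine sum_le_sum fun J _ => ?_
          rw [sum_const, nsmul_eq_mul]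
          exact mul_le_mul_of_nonneg_right (hcard J) (abs_nonneg _)
      _ = (Fintype.card V : ℝ) * ∑ J ∈ ind H s, |((ext H J).card : ℝ) - Av H s| := by
          rw [mul_sum]
      _ ≤ (Fintype.card V : ℝ) * (Real.sqrt e * (Fintype.card V : ℝ) * NI H s) :=
          mul_le_mul_of_nonneg_left (lev1 he hS) hn
      _ = Real.sqrt e * (Fintype.card V : ℝ) ^ 2 * NI H s := by ring
  have h4 : ((s : ℝ) + 1) * NI H (s + 1) ≤ (Fintype.card V : ℝ) * NI H s := by
    have h := re_sum H s (fun _ => (1 : ℝ))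
    rw [sum_const, nsmul_eq_mul, mul_one] at h
    have h5 : ((s : ℝ) + 1) * NI H (s + 1) = ∑ J ∈ ind H s, ∑ _x ∈ ext H J, (1 : ℝ) := h.symm
    rw [h5]
    calc ∑ J ∈ ind H s, ∑ _x ∈ ext H J, (1 : ℝ) ≤ ∑ _J ∈ ind H s, (Fintype.card V : ℝ) := by
          refine sum_le_sum fun J _ => ?_
          rw [sum_const, nsmul_eq_mul, mul_one]
          exact hcard J
      _ = (Fintype.card V : ℝ) * NI H s := by
          rw [sum_const, nsmul_eq_mul, mul_comm]
          rfl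
  have h5 : ∑ J ∈ ind H s, ∑ x ∈ ext H J,
      |((ext H (insert x J)).card : ℝ) - Av H (s + 1)| ≤
      Real.sqrt e * (Fintype.card V : ℝ) ^ 2 * NI H s := by
    have h := re_sum H s (fun S => |((ext H S).card : ℝ) - Av H (s + 1)|)
    rw [h]
    have hs0 : (0 : ℝ) ≤ (s : ℝ) + 1 := by positivity
    calc ((s : ℝ) + 1) * ∑ S ∈ ind H (s + 1), |((ext H S).card : ℝ) - Av H (s + 1)| ≤
        ((s : ℝ) + 1) * (Real.sqrt e * (Fintype.card V : ℝ) * NI H (s + 1)) :=
          mul_le_mul_of_nonneg_left (lev1 he hS') hs0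
      _ = Real.sqrt e * (Fintype.card V : ℝ) * (((s : ℝ) + 1) * NI H (s + 1)) := by ring
      _ ≤ Real.sqrt e * (Fintype.card V : ℝ) * ((Fintype.card V : ℝ) * NI H s) :=
          mul_le_mul_of_nonneg_left h4 (mul_nonneg hse hn)
      _ = Real.sqrt e * (Fintype.card V : ℝ) ^ 2 * NI H s := by ring
  calc ∑ J ∈ ind H s, ∑ x ∈ ext H J, |((nbl (ext H J) (Re H J) x).card : ℝ) -
        (1 - Av H (s + 1) / Av H s) * ((ext H J).card : ℝ)| ≤
      ∑ J ∈ ind H s, ∑ x ∈ ext H J, (|((ext H J).card : ℝ) - Av H s| +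
        |((ext H (insert x J)).card : ℝ) - Av H (s + 1)|) :=
        sum_le_sum fun J _ => sum_le_sum fun x hx => Dev5_one h0 h1 h2 hx
    _ = ∑ J ∈ ind H s, ∑ _x ∈ ext H J, |((ext H J).card : ℝ) - Av H s| +
        ∑ J ∈ ind H s, ∑ x ∈ ext H J, |((ext H (insert x J)).card : ℝ) - Av H (s + 1)| := by
        rw [← sum_add_distrib]
        exact sum_congr rfl fun J _ => sum_add_distrib
    _ ≤ Real.sqrt e * (Fintype.card V : ℝ) ^ 2 * NI H s +
        Real.sqrt e * (Fintype.card V : ℝ) ^ 2 * NI H s := add_le_add h3 h5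
    _ = 2 * Real.sqrt e * (Fintype.card V : ℝ) ^ 2 * NI H s := by ring

end Pool.Agent.DCP5
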