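import Pool.Agent.DCS.Fin4

/-!
Assembly of the prime power theorem from `final_V4` (hypothesis `hV4`) and the theorem for the ratios near
an integer which is not a prime power (hypothesis `hcore`).
-/

namespace Pool.Agent.DCP5

open Pool.Agent.Helper1.Turan

/-- finitely many `q` together -/
private theorem Fin5_unif {ε : ℝ}
    (hcore : ∀ q : ℕ, 2 ≤ q → ¬ IsPrimePow q → ∃ c : ℝ, 0 < c ∧ ∃ δ : ℝ, 0 < δ ∧ ∃ k₀ : ℕ,
      ∀ k m : ℕ, k₀ ≤ k → (1 + ε) * (k : ℝ) ≤ (m : ℝ) →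
      |(m : ℝ) / ((m : ℝ) - (k : ℝ)) - (q : ℝ)| ≤ δ →
      (1 + c) / ((m - 1).choose (k - 1) : ℝ) ≤ 1 - turanDensity k m) (Q : ℕ) :
    ∃ c : ℝ, 0 < c ∧ ∃ δ : ℝ, 0 < δ ∧ ∃ k₀ : ℕ, ∀ q : ℕ, q < Q → 2 ≤ q → ¬ IsPrimePow q →
      ∀ k m : ℕ, k₀ ≤ k → (1 + ε) * (k : ℝ) ≤ (m : ℝ) →
      |(m : ℝ) / ((m : ℝ) - (k : ℝ)) - (q : ℝ)| ≤ δ →
      (1 + c) / ((m - 1).choose (k - 1) : ℝ) ≤ 1 - turanDensity k m := by
  induction Q with
  | zero => exact ⟨1, one_pos, 1, one_pos, 0, fun q hq => absurd hq (Nat.not_lt_zero _)⟩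
  | succ Q ih =>
    obtain ⟨c, hc, δ, hδ, k₀, h⟩ := ih
    by_cases hQ : 2 ≤ Q ∧ ¬ IsPrimePow Q
    · obtain ⟨c1, hc1, δ1, hδ1, k1, h1⟩ := hcore Q hQ.1 hQ.2
      refine ⟨min c c1, lt_min hc hc1, min δ δ1, lt_min hδ hδ1, max k₀ k1, ?_⟩
      intro q hq h2 hp k m hk hm hx
      have hpos : (0:ℝ) ≤ ((m - 1).choose (k - 1) : ℝ) := Nat.cast_nonneg _
      rcases Nat.lt_succ_iff_lt_or_eq.1 hq with h3 | rfl
      · refine le_trans ?_ (h q h3 h2 hp k m ((le_max_left _ _).trans hk) hm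
          (hx.trans (min_le_left _ _)))
        exact div_le_div_of_nonneg_right (by linarith [min_le_left c c1]) hpos
      · refine le_trans ?_ (h1 k m ((le_max_right _ _).trans hk) hm
          (hx.trans (min_le_right _ _)))
        exact div_le_div_of_nonneg_right (by linarith [min_le_right c c1]) hpos
    · refine ⟨c, hc, δ, hδ, k₀, fun q hq h2 hp => h q ?_ h2 hp⟩
      rcases Nat.lt_succ_iff_lt_or_eq.1 hq with h3 | rfl
      · exact h3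
      · exact absurd ⟨h2, hp⟩ hQ

/-- the nearest integer `r ≥ 2` -/
private theorem Fin5_near {x : ℝ} (_hx : 1 < x) :
    ∃ r : ℕ, 2 ≤ r ∧ (∀ q : ℕ, 2 ≤ q → |x - (r : ℝ)| ≤ |x - (q : ℝ)|) ∧ (r : ℝ) ≤ x + 1 := by
  by_cases h : x < 3 / 2
  · refine ⟨2, le_rfl, fun q hq => ?_, by push_cast; linarith⟩
    have hq' : (2:ℝ) ≤ (q:ℝ) := by exact_mod_cast hq
    rw [abs_sub_comm, abs_sub_comm x (q:ℝ)]
    push_cast
    rw [abs_of_nonneg (by linarith), abs_of_nonneg (by linarith)]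
    linarith
  · push Not at h
    have hr : 2 ≤ round x := by
      rw [round_eq, Int.le_floor]
      push_cast
      linarith
    obtain ⟨q, hq⟩ : ∃ q : ℕ, round x = (q : ℤ) := ⟨(round x).toNat, by
      rw [Int.toNat_of_nonneg (by omega)]⟩
    have hq2 : 2 ≤ q := by
      rw [hq] at hr
      exact_mod_cast hr
    refine ⟨q, hq2, fun q' _ => ?_, ?_⟩
    · have h1 := round_le x (q' : ℤ)
      rw [hq] at h1
      exact_mod_cast h1
    · have h1 := abs_le.1 (abs_sub_round x)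
      rw [hq] at h1
      have h2 : ((q : ℤ) : ℝ) = (q : ℝ) := by push_cast; ring
      rw [h2] at h1
      linarith [h1.1]

theorem fin5_of
    (hV4 : ∀ ε : ℝ, 0 < ε → ∃ c : ℝ, 0 < c ∧ ∀ k m : ℕ, 3 ≤ k → (1 + ε) * (k : ℝ) ≤ (m : ℝ) →
      Filter.Tendsto (fun n : ℕ => (exNum k m n : ℝ) / (n.choose k : ℝ)) Filter.atTop
        (nhds (turanDensity k m)) ∧
      ∀ D : ℝ, (∀ q : ℕ, 2 ≤ q → D ≤ |(m : ℝ) / ((m : ℝ) - (k : ℝ)) - (q : ℝ)|) →
        (1 + c * max (1 / (k : ℝ)) D) / ((m - 1).choose (k - 1) : ℝ) ≤ 1 - turanDensity k m)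
    (hcore : ∀ ε : ℝ, 0 < ε → ∀ q : ℕ, 2 ≤ q → ¬ IsPrimePow q → ∃ c : ℝ, 0 < c ∧ ∃ δ : ℝ,
      0 < δ ∧ ∃ k₀ : ℕ, ∀ k m : ℕ, k₀ ≤ k → (1 + ε) * (k : ℝ) ≤ (m : ℝ) →
      |(m : ℝ) / ((m : ℝ) - (k : ℝ)) - (q : ℝ)| ≤ δ →
      (1 + c) / ((m - 1).choose (k - 1) : ℝ) ≤ 1 - turanDensity k m) :
    ∀ ε : ℝ, 0 < ε → ∃ c : ℝ, 0 < c ∧ ∀ k m : ℕ, 3 ≤ k → (1 + ε) * (k : ℝ) ≤ (m : ℝ) →
      Filter.Tendsto (fun n : ℕ => (exNum k m n : ℝ) / (n.choose k : ℝ)) Filter.atTop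
        (nhds (turanDensity k m)) ∧
      ∀ D : ℝ, (∀ q : ℕ, IsPrimePow q → D ≤ |(m : ℝ) / ((m : ℝ) - (k : ℝ)) - (q : ℝ)|) →
        (1 + c * max (1 / (k : ℝ)) D) / ((m - 1).choose (k - 1) : ℝ) ≤ 1 - turanDensity k m := by
  intro ε hε
  obtain ⟨c4, hc4, h4⟩ := hV4 ε hε
  obtain ⟨Q, hQ⟩ : ∃ Q : ℕ, 1 / ε + 2 < (Q : ℝ) := exists_nat_gt _
  obtain ⟨c5, hc5, δ, hδ, k₀, h5⟩ := Fin5_unif (hcore ε hε) Q
  obtain ⟨K, hK⟩ : ∃ K : ℝ, K = (k₀ : ℝ) + 1 := ⟨_, rfl⟩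
  have hK0 : 0 < K := by rw [hK]; positivity
  obtain ⟨M, hM⟩ : ∃ M : ℝ, M = max 1 (1 / ε) := ⟨_, rfl⟩
  have hM1 : 1 ≤ M := by rw [hM]; exact le_max_left _ _
  have hM2 : 1 / ε ≤ M := by rw [hM]; exact le_max_right _ _
  have hM0 : 0 < M := by linarith
  obtain ⟨c, hc, hca, hcb, hcc, hcd⟩ : ∃ c : ℝ, 0 < c ∧ c ≤ c4 ∧ c ≤ c4 / (K * M) ∧
      c ≤ c5 / M ∧ c ≤ c4 * δ / M := by
    refine ⟨min c4 (min (c4 / (K * M)) (min (c5 / M) (c4 * δ / M))),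
      lt_min hc4 (lt_min (by positivity) (lt_min (by positivity) (by positivity))),
      min_le_left _ _, (min_le_right _ _).trans (min_le_left _ _),
      (min_le_right _ _).trans ((min_le_right _ _).trans (min_le_left _ _)),
      (min_le_right _ _).trans ((min_le_right _ _).trans (min_le_right _ _))⟩
  refine ⟨c, hc, fun k m hk hm => ?_⟩
  obtain ⟨hT, h4'⟩ := h4 k m hk hm
  refine ⟨hT, fun D hD => ?_⟩
  have hk0 : (3:ℝ) ≤ (k:ℝ) := by exact_mod_cast hk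
  have hkm' : (k:ℝ) < (m:ℝ) := by nlinarith
  have hmk : 0 < (m:ℝ) - (k:ℝ) := by linarith
  have hpos : (0:ℝ) ≤ ((m - 1).choose (k - 1) : ℝ) := Nat.cast_nonneg _
  obtain ⟨x, hx⟩ : ∃ x : ℝ, x = (m : ℝ) / ((m : ℝ) - (k : ℝ)) := ⟨_, rfl⟩
  rw [← hx] at hD h4'
  have hx1 : x - 1 = (k:ℝ) / ((m:ℝ) - (k:ℝ)) := by
    rw [hx]; field_simp; ring
  have hx0 : 1 < x := by
    have : 0 < x - 1 := by rw [hx1]; positivity
    linarith
  have hxle : x - 1 ≤ 1 / ε := by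
    rw [hx1, div_le_div_iff₀ hmk hε]
    nlinarith
  have h2pp : IsPrimePow 2 := Nat.prime_two.isPrimePow
  have hDM : D ≤ M := by
    have h1 := hD 2 h2pp
    push_cast at h1
    rcases le_total x 2 with h2 | h2
    · rw [abs_of_nonpos (by linarith)] at h1
      linarith
    · rw [abs_of_nonneg (by linarith)] at h1
      linarith
  have hkM : 1 / (k:ℝ) ≤ M := by
    have : 1 / (k:ℝ) ≤ 1 := by
      rw [div_le_one (by linarith)]; linarith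
    linarith
  have hkpos : 0 < 1 / (k:ℝ) := by positivity
  have hmaxM : max (1 / (k:ℝ)) D ≤ M := max_le hkM hDM
  have hmax0 : 0 ≤ max (1 / (k:ℝ)) D := le_trans hkpos.le (le_max_left _ _)
  have hmono : ∀ y : ℝ, c * max (1 / (k:ℝ)) D ≤ y →
      (1 + y) / ((m - 1).choose (k - 1) : ℝ) ≤ 1 - turanDensity k m →
      (1 + c * max (1 / (k:ℝ)) D) / ((m - 1).choose (k - 1) : ℝ) ≤ 1 - turanDensity k m := by
    intro y hy h
    refine le_trans ?_ h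
    exact div_le_div_of_nonneg_right (by linarith) hpos
  by_cases hkk : k < k₀
  · have h6 := h4' 0 (fun q _ => abs_nonneg _)
    refine hmono _ ?_ h6
    have h7 : 1 / K ≤ max (1 / (k:ℝ)) 0 := by
      refine le_trans ?_ (le_max_left _ _)
      refine one_div_le_one_div_of_le (by linarith) ?_
      rw [hK]
      have : (k:ℝ) ≤ (k₀:ℝ) := by exact_mod_cast hkk.le
      linarith
    calc c * max (1 / (k:ℝ)) D ≤ c4 / (K * M) * M :=
          mul_le_mul hcb hmaxM hmax0 (by positivity)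
      _ = c4 * (1 / K) := by field_simp
      _ ≤ c4 * max (1 / (k:ℝ)) 0 := mul_le_mul_of_nonneg_left h7 hc4.le
  · push Not at hkk
    obtain ⟨r, hr2, hrmin, hrx⟩ := Fin5_near hx0
    have hrQ : r < Q := by
      have : (r:ℝ) < (Q:ℝ) := by linarith
      exact_mod_cast this
    have h6 := h4' |x - (r:ℝ)| hrmin
    by_cases hpp : IsPrimePow r
    · refine hmono _ ?_ h6
      have h7 := hD r hpp
      exact mul_le_mul hca (max_le_max le_rfl h7) hmax0 hc4.le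
    · by_cases hd : |x - (r:ℝ)| ≤ δ
      · have h7 := h5 r hrQ hr2 hpp k m hkk hm (by rw [← hx]; exact hd)
        refine hmono _ ?_ h7
        calc c * max (1 / (k:ℝ)) D ≤ c5 / M * M :=
              mul_le_mul hcc hmaxM hmax0 (by positivity)
          _ = c5 := by field_simp
      · push Not at hd
        refine hmono _ ?_ h6
        calc c * max (1 / (k:ℝ)) D ≤ c4 * δ / M * M :=
              mul_le_mul hcd hmaxM hmax0 (by positivity)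
          _ = c4 * δ := by field_simp
          _ ≤ c4 * max (1 / (k:ℝ)) |x - (r:ℝ)| :=
            mul_le_mul_of_nonneg_left (hd.le.trans (le_max_right _ _)) hc4.le

end Pool.Agent.DCP5
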