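import Pool.Agent.DCS.Levels
import Pool.Agent.DCS.Bridge

namespace Pool.Agent.DCP5

open Finset Pool.Agent.Helper2.DC Pool.Agent.DCS Pool.Agent.Helper1.Turan

/-- from the statement on almost extremal hypergraphs to the lower bound for the density -/
theorem core5_of (ε : ℝ) (hε : 0 < ε) (q : ℕ) (hq : 2 ≤ q)
    (htop : ∃ δ : ℝ, 0 < δ ∧ ∃ e1 : ℝ, 0 < e1 ∧ ∃ k0 : ℕ, ∀ k m : ℕ, k0 ≤ k →
      (1 + ε) * (k : ℝ) ≤ (m : ℝ) → |(m : ℝ) / ((m : ℝ) - (k : ℝ)) - (q : ℝ)| ≤ δ →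
      ∀ e : ℝ, 0 < e → e ≤ e1 → ∀ {V : Type} [Fintype V] [DecidableEq V]
      (H : Finset (Finset V)), (∀ f ∈ H, f.card = k) →
      (m : ℝ) ≤ e * (Fintype.card V : ℝ) → NI H m = 0 → 0 < NI H (m - 1) →
      (H.card : ℝ) / ((Fintype.card V).choose k : ℝ) ≤ (1 + e) / ((m - 1).choose (k - 1) : ℝ) →
      IsPrimePow q)
    (hpp : ¬ IsPrimePow q) :
    ∃ c : ℝ, 0 < c ∧ ∃ δ : ℝ, 0 < δ ∧ ∃ k0 : ℕ, ∀ k m : ℕ, k0 ≤ k →
      (1 + ε) * (k : ℝ) ≤ (m : ℝ) → |(m : ℝ) / ((m : ℝ) - (k : ℝ)) - (q : ℝ)| ≤ δ →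
      (1 + c) / ((m - 1).choose (k - 1) : ℝ) ≤ 1 - turanDensity k m := by
  obtain ⟨δ, hδ, e1, he1, k0, h⟩ := htop
  refine ⟨min e1 (1 / 48), lt_min he1 (by norm_num), min δ (1 / 2), lt_min hδ (by norm_num),
    max 8 (max k0 ⌈2 / ε⌉₊), ?_⟩
  intro k m hk h1 h2
  have hk8 : 8 ≤ k := (le_max_left _ _).trans hk
  have hk' : max k0 ⌈2 / ε⌉₊ ≤ k := (le_max_right _ _).trans hk
  have hk0 : k0 ≤ k := (le_max_left _ _).trans hk'
  have hkε : 2 / ε ≤ (k : ℝ) := (Nat.le_ceil _).trans (by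
    exact_mod_cast (le_max_right k0 ⌈2 / ε⌉₊).trans hk')
  have h2ε : 2 ≤ ε * k := by
    rw [div_le_iff₀ hε] at hkε
    linarith
  have hkm2 : k + 2 ≤ m := by
    have h3 : (k:ℝ) + 2 ≤ (m:ℝ) := by linarith
    exact_mod_cast h3
  have hk8R : (8 : ℝ) ≤ k := by exact_mod_cast hk8
  have hkm' : (k:ℝ) < (m:ℝ) := by nlinarith
  have hkm : k < m := by exact_mod_cast hkm'
  have hq2 : (2:ℝ) ≤ (q:ℝ) := by exact_mod_cast hq
  have h2a := h2.trans (min_le_left _ _)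
  have h2b := abs_le.1 (h2.trans (min_le_right _ _))
  have hmk : 0 < (m:ℝ) - (k:ℝ) := by linarith
  have hm3 : (m:ℝ) ≤ 3 * k := by
    have h3 : 3 / 2 ≤ (m : ℝ) / ((m : ℝ) - (k : ℝ)) := by linarith [h2b.1]
    rw [le_div_iff₀ hmk] at h3
    linarith
  refine bridge (by omega) hkm ?_
  obtain ⟨e, he⟩ : ∃ e : ℝ, e = min e1 (1 / 48) := ⟨_, rfl⟩
  have he0 : 0 < e := by rw [he]; exact lt_min he1 (by norm_num)
  have hee1 : e ≤ e1 := by rw [he]; exact min_le_left _ _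
  have hee2 : e ≤ 1 / 48 := by rw [he]; exact min_le_right _ _
  rw [← he]
  refine ⟨⌈(m : ℝ) / e⌉₊, fun n hn H hH h0 => ?_⟩
  have hmn : (m : ℝ) ≤ e * (Fintype.card (Fin n) : ℝ) := by
    rw [Fintype.card_fin]
    have h3 : (m : ℝ) / e ≤ (n : ℝ) := (Nat.le_ceil _).trans (by exact_mod_cast hn)
    rw [div_le_iff₀ he0] at h3
    linarith
  by_cases hN : NI H (m - 1) = 0
  · obtain ⟨s, rfl⟩ : ∃ s, m = s + 3 := ⟨m - 3, by omega⟩
    have e2 : s + 3 - 1 = s + 2 := by omega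
    rw [e2] at hN ⊢
    have hm' : ((s + 3 : ℕ) : ℝ) = (s : ℝ) + 3 := by push_cast; ring
    rw [hm'] at hmn hm3
    have h3 := Levels_empty hH hk8 (s := s) (by omega) he0 ?_ hmn hN
    · rw [Fintype.card_fin] at h3
      exact h3
    · refine hee2.trans ?_
      have hs3 : (0:ℝ) < (s:ℝ) + 3 := by positivity
      rw [div_div, div_le_div_iff₀ (by norm_num) (by positivity)]
      linarith
  · have hNpos : 0 < NI H (m - 1) := lt_of_le_of_ne (NI_nonneg _ _) (Ne.symm hN)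
    by_contra hcon
    push Not at hcon
    refine hpp (h k m hk0 h1 h2a e he0 hee1 H hH hmn h0 hNpos ?_)
    rw [Fintype.card_fin]
    exact hcon.le

end Pool.Agent.DCP5
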