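import Pool.Agent.DCP5.Ctop5
import Pool.Agent.DCP5.Red5
import Pool.Agent.DCP5.Fin5
import Pool.Agent.DCS.Main4

/-!
De Caen's bound is off by the factor `1 + c max(1/k, D)`, `D` the distance of `m / (m - k)` from the set of prime powers,
for all `k ≥ 3` and all `m ≥ (1 + ε) k`.
-/

namespace Pool.Agent.DCP5

open Pool.Agent.Helper1.Turan

theorem final_V5 :
    ∀ ε : ℝ, 0 < ε → ∃ c : ℝ, 0 < c ∧ ∀ k m : ℕ, 3 ≤ k → (1 + ε) * (k : ℝ) ≤ (m : ℝ) →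
      Filter.Tendsto (fun n : ℕ => (exNum k m n : ℝ) / (n.choose k : ℝ)) Filter.atTop
        (nhds (turanDensity k m)) ∧
      ∀ D : ℝ, (∀ q : ℕ, IsPrimePow q → D ≤ |(m : ℝ) / ((m : ℝ) - (k : ℝ)) - (q : ℝ)|) →
        (1 + c * max (1 / (k : ℝ)) D) / ((m - 1).choose (k - 1) : ℝ) ≤ 1 - turanDensity k m := by
  exact fin5_of Pool.Agent.DCS.final_V4
    (fun ε hε q hq hp => core5_of ε hε q hq (ctop5 ε hε q hq) hp)

end Pool.Agent.DCP5
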