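import Mathlib

/-!
# DCP5.PPc: an affine plane with a transitive set of translations has prime power order (helper98)
-/

namespace Pool.Agent.DCP5.PPc

open scoped Classical

variable {A L : Type*}

/-- Same point or joined in direction `d`. -/
def Rel (dir : A → A → L) (d : L) (x y : A) : Prop := x = y ∨ dir x y = d

/-- The plane axioms. -/
structure Plane (dir : A → A → L) : Prop where
  symm : ∀ x y, x ≠ y → dir x y = dir y x
  tri : ∀ x y z, x ≠ y → x ≠ z → y ≠ z → dir x y = dir x z → dir y z = dir x y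
  meet : ∀ a b : L, a ≠ b → ∀ x y : A, ∃ z, (z = x ∨ dir x z = a) ∧ (z = y ∨ dir y z = b)
  full : ∀ (a : L) (x : A), ∃ y, y ≠ x ∧ dir x y = a
  two : ∃ a b : L, a ≠ b

theorem Rel.refl {dir : A → A → L} (d : L) (x : A) : Rel dir d x x := Or.inl rfl

theorem Rel.symm' {dir : A → A → L} (P : Plane dir) {d : L} {x y : A} (h : Rel dir d x y) :
    Rel dir d y x := by
  rcases h with h | h
  · exact Or.inl h.symm
  · by_cases hxy : x = y
    · exact Or.inl hxy.symm
    · exact Or.inr ((P.symm x y hxy).symm.trans h)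

theorem Rel.trans' {dir : A → A → L} (P : Plane dir) {d : L} {x y z : A} (h : Rel dir d x y)
    (h' : Rel dir d y z) : Rel dir d x z := by
  by_cases hxy : x = y
  · subst hxy; exact h'
  by_cases hyz : y = z
  · subst hyz; exact h
  by_cases hxz : x = z
  · exact Or.inl hxz
  have h1 : dir y x = d := by
    rcases h with h | h
    · exact absurd h hxy
    · rw [← h]; exact (P.symm x y hxy).symm
  have h2 : dir y z = d := by
    rcases h' with h' | h'
    · exact absurd h' hyz
    · exact h'
  have := P.tri y x z (Ne.symm hxy) hyz hxz (h1.trans h2.symm)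
  exact Or.inr (this.trans h1)

theorem Rel.uniq {dir : A → A → L} {a b : L} (hab : a ≠ b) {x y : A}
    (h : Rel dir a x y) (h' : Rel dir b x y) : x = y := by
  rcases h with h | h
  · exact h
  rcases h' with h' | h'
  · exact h'
  exact absurd (h.symm.trans h') hab

theorem meet' {dir : A → A → L} (P : Plane dir) {a b : L} (hab : a ≠ b) (x y : A) :
    ∃ z, Rel dir a x z ∧ Rel dir b y z := by
  obtain ⟨z, h1, h2⟩ := P.meet a b hab x y
  refine ⟨z, ?_, ?_⟩
  · rcases h1 with h | h
    · exact Or.inl h.symm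
    · exact Or.inr h
  · rcases h2 with h | h
    · exact Or.inl h.symm
    · exact Or.inr h

/-- Direction preserving permutations. -/
def Dil (dir : A → A → L) (s : Equiv.Perm A) : Prop :=
  ∀ x y, x ≠ y → dir (s x) (s y) = dir x y

theorem Dil.rel {dir : A → A → L} {s : Equiv.Perm A} (hs : Dil dir s) {d : L} {x y : A}
    (h : Rel dir d x y) : Rel dir d (s x) (s y) := by
  by_cases hxy : x = y
  · subst hxy; exact Or.inl rfl
  rcases h with h | h
  · exact absurd h hxy
  · exact Or.inr ((hs x y hxy).trans h)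

theorem Dil.mul {dir : A → A → L} {s t : Equiv.Perm A} (hs : Dil dir s) (ht : Dil dir t) :
    Dil dir (s * t) := by
  intro x y hxy
  have : t x ≠ t y := fun h => hxy (t.injective h)
  simp only [Equiv.Perm.mul_apply]
  rw [hs _ _ this, ht _ _ hxy]

theorem Dil.inv {dir : A → A → L} {s : Equiv.Perm A} (hs : Dil dir s) :
    Dil dir s⁻¹ := by
  intro x y hxy
  have : s⁻¹ x ≠ s⁻¹ y := fun h => hxy (s⁻¹.injective h)
  have := hs _ _ this
  simpa using this.symm

/-- Another direction. -/
theorem other {dir : A → A → L} (P : Plane dir) (d : L) : ∃ e : L, e ≠ d := by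
  obtain ⟨a, b, hab⟩ := P.two
  by_cases h : a = d
  · exact ⟨b, fun hb => hab (h.trans hb.symm)⟩
  · exact ⟨a, h⟩

/-- A point off a line. -/
theorem off {dir : A → A → L} (P : Plane dir) (d : L) (x : A) : ∃ y, ¬ Rel dir d x y := by
  obtain ⟨e, he⟩ := other P d
  obtain ⟨y, hy, hxy⟩ := P.full e x
  refine ⟨y, ?_⟩
  rintro (h | h)
  · exact hy h.symm
  · exact he (hxy.symm.trans h)

theorem fix_off {dir : A → A → L} (P : Plane dir) {s : Equiv.Perm A} (hs : Dil dir s) {p r x : A}
    (hpr : p ≠ r) (hp : s p = p) (hr : s r = r) (hx : ¬ Rel dir (dir p r) p x) : s x = x := by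
  have hpx : p ≠ x := fun h => hx (Or.inl h)
  have hrx : r ≠ x := by
    intro h; subst h; exact hx (Or.inr rfl)
  have hd : dir p x ≠ dir r x := by
    intro h
    apply hx
    right
    have h1 : dir x p = dir x r := by
      rw [← P.symm p x hpx, ← P.symm r x hrx, h]
    have h2 := P.tri x p r (Ne.symm hpx) (Ne.symm hrx) hpr h1
    rw [h2, P.symm p x hpx]
  have h1 : Rel dir (dir p x) x (s x) := by
    have a1 : Rel dir (dir p x) p x := Or.inr rfl
    have a2 := hs.rel a1
    rw [hp] at a2
    exact (a1.symm' P).trans' P a2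
  have h2 : Rel dir (dir r x) x (s x) := by
    have a1 : Rel dir (dir r x) r x := Or.inr rfl
    have a2 := hs.rel a1
    rw [hr] at a2
    exact (a1.symm' P).trans' P a2
  exact (Rel.uniq hd h1 h2).symm

theorem fix_two {dir : A → A → L} (P : Plane dir) {s : Equiv.Perm A} (hs : Dil dir s) {p r : A}
    (hpr : p ≠ r) (hp : s p = p) (hr : s r = r) : s = 1 := by
  apply Equiv.ext
  intro x
  by_cases hx : Rel dir (dir p r) p x
  · by_cases hpx : p = x
    · subst hpx; simpa using hp
    obtain ⟨y, hy⟩ := off P (dir p r) p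
    have hsy := fix_off P hs hpr hp hr hy
    have hpy : p ≠ y := fun h => hy (Or.inl h)
    have hx' : ¬ Rel dir (dir p y) p x := by
      intro h
      have h1 : dir p x = dir p y := by
        rcases h with h | h
        · exact absurd h hpx
        · exact h
      have h2 : dir p x = dir p r := by
        rcases hx with h | h
        · exact absurd h hpx
        · exact h
      exact hy (Or.inr (h1.symm.trans h2))
    simpa using fix_off P hs hpy hp hsy hx'
  · simpa using fix_off P hs hpr hp hr hx

/-- Translations. -/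
def IsTr (dir : A → A → L) (s : Equiv.Perm A) : Prop :=
  Dil dir s ∧ (s = 1 ∨ ∀ x, s x ≠ x)

theorem IsTr.eq_one {dir : A → A → L} {s : Equiv.Perm A} (hs : IsTr dir s) {x : A}
    (h : s x = x) : s = 1 := by
  rcases hs.2 with h1 | h1
  · exact h1
  · exact absurd h (h1 x)

/-- A translation moves all points in the same direction. -/
theorem IsTr.dir_eq {dir : A → A → L} (P : Plane dir) {s : Equiv.Perm A} (hs : IsTr dir s)
    (hne : s ≠ 1) (x y : A) : dir x (s x) = dir y (s y) := by
  by_contra hd
  obtain ⟨z, h1, h2⟩ := meet' P hd x y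
  have a1 : Rel dir (dir x (s x)) z (s z) :=
    (h1.symm' P).trans' P (Rel.trans' P (Or.inr rfl) (hs.1.rel h1))
  have a2 : Rel dir (dir y (s y)) z (s z) :=
    (h2.symm' P).trans' P (Rel.trans' P (Or.inr rfl) (hs.1.rel h2))
  exact hne (hs.eq_one (Rel.uniq hd a1 a2).symm)

/-- `s` moves every point along direction `d` (or not at all). -/
def Along (dir : A → A → L) (d : L) (s : Equiv.Perm A) : Prop := ∀ x, Rel dir d x (s x)

theorem IsTr.along {dir : A → A → L} (P : Plane dir) {s : Equiv.Perm A} (hs : IsTr dir s)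
    (hne : s ≠ 1) (x : A) : Along dir (dir x (s x)) s := by
  intro y
  exact Or.inr (hs.dir_eq P hne y x)

theorem Along.mul {dir : A → A → L} (P : Plane dir) {d : L} {s t : Equiv.Perm A}
    (hs : Along dir d s) (ht : Along dir d t) : Along dir d (s * t) := by
  intro x
  exact (ht x).trans' P (hs (t x))

theorem Along.inv {dir : A → A → L} (P : Plane dir) {d : L} {s : Equiv.Perm A}
    (hs : Along dir d s) : Along dir d s⁻¹ := by
  intro x
  have h0 : s (s⁻¹ x) = x := Equiv.apply_symm_apply s x
  have := hs (s⁻¹ x)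
  rw [h0] at this
  exact this.symm' P

theorem Along.one {dir : A → A → L} {d : L} : Along dir d (1 : Equiv.Perm A) := fun _ => Or.inl rfl

theorem Along.pow {dir : A → A → L} (P : Plane dir) {d : L} {s : Equiv.Perm A}
    (hs : Along dir d s) (n : ℕ) : Along dir d (s ^ n) := by
  induction n with
  | zero => simpa using Along.one
  | succ n ih => rw [pow_succ]; exact ih.mul P hs

/-- A permutation along two directions is the identity. -/
theorem Along.eq_one {dir : A → A → L} {a b : L} (hab : a ≠ b) {s : Equiv.Perm A}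
    (h : Along dir a s) (h' : Along dir b s) : s = 1 := by
  apply Equiv.ext
  intro x
  simpa using (Rel.uniq hab (h x) (h' x)).symm

theorem IsTr.one (dir : A → A → L) : IsTr dir (1 : Equiv.Perm A) :=
  ⟨fun _ _ _ => rfl, Or.inl rfl⟩

theorem IsTr.inv {dir : A → A → L} {s : Equiv.Perm A} (hs : IsTr dir s) : IsTr dir s⁻¹ := by
  refine ⟨hs.1.inv, ?_⟩
  rcases hs.2 with h | h
  · left; rw [h, inv_one]
  · right
    intro x hx
    apply h x
    have h0 : s (s⁻¹ x) = x := Equiv.apply_symm_apply s x
    have := congrArg s hx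
    rw [h0] at this
    exact this.symm

theorem IsTr.mul {dir : A → A → L} (P : Plane dir) {s t : Equiv.Perm A} (hs : IsTr dir s)
    (ht : IsTr dir t) : IsTr dir (s * t) := by
  refine ⟨hs.1.mul ht.1, ?_⟩
  by_cases hfix : ∃ x, (s * t) x = x
  swap
  · right
    intro x hx
    exact hfix ⟨x, hx⟩
  left
  obtain ⟨p, hp⟩ := hfix
  have hp' : s (t p) = p := hp
  by_cases htp : t p = p
  · have h1 := ht.eq_one htp
    rw [htp] at hp'
    have h2 := hs.eq_one hp'
    rw [h1, h2, one_mul]
  have ht1 : t ≠ 1 := by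
    intro h; apply htp; rw [h]; rfl
  have hs1 : s ≠ 1 := by
    intro h; apply htp; rw [h] at hp'; exact hp'
  have hta := ht.along P ht1 p
  have hsa : Along dir (dir p (t p)) s := by
    have := hs.along P hs1 (t p)
    rwa [hp', P.symm _ _ htp] at this
  have hal : Along dir (dir p (t p)) (s * t) := hsa.mul P hta
  obtain ⟨r, hr⟩ := off P (dir p (t p)) p
  have hpr : p ≠ r := fun h => hr (Or.inl h)
  have hd : dir p r ≠ dir p (t p) := fun h => hr (Or.inr h)
  have h1 : Rel dir (dir p r) r ((s * t) r) := by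
    have a1 : Rel dir (dir p r) p r := Or.inr rfl
    have a2 := (hs.1.mul ht.1).rel a1
    rw [hp] at a2
    exact (a1.symm' P).trans' P a2
  have h2 := Rel.uniq hd h1 (hal r)
  exact fix_two P (hs.1.mul ht.1) hpr hp h2.symm

/-- The group of translations. -/
def Tr (dir : A → A → L) (P : Plane dir) : Subgroup (Equiv.Perm A) where
  carrier := {s | IsTr dir s}
  mul_mem' := fun hs ht => IsTr.mul P hs ht
  one_mem' := IsTr.one dir
  inv_mem' := fun hs => IsTr.inv hs

theorem comm_of_ne {dir : A → A → L} (P : Plane dir) {a b : L} (hab : a ≠ b)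
    {s t : Equiv.Perm A} (hs : IsTr dir s) (ht : IsTr dir t) (hsa : Along dir a s)
    (htb : Along dir b t) : s * t = t * s := by
  apply Equiv.ext
  intro x
  have h1 : Rel dir a (t x) ((s * t) x) := hsa (t x)
  have h2 : Rel dir b (s x) ((s * t) x) := hs.1.rel (htb x)
  have h3 : Rel dir b (s x) ((t * s) x) := htb (s x)
  have h4 : Rel dir a (t x) ((t * s) x) := ht.1.rel (hsa x)
  exact Rel.uniq hab ((h1.symm' P).trans' P h4) ((h2.symm' P).trans' P h3)

/-- If a nontrivial translation in direction `a` has `p`-th power 1, so has every translation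
in another direction. -/
theorem pow_other {dir : A → A → L} (P : Plane dir) {a b : L} (hab : a ≠ b) {p : ℕ}
    {s t : Equiv.Perm A} (hs : IsTr dir s) (ht : IsTr dir t) (hsa : Along dir a s)
    (htb : Along dir b t) (hs1 : s ≠ 1) (hsp : s ^ p = 1) : t ^ p = 1 := by
  by_contra hne
  have hcomm : Commute s t := comm_of_ne P hab hs ht hsa htb
  have h1 : (s * t) ^ p = t ^ p := by
    rw [hcomm.mul_pow, hsp, one_mul]
  have hst : IsTr dir (s * t) := hs.mul P ht
  have hst1 : s * t ≠ 1 := by
    intro h; apply hne; rw [← h1, h, one_pow]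
  have ⟨x, _⟩ : ∃ x, s x ≠ x := by
    by_contra hcon
    push Not at hcon
    exact hs1 (Equiv.ext hcon)
  have hc := hst.along P hst1 x
  have hcp := hc.pow P p
  rw [h1] at hcp
  have htbp := htb.pow P p
  by_cases hcb : dir x ((s * t) x) = b
  · rw [hcb] at hc
    have : Along dir b s := by
      have := hc.mul P (htb.inv P)
      simpa using this
    exact hs1 (hsa.eq_one hab this)
  · exact hne (hcp.eq_one hcb htbp)

theorem main [Fintype A] {dir : A → A → L} (P : Plane dir) (q : ℕ) (hq : 2 ≤ q)
    (hcard : Fintype.card A = q ^ 2)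
    (htr : ∀ a b : A, ∃ s : Equiv.Perm A, s a = b ∧ IsTr dir s) : IsPrimePow q := by
  classical
  have hA : 0 < Fintype.card A := by rw [hcard]; positivity
  obtain ⟨x0⟩ := Fintype.card_pos_iff.1 hA
  -- the order of the group
  have hbij : Function.Bijective (fun s : Tr dir P => (s : Equiv.Perm A) x0) := by
    constructor
    · intro s t hst
      have h1 : IsTr dir ((t : Equiv.Perm A)⁻¹ * (s : Equiv.Perm A)) := (t.2 : IsTr dir _).inv.mul P s.2
      have h2 : ((t : Equiv.Perm A)⁻¹ * (s : Equiv.Perm A)) x0 = x0 := by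
        have : (s : Equiv.Perm A) x0 = (t : Equiv.Perm A) x0 := hst
        rw [Equiv.Perm.mul_apply, this]
        exact Equiv.symm_apply_apply (t : Equiv.Perm A) x0
      have h3 := h1.eq_one h2
      apply Subtype.ext
      rw [inv_mul_eq_one] at h3
      exact h3.symm
    · intro b
      obtain ⟨s, hs, hs'⟩ := htr x0 b
      exact ⟨⟨s, hs'⟩, hs⟩
  have hcT : Nat.card (Tr dir P) = q ^ 2 := by
    rw [Nat.card_eq_of_bijective _ hbij, Nat.card_eq_fintype_card, hcard]
  have : Finite (Tr dir P) := inferInstance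
  -- a prime and an element of this order
  obtain ⟨p, hp, hpdvd⟩ := Nat.exists_prime_and_dvd (show Nat.card (Tr dir P) ≠ 1 by
    rw [hcT]; intro h; nlinarith)
  have : Fact p.Prime := ⟨hp⟩
  obtain ⟨s, hs⟩ := exists_prime_orderOf_dvd_card' (G := Tr dir P) p hpdvd
  have hs1 : (s : Equiv.Perm A) ≠ 1 := by
    intro h
    have : s = 1 := Subtype.ext h
    rw [this, orderOf_one] at hs
    exact hp.one_lt.ne hs
  have hsp : (s : Equiv.Perm A) ^ p = 1 := by
    have := pow_orderOf_eq_one s
    rw [hs] at this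
    have := congrArg (Subtype.val) this
    simpa using this
  have hsT : IsTr dir (s : Equiv.Perm A) := s.2
  have hsa := hsT.along P hs1 x0
  -- all elements in another direction
  obtain ⟨e, he⟩ := other P (dir x0 ((s : Equiv.Perm A) x0))
  obtain ⟨y, hy, hy'⟩ := P.full e x0
  obtain ⟨u, hu, huT⟩ := htr x0 y
  have hu1 : u ≠ 1 := by
    intro h; apply hy; rw [← hu, h]; rfl
  have hua : Along dir e u := by
    have := huT.along P hu1 x0
    rwa [hu, hy'] at this
  have hup : u ^ p = 1 := pow_other P (Ne.symm he) hsT huT hsa hua hs1 hsp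
  have hall : ∀ t : Tr dir P, t ^ p = 1 := by
    intro t
    apply Subtype.ext
    have htT : IsTr dir (t : Equiv.Perm A) := t.2
    show ((t ^ p : Tr dir P) : Equiv.Perm A) = 1
    rw [SubgroupClass.coe_pow]
    by_cases ht1 : (t : Equiv.Perm A) = 1
    · rw [ht1, one_pow]
    have hta := htT.along P ht1 x0
    by_cases hd : dir x0 ((s : Equiv.Perm A) x0) = dir x0 ((t : Equiv.Perm A) x0)
    · refine pow_other P ?_ huT htT hua hta hu1 hup
      rw [← hd]; exact he
    · exact pow_other P hd hsT htT hsa hta hs1 hsp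
  have hpg : IsPGroup p (Tr dir P) := by
    intro t
    exact ⟨1, by rw [pow_one]; exact hall t⟩
  obtain ⟨n, hn⟩ := (IsPGroup.iff_card).1 hpg
  rw [hcT] at hn
  have hdvd : q ∣ p ^ n := by
    rw [← hn]; exact dvd_pow_self q two_ne_zero
  obtain ⟨m, _, hm⟩ := (Nat.dvd_prime_pow hp).1 hdvd
  rw [isPrimePow_nat_iff]
  refine ⟨p, m, hp, ?_, hm.symm⟩
  rcases Nat.eq_zero_or_pos m with h | h
  · rw [h, pow_zero] at hm; omega
  · exact h

end Pool.Agent.DCP5.PPc
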