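import Pool.Agent.DCP5.Space
import Pool.Agent.DCP5.PPc

/-!
Projections in a finite projective 3-space; the order is a prime power
(V5 of MP_a4d830_co, part (e)).
-/

namespace Pool.Agent.DCP5

open Finset

namespace Sp

variable {P : Type*} {S : Sp P} {q : ℕ} {l m a b c d o x y z w v u x' y' a' : P}

/-- two different planes through the line `l m` meet in this line -/
lemma meet_le (hn : ¬ S.K l m c d) (h1 : S.K l m c x) (h2 : S.K l m d x) : S.C l m x := by
  by_contra hC
  have hc : ¬ S.C l m c := fun h => hn (kC h)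
  have hd : ¬ S.C l m d := fun h => hn (k34 (kC h))
  have e1 : S.K l m x d ↔ S.K l m c d := plane_eq1 hc h1 hC
  have e2 : S.K l m x d ↔ S.K l m d d := plane_eq1 hd h2 hC
  exact hn (e1.1 (e2.2 (kz l m d)))

lemma persp_dir (hd : ¬ S.C l m d) (hc : ¬ S.C l m c) (hoc : ¬ S.K l m c o)
    (hod : ¬ S.K l m d o) (hx : S.K l m c x) (hy : S.K l m c y) (hxy : x ≠ y)
    (hu : S.C l m u) (hxu : S.C x y u) (hx' : S.K l m d x') (hy' : S.K l m d y')
    (h1 : S.C o x x') (h2 : S.C o y y') : x' ≠ y' ∧ S.C x' y' u := by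
  have hn : ¬ S.C o x y := fun h => hoc (line_in_plane hc hx hy hxy (c231 h))
  refine ⟨?_, ?_⟩
  · rintro rfl
    have ho : o ≠ x' := by rintro rfl; exact hod hx'
    exact hn (S.C_tr o x' x y ho (c132 h1) (c132 h2))
  · by_contra hC
    have k1 : S.K o x y x' := k34 (kC h1)
    have k2 : S.K o x y y' := k23 (k34 (kC h2))
    have k3 : S.K o x y u := k312.1 (k34 (kC hxu))
    have hu' : S.K l m d u := k34 (kC hu)
    have e1 : S.K x' y' u o ↔ S.K l m d o := ex hd hx' hy' hu' hC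
    have e2 : S.K x' y' u o ↔ S.K o x y o := ex hn k1 k2 k3 hC
    exact hod (e1.1 (e2.2 (kx o x y)))

section fin
variable [Fintype P] [DecidableEq P] (H : Hyp S q)
include H

lemma persp_ex (hd : ¬ S.C l m d) (hc : ¬ S.C l m c) (hoc : ¬ S.K l m c o)
    (hx : S.K l m c x) (hxl : ¬ S.C l m x) :
    ∃ x', S.K l m d x' ∧ ¬ S.C l m x' ∧ S.C o x x' := by
  have hox : o ≠ x := by rintro rfl; exact hoc hx
  obtain ⟨x', h1, h2⟩ := meet_plane H hd hox
  refine ⟨x', h1, fun h => ?_, h2⟩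
  have h3 : S.K l m c x' := k34 (kC h)
  have h4 : x = x' := uniq hc hoc hox hx h3 (cxyy o x) h2
  rw [← h4] at h
  exact hxl h

open Classical in
lemma off_two (hc : ¬ S.C l m c) (hd : ¬ S.C l m d) :
    ∃ o, ¬ S.K l m c o ∧ ¬ S.K l m d o := by
  by_contra hno
  push Not at hno
  have h1 : (univ : Finset P) ⊆ (univ.filter (fun v => S.K l m c v)) ∪
      (univ.filter (fun v => S.K l m d v)) := by
    intro v _
    by_cases hv : S.K l m c v
    · exact Finset.mem_union_left _ (by simp [hv])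
    · exact Finset.mem_union_right _ (by simp [hno v hv])
  have h2 := (Finset.card_le_card h1).trans (Finset.card_union_le _ _)
  rw [plane_card H hc, plane_card H hd, Finset.card_univ, (exact_counts H hc).2.2] at h2
  have hq := H.q2
  nlinarith [Nat.mul_le_mul hq hq, Nat.mul_le_mul (Nat.mul_le_mul hq hq) hq,
    Nat.mul_le_mul_right (q * q) hq, Nat.mul_le_mul_right q hq, sq_nonneg (q : ℤ)]

end fin

end Sp

open Sp

section main

variable {P : Type*} [Fintype P] [DecidableEq P] (S : Sp P) {q : ℕ}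

/-- points of the plane `l m c` off the line `l m` -/
def Aff (l m c : P) : Type _ := {v : P // S.K l m c v ∧ ¬ S.C l m v}

/-- points of the line `l m` -/
def Inf (l m : P) : Type _ := {v : P // S.C l m v}

open Classical in
/-- direction -/
noncomputable def dir (l m c : P) (x y : Aff S l m c) : Inf S l m :=
  if h : ∃ u : Inf S l m, S.C x.1 y.1 u.1 then h.choose else ⟨l, cxyx l m⟩

variable {S} (H : Hyp S q) {l m c d : P}
include H

lemma dir_spec (hc : ¬ S.C l m c) (x y : Aff S l m c) : S.C x.1 y.1 (dir S l m c x y).1 := by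
  have h : ∃ u : Inf S l m, S.C x.1 y.1 u.1 := by
    by_cases hxy : x.1 = y.1
    · refine ⟨⟨l, cxyx l m⟩, ?_⟩
      rw [hxy]; exact cxx _ _
    · obtain ⟨v, h1, h2⟩ := meet_lines H hc hxy (ne12 hc) x.2.1 y.2.1 (kx l m c) (ky l m c)
      exact ⟨⟨v, h2⟩, h1⟩
  unfold dir
  rw [dif_pos h]
  exact h.choose_spec

omit H in
lemma two_pts {x y u w : P} (hlm : l ≠ m) (hx : ¬ S.C l m x) (hxy : x ≠ y) (hu : S.C l m u)
    (hw : S.C l m w) (h1 : S.C x y u) (h2 : S.C x y w) : u = w := by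
  by_contra hne
  have h3 : S.C u w x := (line_eq hxy hne h1 h2).2 (cxyx x y)
  exact hx ((line_eq hlm hne hu hw).1 h3)

lemma dir_uniq (hc : ¬ S.C l m c) {x y : Aff S l m c} (hxy : x ≠ y) {u : Inf S l m}
    (h : S.C x.1 y.1 u.1) : dir S l m c x y = u := by
  apply Subtype.ext
  exact two_pts (ne12 hc) x.2.2 (fun h => hxy (Subtype.ext h)) (dir S l m c x y).2 u.2
    (dir_spec H hc x y) h

lemma plane_axioms (hc : ¬ S.C l m c) : PPc.Plane (dir S l m c) where
  symm := by
    intro x y hxy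
    exact dir_uniq H hc hxy (c213 (dir_spec H hc y x))
  tri := by
    intro x y z hxy hxz hyz h
    have h1 := dir_spec H hc x y
    have h2 := dir_spec H hc x z
    rw [← h] at h2
    apply dir_uniq H hc hyz
    have hxu : x.1 ≠ (dir S l m c x y).1 := fun e => x.2.2 (e ▸ (dir S l m c x y).2)
    have h3 : S.C x.1 y.1 z.1 := S.C_tr _ _ _ _ hxu (c132 h1) (c132 h2)
    exact line3 (fun e => hxy (Subtype.ext e)) (cxyy _ _) h3 h1
  meet := by
    intro a b hab x y
    have hxa : x.1 ≠ a.1 := fun e => x.2.2 (e ▸ a.2)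
    have hyb : y.1 ≠ b.1 := fun e => y.2.2 (e ▸ b.2)
    have ha : S.K l m c a.1 := k34 (kC a.2)
    have hb : S.K l m c b.1 := k34 (kC b.2)
    obtain ⟨v, h1, h2⟩ := meet_lines H hc hxa hyb x.2.1 ha y.2.1 hb
    have hv : ¬ S.C l m v := by
      intro hv
      have e1 : v = a.1 := two_pts (ne12 hc) x.2.2 hxa hv a.2 h1 (cxyy _ _)
      have e2 : v = b.1 := two_pts (ne12 hc) y.2.2 hyb hv b.2 h2 (cxyy _ _)
      exact hab (Subtype.ext (e1.symm.trans e2))
    have hvp : S.K l m c v := line_in_plane hc x.2.1 ha hxa h1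
    refine ⟨⟨v, hvp, hv⟩, ?_, ?_⟩
    · by_cases e : (⟨v, hvp, hv⟩ : Aff S l m c) = x
      · exact Or.inl e
      · exact Or.inr (dir_uniq H hc (Ne.symm e) (c132 h1))
    · by_cases e : (⟨v, hvp, hv⟩ : Aff S l m c) = y
      · exact Or.inl e
      · exact Or.inr (dir_uniq H hc (Ne.symm e) (c132 h2))
  full := by
    classical
    intro a x
    have hxa : x.1 ≠ a.1 := fun e => x.2.2 (e ▸ a.2)
    have ha : S.K l m c a.1 := k34 (kC a.2)
    have h1 := line_card H hxa
    have hq := H.q2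
    have h2 : ∃ v ∈ univ.filter (fun v => S.C x.1 a.1 v), v ∉ ({x.1, a.1} : Finset P) := by
      apply Finset.exists_mem_notMem_of_card_lt_card
      rw [h1]
      exact lt_of_le_of_lt Finset.card_le_two (by omega)
    obtain ⟨v, hv1, hv2⟩ := h2
    have hC : S.C x.1 a.1 v := (Finset.mem_filter.1 hv1).2
    simp only [Finset.mem_insert, Finset.mem_singleton, not_or] at hv2
    have hv : ¬ S.C l m v := by
      intro hv
      exact hv2.2 (two_pts (ne12 hc) x.2.2 hxa hv a.2 hC (cxyy _ _))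
    have hvp : S.K l m c v := line_in_plane hc x.2.1 ha hxa hC
    refine ⟨⟨v, hvp, hv⟩, fun e => hv2.1 (congrArg Subtype.val e), ?_⟩
    exact dir_uniq H hc (fun e => hv2.1 (congrArg Subtype.val e).symm) (c132 hC)
  two := ⟨⟨l, cxyx l m⟩, ⟨m, cxyy l m⟩, fun e => (ne12 hc) (congrArg Subtype.val e)⟩

lemma transl (hn : ¬ S.K l m c d) (a b : Aff S l m c) :
    ∃ s : Equiv.Perm (Aff S l m c), s a = b ∧ PPc.IsTr (dir S l m c) s := by
  classical
  by_cases hab : a = b
  · exact ⟨1, by simpa using hab, by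
      refine ⟨fun x y _ => rfl, Or.inl rfl⟩⟩
  have hab' : a.1 ≠ b.1 := fun e => hab (Subtype.ext e)
  have hc : ¬ S.C l m c := fun h => hn (kC h)
  have hd : ¬ S.C l m d := fun h => hn (k34 (kC h))
  obtain ⟨o, hoc, hod⟩ := off_two H hc hd
  obtain ⟨a', ha'1, ha'2, ha'3⟩ := persp_ex H hd hc hoc a.2.1 a.2.2
  -- z = the point of the line at infinity on `a b`
  obtain ⟨z, hz⟩ : ∃ z : Inf S l m, S.C a.1 b.1 z.1 := ⟨_, dir_spec H hc a b⟩
  have hzc : S.K l m c z.1 := k34 (kC z.2)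
  have hzd : S.K l m d z.1 := k34 (kC z.2)
  have hoz : o ≠ z.1 := by rintro rfl; exact hoc hzc
  have ha'b : a' ≠ b.1 := by
    rintro rfl
    exact ha'2 (meet_le hn b.2.1 ha'1)
  have hsig : ¬ S.C o a.1 b.1 := fun h => hoc (line_in_plane hc a.2.1 b.2.1 hab' (c231 h))
  have k1 : S.K o a.1 b.1 a' := k34 (kC ha'3)
  have k3 : S.K o a.1 b.1 z.1 := k312.1 (k34 (kC hz))
  obtain ⟨o2, h1, h2⟩ := meet_lines H hsig ha'b hoz k1 (kz o a.1 b.1) (kx o a.1 b.1) k3
  have hbz : b.1 ≠ z.1 := fun e => b.2.2 (e ▸ z.2)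
  have ha'z : a' ≠ z.1 := fun e => ha'2 (e ▸ z.2)
  have ho2c : ¬ S.K l m c o2 := by
    intro h
    have e : z.1 = o2 := uniq hc hoc hoz hzc h (cxyy _ _) h2
    rw [← e] at h1
    have : S.K l m c a' := line_in_plane hc b.2.1 hzc hbz (c231 h1)
    exact ha'2 (meet_le hn this ha'1)
  have ho2d : ¬ S.K l m d o2 := by
    intro h
    have e : z.1 = o2 := uniq hd hod hoz hzd h (cxyy _ _) h2
    rw [← e] at h1
    have : S.K l m d b.1 := line_in_plane hd ha'1 hzd ha'z (c132 h1)
    exact b.2.2 (meet_le hn b.2.1 this)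
  -- the map
  have hex : ∀ x : Aff S l m c, ∃ y : Aff S l m c, ∃ x' : P, S.K l m d x' ∧ ¬ S.C l m x' ∧
      S.C o x.1 x' ∧ S.C o2 x' y.1 := by
    intro x
    obtain ⟨x', e1, e2, e3⟩ := persp_ex H hd hc hoc x.2.1 x.2.2
    obtain ⟨y, f1, f2, f3⟩ := persp_ex H hc hd ho2d e1 e2
    exact ⟨⟨y, f1, f2⟩, x', e1, e2, e3, f3⟩
  choose s s' hs1 hs2 hs3 hs4 using hex
  have key : ∀ x y : Aff S l m c, x ≠ y → s x ≠ s y ∧
      dir S l m c (s x) (s y) = dir S l m c x y := by
    intro x y hxy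
    have hxy' : x.1 ≠ y.1 := fun e => hxy (Subtype.ext e)
    have g1 := persp_dir hd hc hoc hod x.2.1 y.2.1 hxy' (dir S l m c x y).2
      (dir_spec H hc x y) (hs1 x) (hs1 y) (hs3 x) (hs3 y)
    have g2 := persp_dir hc hd ho2d ho2c (hs1 x) (hs1 y) g1.1 (dir S l m c x y).2
      g1.2 (s x).2.1 (s y).2.1 (hs4 x) (hs4 y)
    have hne : s x ≠ s y := fun e => g2.1 (congrArg Subtype.val e)
    exact ⟨hne, dir_uniq H hc hne g2.2⟩
  have hinj : Function.Injective s := by
    intro x y hxy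
    by_contra hne
    exact (key x y hne).1 hxy
  have : Fintype (Aff S l m c) := by
    unfold Aff; infer_instance
  have hbij : Function.Bijective s := Finite.injective_iff_bijective.1 hinj
  refine ⟨Equiv.ofBijective s hbij, ?_, ?_, Or.inr ?_⟩
  · -- s a = b
    rw [Equiv.ofBijective_apply]
    have hoa : o ≠ a.1 := by rintro e; exact hoc (e ▸ a.2.1)
    have e1 : s' a = a' := uniq hd hod hoa (hs1 a) ha'1 (hs3 a) ha'3
    have h4 := hs4 a
    rw [e1] at h4
    have ho2a : o2 ≠ a' := by rintro e; exact ho2d (e ▸ ha'1)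
    exact Subtype.ext (uniq hc ho2c ho2a (s a).2.1 b.2.1 h4 (c312 h1))
  · intro x y hxy
    rw [Equiv.ofBijective_apply, Equiv.ofBijective_apply]
    exact (key x y hxy).2
  · intro x hx
    rw [Equiv.ofBijective_apply] at hx
    have h4 := hs4 x
    rw [hx] at h4
    have hxx' : x.1 ≠ s' x := by
      intro e
      exact hs2 x (meet_le hn (e ▸ x.2.1) (hs1 x))
    by_cases hoo : o = o2
    · subst hoo
      have hoa' : o ≠ a' := by rintro rfl; exact hod ha'1
      exact hab' (uniq hc hoc hoa' a.2.1 b.2.1 (c132 ha'3) (c312 h1))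
    · have g1 : S.C x.1 (s' x) o := c231 (hs3 x)
      have g2 : S.C x.1 (s' x) o2 := c321 h4
      have g3 : S.C x.1 (s' x) z.1 := (line_eq hxx' hoo g1 g2).1 (c132 h2)
      have hos : o ≠ s' x := by rintro e; exact hod (e ▸ hs1 x)
      have g4 : S.C o (s' x) x.1 := c321 g1
      have g5 : S.C o (s' x) z.1 := by
        have : S.C (s' x) z.1 o := line3 hxx' (cxyy _ _) g3 g1
        exact c312 this
      have e : x.1 = z.1 := uniq hc hoc hos x.2.1 hzc g4 g5
      exact x.2.2 (e ▸ z.2)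

theorem isPrimePow_of_hyp : IsPrimePow q := by
  classical
  obtain ⟨l, m, c, d, hn⟩ := H.h4
  have hc : ¬ S.C l m c := fun h => hn (kC h)
  have : Fintype (Aff S l m c) := by
    unfold Aff; infer_instance
  have hcard : Fintype.card (Aff S l m c) = q ^ 2 := by
    have h1 := (exact_counts H hc).2.1
    rw [sq, ← h1]
    unfold Aff
    rw [Fintype.card_subtype]
  exact PPc.main (plane_axioms H hc) q H.q2 hcard (fun a b => transl H hn a b)

end main

end Pool.Agent.DCP5
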